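import Pool.Agent.Work.MP_13b5d9_gt.CS.Stmts

set_option autoImplicit false

/-!
# MP_13b5d9_gt, block CS, item Ang (helper12): the angle along a geodesic
-/

open MeasureTheory Set Filter Topology
open scoped ContDiff ENNReal

namespace Pool.Agent.CSG

open Pool.Agent.MLS Pool.Agent.STR Pool.Agent.LQR Pool.Agent.PIN Pool.Agent.AV

namespace IAng

/-- If `|b'| ≤ C b` then `b t ≤ exp (C |t - s|) b s`. -/
theorem gron {b b' : ℝ → ℝ} {C : ℝ} (hb : ∀ t, HasDerivAt b (b' t) t)
    (h : ∀ t, |b' t| ≤ C * b t) (s t : ℝ) : b t ≤ Real.exp (C * |t - s|) * b s := by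
  have he : ∀ (K : ℝ) (t : ℝ), HasDerivAt (fun t => b t * Real.exp (K * t))
      ((b' t + K * b t) * Real.exp (K * t)) t := by
    intro K t
    have h1 : HasDerivAt (fun t : ℝ => K * t) K t := by
      simpa using (hasDerivAt_id t).const_mul K
    refine ((hb t).mul h1.exp).congr_deriv ?_
    ring
  have hmono : Monotone fun t => b t * Real.exp (C * t) := by
    apply monotone_of_deriv_nonneg (fun t => (he C t).differentiableAt)
    intro t
    rw [(he C t).deriv]
    refine mul_nonneg ?_ (Real.exp_pos _).le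
    have := (abs_le.1 (h t)).1
    linarith
  have hanti : Antitone fun t => b t * Real.exp (-C * t) := by
    apply antitone_of_deriv_nonpos (fun t => (he (-C) t).differentiableAt)
    intro t
    rw [(he (-C) t).deriv]
    refine mul_nonpos_of_nonpos_of_nonneg ?_ (Real.exp_pos _).le
    have := (abs_le.1 (h t)).2
    linarith
  rcases le_total s t with hst | hst
  · have h1 : b t * Real.exp (-C * t) ≤ b s * Real.exp (-C * s) := hanti hst
    rw [abs_of_nonneg (by linarith)]
    have h2 := mul_le_mul_of_nonneg_right h1 (Real.exp_pos (C * t)).le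
    have e1 : b t * Real.exp (-C * t) * Real.exp (C * t) = b t := by
      rw [mul_assoc, ← Real.exp_add]
      have : -C * t + C * t = 0 := by ring
      rw [this, Real.exp_zero, mul_one]
    have e2 : b s * Real.exp (-C * s) * Real.exp (C * t) = Real.exp (C * (t - s)) * b s := by
      rw [mul_assoc, ← Real.exp_add, mul_comm]
      have : -C * s + C * t = C * (t - s) := by ring
      rw [this]
    rwa [e1, e2] at h2
  · have h1 : b t * Real.exp (C * t) ≤ b s * Real.exp (C * s) := hmono hst
    rw [abs_of_nonpos (by linarith)]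
    have h2 := mul_le_mul_of_nonneg_right h1 (Real.exp_pos (-C * t)).le
    have e1 : b t * Real.exp (C * t) * Real.exp (-C * t) = b t := by
      rw [mul_assoc, ← Real.exp_add]
      have : C * t + -C * t = 0 := by ring
      rw [this, Real.exp_zero, mul_one]
    have e2 : b s * Real.exp (C * s) * Real.exp (-C * t) = Real.exp (C * -(t - s)) * b s := by
      rw [mul_assoc, ← Real.exp_add, mul_comm]
      have : C * s + -C * t = C * -(t - s) := by ring
      rw [this]
    rwa [e1, e2] at h2

end IAng

theorem pr_Ang (hA : PiA) (hBd : PiBd) (hLV : PiLV) (hInv : PiInv) (hLie : PiLie) : CsAng := by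
  intro n G _ _ hG g hg hinv z l V τ ψ hax
  obtain ⟨hL1, hL2, hL3⟩ := hLie n V g.val hax.smoothV g.smooth
  obtain ⟨hb1, -, hb3⟩ := hBd n G hG g hg hinv V hax.smoothV hax.unit hax.inv
  obtain ⟨-, -, hV⟩ := hLV n G g z l V τ ψ hax
  obtain ⟨C, hC0, hC⟩ := hb3 (Lie V g.val) hL1 (hL3 g.symm)
    (hInv n G hG V g.val hax.smoothV g.smooth hax.inv hinv) (fun x w => (hV x w).1)
  refine ⟨C, hC0, ?_⟩
  intro c hc
  obtain ⟨ha, -⟩ := hA n g V hax.smoothV c hc.geo
  have ha' : ∀ t, HasDerivAt (ang g V c)
      (1 / 2 * Lie V g.val (c t) (deriv c t) (deriv c t)) t := ha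
  have hbb : ∀ t, bb g V (c t) (deriv c t) = 1 - ang g V c t ^ 2 := by
    intro t
    rw [bb, hc.unit t]
    rfl
  have hsq : ∀ t, ang g V c t ^ 2 ≤ 1 := by
    intro t
    have := hb1 (c t) (deriv c t)
    rw [hbb] at this
    linarith
  have habs : ∀ t, |ang g V c t| ≤ 1 := fun t => (sq_le_one_iff_abs_le_one _).1 (hsq t)
  refine ⟨?_, habs, ?_, ?_⟩
  · exact continuous_iff_continuousAt.2 fun t => (ha' t).continuousAt
  · intro t
    have h1 : HasFDerivAt τ (fderiv ℝ τ (c t)) (c t) :=
      (hax.smoothT.differentiable (by simp)).differentiableAt.hasFDerivAt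
    have h2 : HasDerivAt c (deriv c t) t :=
      (hc.geo.smooth.differentiable (by norm_num)).differentiableAt.hasDerivAt
    have h3 := h1.comp_hasDerivAt t h2
    rw [hax.grad] at h3
    exact h3
  · intro s t
    have hd : ∀ t, HasDerivAt (fun t => 1 - ang g V c t)
        (-(1 / 2 * Lie V g.val (c t) (deriv c t) (deriv c t))) t := fun t =>
      (ha' t).const_sub 1
    refine IAng.gron hd ?_ s t
    intro t
    have h1 := hC (c t) (deriv c t)
    rw [hbb] at h1
    have h2 := abs_le.1 (habs t)
    rw [abs_neg, abs_mul, abs_of_pos (by norm_num : (0 : ℝ) < 1 / 2)]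
    have h3 : C * (1 - ang g V c t ^ 2) ≤ 2 * (C * (1 - ang g V c t)) := by
      have e : C * (1 - ang g V c t ^ 2) =
          C * (1 - ang g V c t) * (1 + ang g V c t) := by ring
      rw [e]
      have h4 : 0 ≤ C * (1 - ang g V c t) := mul_nonneg hC0 (by linarith)
      nlinarith
    linarith

end Pool.Agent.CSG
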