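import Pool.Agent.Work.MP_13b5d9_gt.CS.Stmts

/-!
# Item Chn: a chain of jumps
-/

set_option autoImplicit false

open MeasureTheory Set Filter Topology
open scoped ContDiff ENNReal
open Pool.Agent.Work.MP_c9f990_an.Al (IsFlow)

namespace Pool.Agent.CSG

open Pool.Agent.MLS Pool.Agent.STR Pool.Agent.LQR Pool.Agent.PIN Pool.Agent.AV

theorem pr_Chn : CsChn := by
  intro X G _ _ d hd hiso b P p q hP0 hP N
  induction N with
  | zero =>
    have h1 : P 1 = b 0 := by
      rw [hP 0, hP0, one_mul]
    rw [zero_add, h1, Finset.sum_range_one, Finset.sum_range_zero, add_zero]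
  | succ N ih =>
    have h1 : P (N + 1 + 1) • q (N + 1) = P (N + 1) • (b (N + 1) • q (N + 1)) := by
      rw [hP (N + 1), mul_smul]
    have h2 := hd.tri (p 0) (P (N + 1) • q N) (P (N + 1) • (b (N + 1) • q (N + 1)))
    have h3 := hd.tri (P (N + 1) • q N) (P (N + 1) • p (N + 1))
      (P (N + 1) • (b (N + 1) • q (N + 1)))
    have h4 := hiso (P (N + 1)) (q N) (p (N + 1))
    have h5 := hiso (P (N + 1)) (p (N + 1)) (b (N + 1) • q (N + 1))
    rw [h1, Finset.sum_range_succ _ (N + 1),
      Finset.sum_range_succ (fun i => d (q i) (p (i + 1))) N]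
    linarith

end Pool.Agent.CSG
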