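import Pool.Agent.Work.MP_13b5d9_gt.CS.Stmts

/-!
# MP_13b5d9_gt, block CS, item Cmp: comparison
-/

set_option autoImplicit false

open MeasureTheory Set Filter Topology
open scoped ContDiff ENNReal
open Pool.Agent.Work.MP_c9f990_an.Al (IsFlow)

namespace Pool.Agent.CSG

open Pool.Agent.MLS Pool.Agent.STR Pool.Agent.LQR Pool.Agent.PIN Pool.Agent.AV

namespace ICmp

/-- Cauchy's inequality for unit vectors -/
theorem cs {n : ℕ} (g : Form n) (x u v : E n) (hu : g.val x u u = 1) (hv : g.val x v v = 1) :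
    g.val x u v ≤ 1 ∧ -1 ≤ g.val x u v := by
  have h1 := g.nonneg x (u - v)
  have h2 := g.nonneg x (u + v)
  have h3 := g.symm x v u
  simp only [map_sub, map_add, ContinuousLinearMap.sub_apply, ContinuousLinearMap.add_apply] at h1 h2
  constructor <;> linarith

end ICmp

theorem pr_Cmp (hU : CsUpE) (hL : CsLoE) (hR : CsRev) : CsCmp := by
  intro n G _ _ hC g hg hI z l V τ ψ hA
  obtain ⟨c₀, hc₀, h1⟩ := hU n G hC g hg hI z l V τ ψ hA
  obtain ⟨C₁, hC₁, h2⟩ := hL n G hC g hg hI z l V τ ψ hA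
  refine ⟨max (1 / c₀) (max C₁ 1), (le_max_right C₁ 1).trans (le_max_right _ _), ?_⟩
  have key : ∀ c : ℝ → E n, UGeo g c → ∀ e : ℝ, Cal g z l c e → ∀ t,
      1 - e ≤ max (1 / c₀) (max C₁ 1) * (1 - ang g V c t) ∧
        1 - ang g V c t ≤ max (1 / c₀) (max C₁ 1) * (1 - e) := by
    intro c hc e he t
    have ha : 0 ≤ 1 - ang g V c t := by
      have := (ICmp.cs g (c t) (V (c t)) (deriv c t) (hA.unit (c t)) (hc.unit t)).1
      unfold ang
      linarith
    have h3 := h1 c hc e he t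
    have h4 := h2 c hc e he t
    have h5 : 0 ≤ 1 - e := (mul_nonneg hc₀.le ha).trans h3
    constructor
    · refine h4.trans (mul_le_mul_of_nonneg_right ?_ ha)
      exact (le_max_left C₁ 1).trans (le_max_right _ _)
    · have h6 : 1 - ang g V c t ≤ 1 / c₀ * (1 - e) := by
        rw [one_div, ← div_eq_inv_mul, le_div_iff₀ hc₀]
        linarith
      exact h6.trans (mul_le_mul_of_nonneg_right (le_max_left _ _) h5)
  intro c hc e he t
  refine ⟨key c hc e he t, ?_⟩
  obtain ⟨r1, r2, r3⟩ := hR n G hC g hI z l V c hc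
  have h7 := key _ r1 (-e) (r3 e he) (-t)
  rw [r2 (-t), neg_neg, sub_neg_eq_add, sub_neg_eq_add] at h7
  exact h7

end Pool.Agent.CSG
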