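import Pool.Agent.Work.MP_13b5d9_gt.CS.Stmts

set_option autoImplicit false

/-!
# MP_13b5d9_gt, block CS, item Crs: the crossing lemma
-/

open MeasureTheory Set Filter Topology
open scoped ContDiff ENNReal
open Pool.Agent.Work.MP_c9f990_an.Al (IsFlow)

namespace Pool.Agent.CSG

open Pool.Agent.MLS Pool.Agent.STR Pool.Agent.LQR Pool.Agent.PIN Pool.Agent.AV

theorem ICrs.tele (s t T : ℕ → ℝ) (N : ℕ) : ∑ i ∈ Finset.range (N + 1), (t i - s i) +
    ∑ i ∈ Finset.range N, ((T (i + 1) + s (i + 1)) - (T i + t i)) =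
    (T N + t N) - (T 0 + s 0) := by
  induction N with
  | zero => simp
  | succ k ih =>
    have e1 := Finset.sum_range_succ (fun i => t i - s i) (k + 1)
    have e2 := Finset.sum_range_succ (fun i => (T (i + 1) + s (i + 1)) - (T i + t i)) k
    rw [e1, e2]
    linarith

theorem pr_Crs (hRN : CsRecN) (hCh : CsChn) (hEx : CsExC) (hSp : CsSpd) (hIn : CsIni)
    (hID : StInvD) (hGd : StGd) (hFl : StFlow) : CsCrs := by
  intro n G _ _ hG g hR hI hN N b P s t hb hP0 hP hPN hst c hc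
  obtain ⟨φ, M, hφ⟩ := hFl n G hG g hR hI
  rcases Nat.eq_zero_or_pos N with rfl | hNpos
  · simp
  obtain ⟨N', rfl⟩ : ∃ N', N = N' + 1 := ⟨N - 1, by omega⟩
  obtain ⟨w₀, hw₀⟩ : ∃ w₀ : W n, w₀ = (c 0, op g (c 0) (deriv c 0)) := ⟨_, rfl⟩
  have hph := (hIn n g φ M hR hφ).2 c hc
  have hH0 : Hm g w₀ = 1 / 2 := by rw [hw₀]; exact hph.2 0
  have hval : ∀ i, exc g φ (b i) (s i) (t i) w₀ =
      gd g (c (s i)) (b i • c (t i)) - (t i - s i) := fun i => by
    unfold exc
    rw [hH0, hw₀, hph.1 (s i), hph.1 (t i)]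
    norm_num
  by_contra hneg
  push Not at hneg
  have hneg' : ∑ i ∈ Finset.range (N' + 1), exc g φ (b i) (s i) (t i) w₀ < 0 := by
    simpa only [hval] using hneg
  obtain ⟨ε, hε, hsum⟩ : ∃ ε : ℝ, 0 < ε ∧
      ∑ i ∈ Finset.range (N' + 1), exc g φ (b i) (s i) (t i) w₀ + (N' + 1) * ε < 0 := by
    have h1 : (0 : ℝ) < N' + 1 := by positivity
    refine ⟨-(∑ i ∈ Finset.range (N' + 1), exc g φ (b i) (s i) (t i) w₀) / (2 * (N' + 1)),
      by apply div_pos <;> linarith, ?_⟩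
    have h2 : ((N' : ℝ) + 1) *
        (-(∑ i ∈ Finset.range (N' + 1), exc g φ (b i) (s i) (t i) w₀) / (2 * (N' + 1))) =
        -(∑ i ∈ Finset.range (N' + 1), exc g φ (b i) (s i) (t i) w₀) / 2 := by
      field_simp
    rw [h2]
    linarith
  have hex : ∀ i, Continuous (exc g φ (b i) (s i) (t i)) := fun i =>
    (hEx n G hG g hR hI φ M hφ (b i) (hb i) (s i) (t i)).1
  obtain ⟨U, hU⟩ : ∃ U : Set (W n), U = ⋂ i ∈ Finset.range (N' + 1),
    {w | exc g φ (b i) (s i) (t i) w < exc g φ (b i) (s i) (t i) w₀ + ε} := ⟨_, rfl⟩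
  have hUo : IsOpen U := by
    rw [hU]
    exact isOpen_biInter_finset fun i _ => isOpen_lt (hex i) continuous_const
  have hUm : ∀ w, w ∈ U ↔ ∀ i ∈ Finset.range (N' + 1),
      exc g φ (b i) (s i) (t i) w < exc g φ (b i) (s i) (t i) w₀ + ε := fun w => by
    rw [hU]
    simp only [mem_iInter, mem_ofPred_eq]
  have hUn : U.Nonempty := ⟨w₀, (hUm w₀).2 fun i _ => by linarith⟩
  obtain ⟨T₀, hT₀, hts⟩ : ∃ T₀ : ℝ, 0 < T₀ ∧ ∀ i ∈ Finset.range (N' + 1),
      ∀ j ∈ Finset.range (N' + 1), t i - s j ≤ T₀ := by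
    refine ⟨1 + ∑ i ∈ Finset.range (N' + 1), |t i| + ∑ i ∈ Finset.range (N' + 1), |s i|, ?_, ?_⟩
    · have h1 : 0 ≤ ∑ i ∈ Finset.range (N' + 1), |t i| :=
        Finset.sum_nonneg fun _ _ => abs_nonneg _
      have h2 : 0 ≤ ∑ i ∈ Finset.range (N' + 1), |s i| :=
        Finset.sum_nonneg fun _ _ => abs_nonneg _
      linarith
    · intro i hi j hj
      have h1 := Finset.single_le_sum (f := fun i => |t i|) (fun i _ => abs_nonneg _) hi
      have h2 := Finset.single_le_sum (f := fun i => |s i|) (fun i _ => abs_nonneg _) hj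
      have h3 := le_abs_self (t i)
      have h4 := neg_abs_le (s j)
      linarith
  obtain ⟨w, T, a, hT, hret⟩ := hRN n G hG g hR hI φ M hφ (N' + 1) U T₀ hUo hUn hT₀
  have hkey : ∀ i ∈ Finset.range (N' + 1), exc g φ (b i) (T i + s i) (T i + t i) w <
      exc g φ (b i) (s i) (t i) w₀ + ε := fun i hi => by
    have h1 := (hUm _).1 (hret i (by rw [Finset.mem_range] at hi; omega)) i hi
    have h2 := hEx n G hG g hR hI φ M hφ (b i) (hb i) (s i) (t i)
    rw [h2.2.1, h2.2.2] at h1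
    exact h1
  have hpm := (hGd n g).2.1
  have hsp := hSp n g φ M hR hφ hN w
  have hr := Real.sqrt_nonneg (2 * Hm g w)
  have hchain := hCh (E n) G (gd g) hpm (hID n G hG g hI).2 b P
    (fun i => (φ (T i + s i) w).1) (fun i => (φ (T i + t i) w).1) hP0 hP N'
  rw [hPN, one_smul] at hchain
  have h1 : Real.sqrt (2 * Hm g w) * ((T N' + t N') - (T 0 + s 0)) ≤
      gd g (φ (T 0 + s 0) w).1 (φ (T N' + t N') w).1 := by
    rw [hsp]
    exact mul_le_mul_of_nonneg_left (le_abs_self _) hr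
  have h2 : ∀ i ∈ Finset.range N', gd g (φ (T i + t i) w).1 (φ (T (i + 1) + s (i + 1)) w).1 =
      Real.sqrt (2 * Hm g w) * ((T (i + 1) + s (i + 1)) - (T i + t i)) := fun i hi => by
    rw [hsp, abs_of_nonneg]
    rw [Finset.mem_range] at hi
    have h3 := hts i (Finset.mem_range.2 (by omega)) (i + 1) (Finset.mem_range.2 (by omega))
    have h4 := hT i
    linarith
  rw [Finset.sum_congr rfl h2, ← Finset.mul_sum] at hchain
  have h3 : ∑ i ∈ Finset.range (N' + 1), gd g (φ (T i + s i) w).1 (b i • (φ (T i + t i) w).1) =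
      ∑ i ∈ Finset.range (N' + 1), exc g φ (b i) (T i + s i) (T i + t i) w +
        Real.sqrt (2 * Hm g w) * ∑ i ∈ Finset.range (N' + 1), (t i - s i) := by
    rw [Finset.mul_sum, ← Finset.sum_add_distrib]
    refine Finset.sum_congr rfl fun i _ => ?_
    unfold exc
    ring
  have h4 := ICrs.tele s t T N'
  have h5 : ∑ i ∈ Finset.range (N' + 1), exc g φ (b i) (T i + s i) (T i + t i) w <
      ∑ i ∈ Finset.range (N' + 1), (exc g φ (b i) (s i) (t i) w₀ + ε) :=
    Finset.sum_lt_sum_of_nonempty ⟨0, Finset.mem_range.2 (by omega)⟩ hkey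
  rw [Finset.sum_add_distrib, Finset.sum_const, Finset.card_range, nsmul_eq_mul] at h5
  push_cast at h5
  rw [h3] at hchain
  have h6 := congrArg (fun y => Real.sqrt (2 * Hm g w) * y) h4
  simp only [mul_add] at h6
  nlinarith [hchain, h1, h5, h6, hsum]

end Pool.Agent.CSG
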