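import Pool.Agent.Work.MP_13b5d9_gt.CS.Stmts

set_option autoImplicit false

/-!
# MP_13b5d9_gt, block CS, item Cy: the competitor
-/

open MeasureTheory Set Filter Topology
open scoped ContDiff ENNReal Pointwise
open Pool.Agent.Work.MP_c9f990_an.Al (IsFlow)

namespace Pool.Agent.CSG

open Pool.Agent.MLS Pool.Agent.STR Pool.Agent.LQR Pool.Agent.PIN Pool.Agent.AV

namespace ICy

/-- bounds of the angle -/
theorem ang_bd {n : ℕ} {G : Type} [Group G] [MulAction G (E n)] {g : Form n} {z : G} {l : ℝ}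
    {V : E n → E n} {τ : E n → ℝ} {ψ : ℝ → E n → E n} (h : Axis n G g z l V τ ψ) (x v : E n)
    (hv : g.val x v v = 1) : 0 ≤ 1 - g.val x (V x) v ∧ 1 - g.val x (V x) v ≤ 2 := by
  have h1 := g.nonneg x (v - V x)
  have h2 : g.val x (v - V x) (v - V x) = 2 * (1 - g.val x (V x) v) := by
    simp only [map_sub, sub_apply, hv, h.unit, g.symm x v (V x)]
    ring
  have h3 := g.nonneg x (v + V x)
  have h4 : g.val x (v + V x) (v + V x) = 2 * (1 + g.val x (V x) v) := by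
    simp only [map_add, add_apply, hv, h.unit, g.symm x v (V x)]
    ring
  rw [h2] at h1
  rw [h4] at h3
  exact ⟨by linarith, by linarith⟩

/-- bound on a compact set -/
theorem bnd {n : ℕ} {F : Type} [NormedAddCommGroup F] {f : ℝ × E n → F} (hf : Continuous f)
    {K : Set (E n)} (hK : IsCompact K) (S : ℝ) :
    ∃ B : ℝ, 0 ≤ B ∧ ∀ u ∈ Icc 0 S, ∀ x ∈ K, ‖f (u, x)‖ ≤ B := by
  obtain ⟨B, hB⟩ := ((isCompact_Icc (a := (0 : ℝ)) (b := S)).prod hK).exists_bound_of_continuousOn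
    hf.continuousOn
  refine ⟨max B 0, le_max_right _ _, fun u hu x hx => ?_⟩
  exact (hB (u, x) (mk_mem_prod hu hx)).trans (le_max_left _ _)

/-- Lipschitz bound of the metrics near a compact set -/
theorem lip {n : ℕ} {gr : ℝ → Form n} (hF : Fam n gr) {K : Set (E n)} (hK : IsCompact K)
    (S R : ℝ) : ∃ L : ℝ, 0 ≤ L ∧ ∀ u ∈ Icc 0 S, ∀ x ∈ K, ∀ y : E n, ‖y - x‖ ≤ R →
    ‖(gr u).val y - (gr u).val x‖ ≤ L * ‖y - x‖ := by
  have hK' : IsCompact (K + Metric.closedBall (0 : E n) R) :=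
    hK.add (isCompact_closedBall _ _)
  have hcd := hF.smooth.continuous_fderiv (by simp)
  obtain ⟨L, hL0, hL⟩ := bnd hcd hK' S
  refine ⟨L, hL0, fun u hu x hx y hy => ?_⟩
  have hmem : ∀ w ∈ Metric.closedBall x R, w ∈ K + Metric.closedBall (0 : E n) R := by
    intro w hw
    refine mem_add.2 ⟨x, hx, w - x, ?_, by abel⟩
    rw [Metric.mem_closedBall, dist_zero_right]
    rw [Metric.mem_closedBall, dist_eq_norm] at hw
    exact hw
  have hR : 0 ≤ R := (norm_nonneg _).trans hy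
  have h := Convex.norm_image_sub_le_of_norm_fderiv_le (𝕜 := ℝ)
    (f := fun q : ℝ × E n => (gr q.1).val q.2) (C := L)
    (s := {u} ×ˢ Metric.closedBall x R) (x := (u, x)) (y := (u, y))
    (fun q _ => (hF.smooth.differentiable (by simp)) q)
    (by
      rintro ⟨r, w⟩ hw
      obtain ⟨hr, hw'⟩ := mem_prod.1 hw
      rw [mem_singleton_iff] at hr
      simp only at hr hw'
      subst hr
      exact hL r hu w (hmem w hw'))
    ((convex_singleton u).prod (convex_closedBall x R))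
    (mk_mem_prod (mem_singleton u) (Metric.mem_closedBall_self hR))
    (mk_mem_prod (mem_singleton u) (by rw [Metric.mem_closedBall, dist_eq_norm]; exact hy))
  have e : ‖((u, y) : ℝ × E n) - (u, x)‖ = ‖y - x‖ := by
    rw [Prod.mk_sub_mk, sub_self, Prod.norm_mk, norm_zero, max_eq_right (norm_nonneg _)]
  rw [e] at h
  exact h

/-- the pointwise estimate -/
theorem pt {n : ℕ} (b b' : E n →L[ℝ] E n →L[ℝ] ℝ) (hs : ∀ u v, b u v = b v u) (k d : E n)
    (κ s q B₁ D R₁ L M : ℝ) (hκ : 0 ≤ κ) (hs0 : 0 ≤ s) (hs2 : s ≤ 2) (hB : 0 ≤ B₁)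
    (hD : 0 ≤ D) (hR : 0 ≤ R₁) (hL : 0 ≤ L) (hk : ‖k‖ ≤ B₁ * s) (hd : ‖d‖ ≤ D * s ^ 2)
    (hq : b k k = q) (hb : ‖b‖ ≤ M) (hbb : ‖b' - b‖ ≤ L * (R₁ * s)) :
    b' (κ • k + d) (κ • k + d) ≤ κ ^ 2 * q +
      (L * R₁ * (κ * B₁ + 2 * D) ^ 2 + 2 * κ * M * B₁ * D + 2 * M * D ^ 2) * (s ^ 2 * s) := by
  have hM : 0 ≤ M := (norm_nonneg b).trans hb
  set w := κ • k + d with hw
  have hwn : ‖w‖ ≤ (κ * B₁ + 2 * D) * s := by
    calc ‖w‖ ≤ ‖κ • k‖ + ‖d‖ := norm_add_le _ _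
      _ ≤ κ * (B₁ * s) + D * s ^ 2 := by
          rw [norm_smul, Real.norm_eq_abs, abs_of_nonneg hκ]
          exact add_le_add (mul_le_mul_of_nonneg_left hk hκ) hd
      _ ≤ (κ * B₁ + 2 * D) * s := by nlinarith [mul_nonneg hD hs0]
  have h1 : b' w w - b w w ≤ L * (R₁ * s) * (((κ * B₁ + 2 * D) * s) * ((κ * B₁ + 2 * D) * s)) := by
    have e : b' w w - b w w = (b' - b) w w := by simp
    rw [e]
    calc (b' - b) w w ≤ ‖(b' - b) w w‖ := Real.le_norm_self _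
      _ ≤ ‖(b' - b)‖ * ‖w‖ * ‖w‖ := ContinuousLinearMap.le_opNorm₂ _ _ _
      _ = ‖(b' - b)‖ * (‖w‖ * ‖w‖) := by ring
      _ ≤ L * (R₁ * s) * (((κ * B₁ + 2 * D) * s) * ((κ * B₁ + 2 * D) * s)) := by
          refine mul_le_mul hbb (mul_le_mul hwn hwn (norm_nonneg _) ?_) (by positivity)
            (by positivity)
          positivity
  have h2 : b w w = κ ^ 2 * q + 2 * κ * b k d + b d d := by
    rw [hw]
    simp only [map_add, map_smul, add_apply, smul_apply, smul_eq_mul, hs d k, hq]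
    ring
  have h3 : b k d ≤ M * (B₁ * s) * (D * s ^ 2) := by
    calc b k d ≤ ‖b k d‖ := Real.le_norm_self _
      _ ≤ ‖b‖ * ‖k‖ * ‖d‖ := ContinuousLinearMap.le_opNorm₂ _ _ _
      _ ≤ M * (B₁ * s) * (D * s ^ 2) := by gcongr
  have h4 : b d d ≤ M * (D * s ^ 2) * (D * s ^ 2) := by
    calc b d d ≤ ‖b d d‖ := Real.le_norm_self _
      _ ≤ ‖b‖ * ‖d‖ * ‖d‖ := ContinuousLinearMap.le_opNorm₂ _ _ _
      _ ≤ M * (D * s ^ 2) * (D * s ^ 2) := by gcongr
  have h5 : M * (D * s ^ 2) * (D * s ^ 2) ≤ 2 * M * D ^ 2 * (s ^ 2 * s) := by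
    have e : M * (D * s ^ 2) * (D * s ^ 2) = M * D ^ 2 * (s ^ 2 * s) * s := by ring
    rw [e]
    calc M * D ^ 2 * (s ^ 2 * s) * s ≤ M * D ^ 2 * (s ^ 2 * s) * 2 :=
          mul_le_mul_of_nonneg_left hs2 (by positivity)
      _ = 2 * M * D ^ 2 * (s ^ 2 * s) := by ring
  have h6 : 2 * κ * b k d ≤ 2 * κ * (M * (B₁ * s) * (D * s ^ 2)) :=
    mul_le_mul_of_nonneg_left h3 (by positivity)
  calc b' w w = b w w + (b' w w - b w w) := by ring
    _ ≤ κ ^ 2 * q + 2 * κ * (M * (B₁ * s) * (D * s ^ 2)) + 2 * M * D ^ 2 * (s ^ 2 * s) +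
        L * (R₁ * s) * (((κ * B₁ + 2 * D) * s) * ((κ * B₁ + 2 * D) * s)) := by
        rw [h2]
        linarith
    _ = κ ^ 2 * q +
      (L * R₁ * (κ * B₁ + 2 * D) ^ 2 + 2 * κ * M * B₁ * D + 2 * M * D ^ 2) * (s ^ 2 * s) := by
        ring

end ICy

open ICy in
theorem pr_Cy (hRc : CsRc) (hMu : CsMu) (hSi : StSi) (hOp : StOp) : CsCy := by
  intro n G _ _ hcc g hR hI z l V τ ψ hA gr gb hAv K N N' hK hN hN'
  have hl := hA.pos
  obtain ⟨T, hT⟩ : ∃ T : ℝ, T = N * l := ⟨_, rfl⟩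
  obtain ⟨S, hS⟩ : ∃ S : ℝ, S = N' * l := ⟨_, rfl⟩
  have hT0 : 0 < T := by rw [hT]; exact mul_pos (by exact_mod_cast hN) hl
  have hS0 : 0 < S := by rw [hS]; exact mul_pos (by exact_mod_cast hN') hl
  obtain ⟨C, hC0, hC⟩ := hRc n G hcc g hR hI z l V τ ψ hA gr hAv.fam hAv.pull K T hK hT0
  obtain ⟨hiop, _, _⟩ := hSi n gr hAv.fam
  obtain ⟨B, hB0, hB⟩ := bnd hiop.continuous hK S
  obtain ⟨M, hM0, hM⟩ := bnd hAv.fam.smooth.continuous hK S
  obtain ⟨κ, hκ⟩ : ∃ κ : ℝ, κ = T / S := ⟨_, rfl⟩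
  have hκ0 : 0 ≤ κ := by rw [hκ]; positivity
  have hκS : κ * S = T := by rw [hκ]; exact div_mul_cancel₀ _ hS0.ne'
  obtain ⟨B₁, hB₁⟩ : ∃ B₁ : ℝ, B₁ = B * C := ⟨_, rfl⟩
  obtain ⟨D, hD⟩ : ∃ D : ℝ, D = S⁻¹ * (C * T) := ⟨_, rfl⟩
  have hB₁0 : 0 ≤ B₁ := by rw [hB₁]; positivity
  have hD0 : 0 ≤ D := by rw [hD]; positivity
  obtain ⟨R₁, hR₁⟩ : ∃ R₁ : ℝ, R₁ = (κ * B₁ + 2 * D) * S := ⟨_, rfl⟩
  have hR₁0 : 0 ≤ R₁ := by rw [hR₁]; positivity
  obtain ⟨L, hL0, hL⟩ := lip hAv.fam hK S (R₁ * 2)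
  obtain ⟨Q, hQ⟩ : ∃ Q : ℝ, Q = L * R₁ * (κ * B₁ + 2 * D) ^ 2 + 2 * κ * M * B₁ * D +
    2 * M * D ^ 2 := ⟨_, rfl⟩
  have hQ0 : 0 ≤ Q := by rw [hQ]; positivity
  refine ⟨S * Q, by positivity, ?_⟩
  intro c hc hcK
  rw [← hT, ← hS]
  obtain ⟨δ, hδ⟩ : ∃ δ : ℝ, δ = 1 - ang g V c 0 := ⟨_, rfl⟩
  have hδb : 0 ≤ δ ∧ δ ≤ 2 := by
    rw [hδ]
    exact ang_bd hA (c 0) (deriv c 0) (hc.unit 0)
  obtain ⟨s, hs⟩ : ∃ s : ℝ, s = Real.sqrt δ := ⟨_, rfl⟩
  have hs0 : 0 ≤ s := by rw [hs]; exact Real.sqrt_nonneg _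
  have hss : s ^ 2 = δ := by rw [hs]; exact Real.sq_sqrt hδb.1
  have hs2 : s ≤ 2 := by nlinarith [hδb.2]
  obtain ⟨p, hp⟩ : ∃ p : E n, p = op g (c 0) (deriv c 0 - V (c 0)) := ⟨_, rfl⟩
  obtain ⟨X, hX⟩ : ∃ X : ℝ → E n, ∀ t, X t = ψ (-t) (c t) := ⟨_, fun _ => rfl⟩
  obtain ⟨hpn, hCu⟩ := hC c hc hcK X hX
  rw [← hδ, ← hp, ← hs] at hpn
  obtain ⟨k, hk⟩ : ∃ k : ℝ → E n, ∀ u, k u = iop (gr u) (c 0) p := ⟨_, fun _ => rfl⟩
  have hkc : Continuous k := by
    have e : k = fun u => (fun q : ℝ × E n => iop (gr q.1) q.2) (u, c 0) p := funext hk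
    rw [e]
    exact (hiop.continuous.comp (by fun_prop : Continuous fun u : ℝ => (u, c 0))).clm_apply
      continuous_const
  have hkn : ∀ u ∈ Icc 0 S, ‖k u‖ ≤ B₁ * s := by
    intro u hu
    rw [hk]
    calc ‖iop (gr u) (c 0) p‖ ≤ ‖iop (gr u) (c 0)‖ * ‖p‖ := ContinuousLinearMap.le_opNorm _ _
      _ ≤ B * (C * s) := mul_le_mul (hB u hu (c 0) hcK) hpn (norm_nonneg _) hB0
      _ = B₁ * s := by rw [hB₁]; ring
  -- the curve `X`
  have hXC : ContDiff ℝ 1 X := by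
    have e : X = fun t => (fun q : ℝ × E n => ψ q.1 q.2) (-t, c t) := funext hX
    rw [e]
    exact (hA.smoothF.of_le (by norm_cast)).comp
      (contDiff_neg.prodMk (hc.geo.smooth.of_le (by norm_num)))
  have hXd : Continuous (deriv X) := hXC.continuous_deriv le_rfl
  have hX0 : X 0 = c 0 := by rw [hX, neg_zero, hA.zero]
  have hXT : X T - c 0 - T • iop gb (c 0) p = ∫ u in (0 : ℝ)..T, (deriv X u - k u) := by
    have h1 : ∫ u in (0 : ℝ)..T, deriv X u = X T - c 0 := by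
      rw [← hX0]
      exact intervalIntegral.integral_deriv_eq_sub
        (fun x _ => (hXC.differentiable (by norm_num)) x) (hXd.intervalIntegrable _ _)
    have h2 : ∫ u in (0 : ℝ)..T, k u = T • iop gb (c 0) p := by
      have h3 := (hMu n G g l ψ gr gb hl hAv N (c 0) p).1
      rw [← hT] at h3
      rw [← h3]
      exact intervalIntegral.integral_congr (fun u _ => hk u)
    rw [intervalIntegral.integral_sub (hXd.intervalIntegrable _ _)
      (hkc.intervalIntegrable _ _), h1, h2]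
  have hXn : ‖X T - c 0 - T • iop gb (c 0) p‖ ≤ C * T * s ^ 2 := by
    rw [hXT]
    have h1 := intervalIntegral.norm_integral_le_of_norm_le_const (a := 0) (b := T)
      (f := fun u => deriv X u - k u) (C := C * δ) (by
        intro u hu
        rw [uIoc_of_le hT0.le] at hu
        have h2 := (hCu u ⟨hu.1.le, hu.2⟩).1
        rw [← hδ, ← hp, ← hk] at h2
        exact h2)
    rw [sub_zero, abs_of_pos hT0] at h1
    rw [hss]
    linarith
  obtain ⟨d, hd⟩ : ∃ d : E n, d = S⁻¹ • (X T - c 0 - T • iop gb (c 0) p) := ⟨_, rfl⟩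
  have hdn : ‖d‖ ≤ D * s ^ 2 := by
    rw [hd, norm_smul, norm_inv, Real.norm_eq_abs, abs_of_pos hS0, hD]
    calc S⁻¹ * ‖X T - c 0 - T • iop gb (c 0) p‖ ≤ S⁻¹ * (C * T * s ^ 2) :=
          mul_le_mul_of_nonneg_left hXn (by positivity)
      _ = S⁻¹ * (C * T) * s ^ 2 := by ring
  -- the competitor
  obtain ⟨h, hh⟩ : ∃ h : ℝ → E n, ∀ u, h u = κ • k u + d := ⟨_, fun _ => rfl⟩
  have hhc : Continuous h := by
    rw [show h = fun u => κ • k u + d from funext hh]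
    exact (hkc.const_smul κ).add continuous_const
  have hhn : ∀ u ∈ Icc 0 S, ‖h u‖ ≤ (κ * B₁ + 2 * D) * s := by
    intro u hu
    rw [hh]
    calc ‖κ • k u + d‖ ≤ ‖κ • k u‖ + ‖d‖ := norm_add_le _ _
      _ ≤ κ * (B₁ * s) + D * s ^ 2 := by
          rw [norm_smul, Real.norm_eq_abs, abs_of_nonneg hκ0]
          exact add_le_add (mul_le_mul_of_nonneg_left (hkn u hu) hκ0) hdn
      _ ≤ (κ * B₁ + 2 * D) * s := by nlinarith [mul_nonneg hD0 hs0]
  obtain ⟨Y, hY⟩ : ∃ Y : ℝ → E n, ∀ u, Y u = c 0 + ∫ r in (0 : ℝ)..u, h r :=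
    ⟨_, fun _ => rfl⟩
  have hYd : ∀ u, HasDerivAt Y (h u) u := by
    intro u
    rw [show Y = fun u => c 0 + ∫ r in (0 : ℝ)..u, h r from funext hY]
    exact ((hhc.integral_hasStrictDerivAt 0 u).hasDerivAt).const_add _
  have hYdd : deriv Y = h := funext fun u => (hYd u).deriv
  have hYC : ContDiff ℝ 1 Y := by
    rw [contDiff_one_iff_deriv]
    exact ⟨fun u => (hYd u).differentiableAt, by rw [hYdd]; exact hhc⟩
  have hY0 : Y 0 = c 0 := by rw [hY, intervalIntegral.integral_same, add_zero]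
  have hYS : Y S = X T := by
    have h2 : ∫ u in (0 : ℝ)..S, k u = S • iop gb (c 0) p := by
      have h3 := (hMu n G g l ψ gr gb hl hAv N' (c 0) p).1
      rw [← hS] at h3
      rw [← h3]
      exact intervalIntegral.integral_congr (fun u _ => hk u)
    have h4 : ∫ u in (0 : ℝ)..S, h u = κ • (S • iop gb (c 0) p) + S • d := by
      have h5 := intervalIntegral.integral_add (μ := volume) (a := 0) (b := S)
        (f := fun u => κ • k u) (g := fun _ => d)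
        ((hkc.const_smul κ).intervalIntegrable _ _) (continuous_const.intervalIntegrable _ _)
      rw [intervalIntegral.integral_congr (fun u _ => hh u), h5,
        intervalIntegral.integral_smul, h2, intervalIntegral.integral_const, sub_zero]
    rw [hY, h4, smul_smul, hκS, hd, smul_smul, mul_inv_cancel₀ hS0.ne', one_smul]
    abel
  have hYn : ∀ u ∈ Icc 0 S, ‖Y u - c 0‖ ≤ R₁ * s := by
    intro u hu
    rw [hY, add_sub_cancel_left]
    have h1 := intervalIntegral.norm_integral_le_of_norm_le_const (a := 0) (b := u)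
      (f := h) (C := (κ * B₁ + 2 * D) * s) (by
        intro r hr
        rw [uIoc_of_le hu.1] at hr
        exact hhn r ⟨hr.1.le, hr.2.trans hu.2⟩)
    rw [sub_zero, abs_of_nonneg hu.1] at h1
    refine h1.trans ?_
    rw [hR₁]
    calc (κ * B₁ + 2 * D) * s * u ≤ (κ * B₁ + 2 * D) * s * S :=
          mul_le_mul_of_nonneg_left hu.2 (by positivity)
      _ = (κ * B₁ + 2 * D) * S * s := by ring
  refine ⟨Y, hYC, hY0, by rw [hYS, hX], ?_⟩
  rw [← hδ, ← hs, ← hss]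
  -- the pointwise estimate
  have hpt : ∀ u ∈ Icc 0 S, (gr u).val (Y u) (deriv Y u) (deriv Y u) ≤
      κ ^ 2 * inner ℝ p (iop (gr u) (c 0) p) + Q * (s ^ 2 * s) := by
    intro u hu
    obtain ⟨_, hin, _, hoi, _⟩ := hOp n (gr u) (hAv.fam.riem u)
    rw [hYdd, hh, hQ]
    refine pt ((gr u).val (c 0)) ((gr u).val (Y u)) ((gr u).symm (c 0)) (k u) d κ s _ B₁ D R₁ L M
      hκ0 hs0 hs2 hB₁0 hD0 hR₁0 hL0 (hkn u hu) hdn ?_ (hM u hu (c 0) hcK) ?_
    · rw [← hin, hk, hoi]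
    · refine (hL u hu (c 0) hcK (Y u) ?_).trans ?_
      · exact (hYn u hu).trans (mul_le_mul_of_nonneg_left hs2 hR₁0)
      · exact mul_le_mul_of_nonneg_left (hYn u hu) hL0
  have hYc : Continuous Y := hYC.continuous
  have hc1 : Continuous fun u => (gr u).val (Y u) (deriv Y u) (deriv Y u) := by
    rw [hYdd]
    exact ((hAv.fam.smooth.continuous.comp
      (continuous_id.prodMk hYc)).clm_apply hhc).clm_apply hhc
  have hc2 : Continuous fun u => κ ^ 2 * inner ℝ p (iop (gr u) (c 0) p) + Q * (s ^ 2 * s) := by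
    have e : (fun u => κ ^ 2 * inner ℝ p (iop (gr u) (c 0) p) + Q * (s ^ 2 * s)) =
        fun u => κ ^ 2 * inner ℝ p (k u) + Q * (s ^ 2 * s) := by
      funext u
      rw [hk]
    rw [e]
    exact (continuous_const.mul (continuous_const.inner hkc)).add continuous_const
  have hc3 : Continuous fun u => κ ^ 2 * inner ℝ p (iop (gr u) (c 0) p) := by
    have e : (fun u => κ ^ 2 * inner ℝ p (iop (gr u) (c 0) p)) =
        fun u => κ ^ 2 * inner ℝ p (k u) := by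
      funext u
      rw [hk]
    rw [e]
    exact continuous_const.mul (continuous_const.inner hkc)
  have h1 := intervalIntegral.integral_mono_on (μ := volume) hS0.le
    (hc1.intervalIntegrable 0 S)
    (hc2.intervalIntegrable 0 S) hpt
  have h2 : ∫ u in (0 : ℝ)..S, (κ ^ 2 * inner ℝ p (iop (gr u) (c 0) p) + Q * (s ^ 2 * s)) =
      κ ^ 2 * (S * inner ℝ p (iop gb (c 0) p)) + S * (Q * (s ^ 2 * s)) := by
    have h3 := (hMu n G g l ψ gr gb hl hAv N' (c 0) p).2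
    rw [← hS] at h3
    have h5 := intervalIntegral.integral_add (μ := volume) (a := 0) (b := S)
      (f := fun u => κ ^ 2 * inner ℝ p (iop (gr u) (c 0) p)) (g := fun _ => Q * (s ^ 2 * s))
      (hc3.intervalIntegrable _ _) (continuous_const.intervalIntegrable _ _)
    rw [h5, intervalIntegral.integral_const_mul, h3,
      intervalIntegral.integral_const, sub_zero, smul_eq_mul]
  rw [h2] at h1
  refine h1.trans (le_of_eq ?_)
  have h4 : pb g gb V (c 0) (deriv c 0) = inner ℝ p (iop gb (c 0) p) := by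
    rw [hp]
    rfl
  rw [h4, hκ]
  field_simp

end Pool.Agent.CSG
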