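import Pool.Agent.Work.MP_13b5d9_gt.CS.Stmts
import Pool.Agent.Work.MP_25cd3b_gt.M.I_Bnd

/-!
# Item Dps: the flow has bounded derivatives
-/

set_option autoImplicit false

open MeasureTheory Set Filter Topology
open scoped ContDiff ENNReal
open Pool.Agent.Work.MP_c9f990_an.Al (IsFlow)

namespace Pool.Agent.CSG

open Pool.Agent.MLS Pool.Agent.STR Pool.Agent.LQR Pool.Agent.PIN Pool.Agent.AV

namespace IDps

/-- the flow at integer multiples of the period -/
theorem iter {n : ℕ} {G : Type} [Group G] [MulAction G (E n)] {g : Form n}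
    {z : G} {l : ℝ} {V : E n → E n} {τ : E n → ℝ} {ψ : ℝ → E n → E n}
    (h : Axis n G g z l V τ ψ) (k : ℤ) : ∀ y : E n, ψ (k * l) y = z ^ k • y := by
  have hinv : ∀ x : E n, z⁻¹ • x = ψ (-l) x := by
    intro x
    have h1 : ψ (-l) (ψ l (z⁻¹ • x)) = z⁻¹ • x := by
      rw [← h.add, neg_add_cancel, h.zero]
    rw [h.period, smul_inv_smul] at h1
    exact h1.symm
  induction k using Int.induction_on with
  | zero =>
    intro x
    rw [zpow_zero, one_smul, Int.cast_zero, zero_mul, h.zero]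
  | succ i ih =>
    intro x
    rw [zpow_add_one, mul_smul, ← h.period, ← ih, ← h.add]
    congr 1
    push_cast
    ring
  | pred i ih =>
    intro x
    rw [zpow_sub_one, mul_smul, hinv, ← ih, ← h.add]
    congr 1
    push_cast
    ring

/-- reduction of the time to a period -/
theorem red {n : ℕ} {G : Type} [Group G] [MulAction G (E n)] {g : Form n}
    {z : G} {l : ℝ} {V : E n → E n} {τ : E n → ℝ} {ψ : ℝ → E n → E n}
    (h : Axis n G g z l V τ ψ) (t : ℝ) :
    ∃ (k : ℤ) (s : ℝ), s ∈ Icc 0 l ∧ ψ t = fun y => z ^ k • ψ s y := by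
  refine ⟨⌊t / l⌋, t - ⌊t / l⌋ * l, ⟨?_, ?_⟩, ?_⟩
  · have h1 := Int.floor_le (t / l)
    have h2 : (⌊t / l⌋ : ℝ) * l ≤ t / l * l := mul_le_mul_of_nonneg_right h1 h.pos.le
    rw [div_mul_cancel₀ _ h.pos.ne'] at h2
    linarith
  · have h1 := (Int.lt_floor_add_one (t / l)).le
    have h2 : t / l * l ≤ ((⌊t / l⌋ : ℝ) + 1) * l := mul_le_mul_of_nonneg_right h1 h.pos.le
    rw [div_mul_cancel₀ _ h.pos.ne'] at h2
    linarith
  · funext y
    have e : t = ⌊t / l⌋ * l + (t - ⌊t / l⌋ * l) := by ring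
    conv_lhs => rw [e]
    rw [h.add, iter h]

/-- the bound on a compact set -/
theorem cpt {n : ℕ} {G : Type} [Group G] [MulAction G (E n)] (hc : Cocompact n G) {g : Form n}
    (hg : Riem g) (hi : Inv G g) {z : G} {l : ℝ} {V : E n → E n} {τ : E n → ℝ}
    {ψ : ℝ → E n → E n} (h : Axis n G g z l V τ ψ) (K : Set (E n)) (hK : IsCompact K) :
    ∃ C : ℝ, 0 ≤ C ∧ ∀ (t : ℝ), ∀ x ∈ K, ∀ w : E n,
      nrm g (ψ t x) (fderiv ℝ (ψ t) x w) ≤ C * nrm g x w := by
  have hsm : ∀ s : ℝ, ContDiff ℝ ∞ (ψ s) := fun s =>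
    h.smoothF.comp (contDiff_const.prodMk contDiff_id)
  have hcomp : IsCompact ((fun p : ℝ × E n => ψ p.1 p.2) '' (Icc 0 l ×ˢ K)) :=
    (isCompact_Icc.prod hK).image h.smoothF.continuous
  obtain ⟨C₁, hC₁, hb⟩ := (pr_Bnd n g _ hcomp).1
  obtain ⟨C₃, hC₃, hb3⟩ := (pr_Bnd n g K hK).2 hg
  have hD : Continuous (fun p : ℝ × E n => fderiv ℝ (ψ p.1) p.2) := by
    have hf : ContDiff ℝ 1 (Function.uncurry (fun (p : ℝ × E n) (y : E n) => ψ p.1 y)) := by
      have h2 : ContDiff ℝ ∞ (fun q : (ℝ × E n) × E n => ψ q.1.1 q.2) :=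
        h.smoothF.comp ((contDiff_fst.comp contDiff_fst).prodMk contDiff_snd)
      exact h2.of_le (by exact_mod_cast le_top)
    have h3 := ContDiff.fderiv (n := 0) hf (contDiff_snd (𝕜 := ℝ) (E := ℝ) (F := E n)) (by norm_num)
    exact h3.continuous
  obtain ⟨C₂, hC₂⟩ := (isCompact_Icc.prod hK).exists_bound_of_continuousOn hD.continuousOn
  refine ⟨C₁ * (max C₂ 0 * C₃),
    mul_nonneg hC₁.le (mul_nonneg (le_max_right _ _) hC₃.le), ?_⟩
  intro t x hx w
  obtain ⟨k, s, hs, hk⟩ := red h t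
  have hmem : (s, x) ∈ Icc 0 l ×ˢ K := ⟨hs, hx⟩
  have hdiff : fderiv ℝ (ψ t) x w = dac (z ^ k) (ψ s x) (fderiv ℝ (ψ s) x w) := by
    have ha : DifferentiableAt ℝ (fun y : E n => z ^ k • y) (ψ s x) :=
      ((hc.smooth (z ^ k)).differentiable (by norm_num)).differentiableAt
    have hp : DifferentiableAt ℝ (ψ s) x := ((hsm s).differentiable (by norm_num)).differentiableAt
    have h4 := ha.hasFDerivAt.comp x hp.hasFDerivAt
    have h5 : fderiv ℝ (ψ t) x = (fderiv ℝ (fun y : E n => z ^ k • y) (ψ s x)).comp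
        (fderiv ℝ (ψ s) x) := by
      rw [hk]
      exact h4.fderiv
    rw [h5]
    rfl
  have hval : ψ t x = z ^ k • ψ s x := congrFun hk x
  have hn : nrm g (ψ t x) (fderiv ℝ (ψ t) x w) = nrm g (ψ s x) (fderiv ℝ (ψ s) x w) := by
    unfold nrm
    rw [hdiff, hval, hi]
  rw [hn]
  calc nrm g (ψ s x) (fderiv ℝ (ψ s) x w) ≤ C₁ * ‖fderiv ℝ (ψ s) x w‖ :=
        hb _ ⟨(s, x), hmem, rfl⟩ _
    _ ≤ C₁ * (max C₂ 0 * ‖w‖) := by
        refine mul_le_mul_of_nonneg_left ?_ hC₁.le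
        refine (ContinuousLinearMap.le_opNorm _ _).trans ?_
        exact mul_le_mul_of_nonneg_right ((hC₂ (s, x) hmem).trans (le_max_left _ _)) (norm_nonneg _)
    _ ≤ C₁ * (max C₂ 0 * (C₃ * nrm g x w)) := by
        refine mul_le_mul_of_nonneg_left ?_ hC₁.le
        exact mul_le_mul_of_nonneg_left (hb3 x hx w) (le_max_right _ _)
    _ = C₁ * (max C₂ 0 * C₃) * nrm g x w := by ring

end IDps

theorem pr_Dps : CsDps := by
  intro n G _ _ hc g hg hi z l V τ ψ h
  obtain ⟨K, hK, hK1⟩ := hc.cocompact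
  obtain ⟨C, hC, hb⟩ := IDps.cpt hc hg hi h K hK
  refine ⟨C + 1, by linarith, ?_⟩
  intro r x w
  obtain ⟨a, ha⟩ := hK1 x
  have hsm : ∀ s : ℝ, Differentiable ℝ (ψ s) := fun s =>
    ((h.smoothF.comp (contDiff_const.prodMk contDiff_id)).differentiable (by norm_num))
  have hsa : Differentiable ℝ (fun y : E n => a • y) :=
    (hc.smooth a).differentiable (by norm_num)
  have h1 := hb r (a • x) ha (dac a x w)
  have hD : fderiv ℝ (ψ r) (a • x) (dac a x w) = dac a (ψ r x) (fderiv ℝ (ψ r) x w) := by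
    have e1 : HasFDerivAt (fun y : E n => ψ r (a • y))
        ((fderiv ℝ (ψ r) (a • x)).comp (dac a x)) x :=
      (hsm r (a • x)).hasFDerivAt.comp x (hsa x).hasFDerivAt
    have e2 : HasFDerivAt (fun y : E n => a • ψ r y)
        ((dac a (ψ r x)).comp (fderiv ℝ (ψ r) x)) x :=
      (hsa (ψ r x)).hasFDerivAt.comp x (hsm r x).hasFDerivAt
    have e3 : (fun y : E n => ψ r (a • y)) = fun y : E n => a • ψ r y := by
      funext y
      exact h.comm a r y
    rw [e3] at e1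
    have e4 := e1.unique e2
    exact congrArg (fun A : E n →L[ℝ] E n => A w) e4
  rw [hD, h.comm] at h1
  unfold nrm at h1
  rw [hi, hi] at h1
  have h2 : Real.sqrt (g.val (ψ r x) (fderiv ℝ (ψ r) x w) (fderiv ℝ (ψ r) x w)) ≤
      (C + 1) * Real.sqrt (g.val x w w) := by
    refine h1.trans (mul_le_mul_of_nonneg_right (by linarith) (Real.sqrt_nonneg _))
  have h3 := pow_le_pow_left₀ (Real.sqrt_nonneg _) h2 2
  rw [Real.sq_sqrt (g.nonneg _ _), mul_pow, Real.sq_sqrt (g.nonneg _ _)] at h3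
  exact h3

end Pool.Agent.CSG
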