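import Pool.Agent.Work.MP_13b5d9_gt.CS.Stmts

set_option autoImplicit false

/-!
# MP_13b5d9_gt, block CS, item Twi: twisted curves
-/

open MeasureTheory Set Filter Topology
open scoped ContDiff ENNReal
open Pool.Agent.Work.MP_c9f990_an.Al (IsFlow)

namespace Pool.Agent.CSG

open Pool.Agent.MLS Pool.Agent.STR Pool.Agent.LQR Pool.Agent.PIN Pool.Agent.AV

namespace ITwi

/-- Expansion of a quadratic form. -/
theorem expand {n : ℕ} (g : Form n) (x p q : E n) (a : ℝ) :
    g.val x (a • p + q) (a • p + q) =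
      a ^ 2 * g.val x p p + 2 * a * g.val x p q + g.val x q q := by
  have h := g.symm x q p
  simp only [map_add, map_smul, ContinuousLinearMap.add_apply, ContinuousLinearMap.smul_apply,
    smul_eq_mul]
  rw [h]
  ring

/-- The bound of the transported velocity. -/
theorem bound {n : ℕ} {G : Type} [Group G] [MulAction G (E n)] {g : Form n} {z : G} {l : ℝ}
    {V : E n → E n} {τ : E n → ℝ} {ψ : ℝ → E n → E n} (hLV : PiLV) (hA : Axis n G g z l V τ ψ)
    {C : ℝ} (hC : ∀ (r : ℝ) (x w : E n),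
      g.val (ψ r x) (fderiv ℝ (ψ r) x w) (fderiv ℝ (ψ r) x w) ≤ C ^ 2 * g.val x w w)
    (r : ℝ) (x v : E n) (hv : g.val x v v = 1) :
    g.val (ψ r x) (fderiv ℝ (ψ r) x v) (fderiv ℝ (ψ r) x v) ≤
      g.val x (V x) v ^ 2 + C ^ 2 * (1 - g.val x (V x) v ^ 2) := by
  obtain ⟨h1, h2, -⟩ := hLV n G g z l V τ ψ hA
  obtain ⟨a, ha⟩ : ∃ a, a = g.val x (V x) v := ⟨_, rfl⟩
  obtain ⟨w, hw⟩ : ∃ w, w = v - a • V x := ⟨_, rfl⟩
  have hvw : v = a • V x + w := by rw [hw]; abel
  have hVw : g.val x (V x) w = 0 := by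
    rw [hw, map_sub, map_smul, smul_eq_mul, hA.unit x, ← ha]
    ring
  have hww : g.val x w w = 1 - a ^ 2 := by
    have h3 := expand g x (V x) w a
    rw [← hvw, hv, hVw, hA.unit x] at h3
    linarith
  have hD : fderiv ℝ (ψ r) x v = a • V (ψ r x) + fderiv ℝ (ψ r) x w := by
    conv_lhs => rw [hvw]
    rw [map_add, map_smul, h1 r x]
  have h4 : g.val (ψ r x) (V (ψ r x)) (fderiv ℝ (ψ r) x w) = 0 := by
    rw [h2 r x w, hVw]
  have h5 := hC r x w
  rw [hww] at h5
  rw [hD, expand, h4, hA.unit, ← ha]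
  linarith

end ITwi

/-- [Twi] twisted curves -/
theorem pr_Twi (hVar : PiVar) (hLV : PiLV) (hGd : StGd) : CsTwi := by
  intro n G _ _ g z l V τ ψ hA C hC c hU σ κ s t hst
  have hc1 : ContDiff ℝ 1 c := hU.geo.smooth.of_le (by norm_num)
  have hf1 : ContDiff ℝ 1 (fun u : ℝ => σ * u + κ) :=
    (contDiff_const.mul contDiff_id).add contDiff_const
  have hdf : ∀ u, deriv (fun u : ℝ => σ * u + κ) u = σ := by
    intro u
    have h : HasDerivAt (fun u : ℝ => σ * u + κ) (σ * 1) u :=
      ((hasDerivAt_id u).const_mul σ).add_const κ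
    rw [mul_one] at h
    exact h.deriv
  obtain ⟨hγ, hsp⟩ := hVar n G g z l V τ ψ hA c (fun u => σ * u + κ) hc1 hf1 1
  simp only [one_mul, hdf] at hγ hsp
  have hγ' : Continuous (deriv fun u => ψ (σ * u + κ) (c u)) := hγ.continuous_deriv le_rfl
  have hc' : Continuous (deriv c) := hc1.continuous_deriv le_rfl
  have hle := (hGd n g).2.2.2 (fun u => ψ (σ * u + κ) (c u)) s t hγ hst
  refine hle.trans ?_
  have hang : Continuous fun u => ang g V c u := by
    unfold ang
    exact ((g.smooth.continuous.comp hc1.continuous).clm_apply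
      (hA.smoothV.continuous.comp hc1.continuous)).clm_apply hc'
  have hn : Continuous fun u => nrm g (ψ (σ * u + κ) (c u))
      (deriv (fun u => ψ (σ * u + κ) (c u)) u) := by
    unfold nrm
    exact Real.continuous_sqrt.comp (((g.smooth.continuous.comp hγ.continuous).clm_apply
      hγ').clm_apply hγ')
  have hr : Continuous fun u => Real.sqrt ((ang g V c u + σ) ^ 2 +
      C ^ 2 * (1 - ang g V c u ^ 2)) :=
    Real.continuous_sqrt.comp (((hang.add continuous_const).pow 2).add
      (continuous_const.mul (continuous_const.sub (hang.pow 2))))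
  refine intervalIntegral.integral_mono_on hst (hn.intervalIntegrable _ _)
    (hr.intervalIntegrable _ _) fun u _ => ?_
  unfold nrm
  refine Real.sqrt_le_sqrt ?_
  rw [hsp u]
  have hb := ITwi.bound hLV hA hC (σ * u + κ) (c u) (deriv c u) (hU.unit u)
  have he : ang g V c u = g.val (c u) (V (c u)) (deriv c u) := rfl
  rw [he]
  nlinarith [hb]

end Pool.Agent.CSG
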