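import Pool.Agent.Work.MP_13b5d9_gt.CS.StmtsM
import Pool.Agent.Work.MP_13b5d9_gt.CS.I_Twi

set_option autoImplicit false

/-!
# MP_13b5d9_gt, block CS, item DqL: Lipschitz bound of the horizontal distance
-/

open MeasureTheory Set Filter Topology
open scoped ContDiff ENNReal
open Pool.Agent.Work.MP_c9f990_an.Al (IsFlow)

namespace Pool.Agent.CSG

open Pool.Agent.MLS Pool.Agent.STR Pool.Agent.LQR Pool.Agent.PIN Pool.Agent.AV

theorem pr_DqL (hCmp : CsCmp) (hAng : CsAng) (hGv : StGv) (hPa : StPa) (hVar : PiVar)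
    (hGd : StGd) (hCp : StCmp) : CsDqL := by
  intro n G _ _ hC g hR hI z l V τ ψ hAx gr gb hAvg
  obtain ⟨hAxb, -⟩ := hPa n G g z l V τ ψ gr gb hR hAx hAvg
  obtain ⟨-, hVb, hinv⟩ := hGv n G g z l V τ ψ gr gb hR hAx hAvg
  obtain ⟨A, hA0, hA, -⟩ := hCp n G hC g gb hR hI hAvg.invb
  obtain ⟨Λ, hΛ1, hΛ⟩ := hCmp n G hC g hR hI z l V τ ψ hAx
  obtain ⟨K, -, hK⟩ := hAng n G hC g hR hI z l V τ ψ hAx
  refine ⟨A * Λ, by positivity, ?_⟩
  intro c hc e he hCal s t hst
  obtain ⟨-, hab, hder, -⟩ := hK c hc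
  have hc1 : ContDiff ℝ 1 c := hc.geo.smooth.of_le (by norm_num)
  have hT1 : ContDiff ℝ 1 τ := hAx.smoothT.of_le (by exact_mod_cast le_top)
  have hf1 : ContDiff ℝ 1 (fun u : ℝ => τ (c s) - τ (c u)) :=
    contDiff_const.sub (hT1.comp hc1)
  have hdf : ∀ u, deriv (fun u : ℝ => τ (c s) - τ (c u)) u = - ang g V c u := fun u =>
    ((hder u).const_sub (τ (c s))).deriv
  obtain ⟨hγ, hsp⟩ := hVar n G gb z l V τ ψ hAxb c (fun u => τ (c s) - τ (c u)) hc1 hf1 1
  simp only [one_mul, hdf] at hγ hsp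
  have hγ' : Continuous (deriv fun u => ψ (τ (c s) - τ (c u)) (c u)) := hγ.continuous_deriv le_rfl
  have hle := (hGd n gb).2.2.2 (fun u => ψ (τ (c s) - τ (c u)) (c u)) s t hγ hst
  simp only [sub_self, hAx.zero] at hle
  unfold dq
  refine hle.trans ?_
  have hn : Continuous fun u => nrm gb (ψ (τ (c s) - τ (c u)) (c u))
      (deriv (fun u => ψ (τ (c s) - τ (c u)) (c u)) u) := by
    unfold nrm
    exact Real.continuous_sqrt.comp (((gb.smooth.continuous.comp hγ.continuous).clm_apply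
      hγ').clm_apply hγ')
  have hpt : ∀ u ∈ Icc s t, nrm gb (ψ (τ (c s) - τ (c u)) (c u))
      (deriv (fun u => ψ (τ (c s) - τ (c u)) (c u)) u) ≤ A * Λ * Real.sqrt (1 - e ^ 2) := by
    intro u _
    obtain ⟨a, ha⟩ : ∃ a, a = ang g V c u := ⟨_, rfl⟩
    have ha' : a = g.val (c u) (V (c u)) (deriv c u) := ha
    obtain ⟨w, hw⟩ : ∃ w, w = deriv c u - a • V (c u) := ⟨_, rfl⟩
    have hvw : deriv c u = a • V (c u) + w := by rw [hw]; abel
    have hVw : g.val (c u) (V (c u)) w = 0 := by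
      rw [hw, map_sub, map_smul, smul_eq_mul, hAx.unit (c u), ← ha']
      ring
    have hww : g.val (c u) w w = 1 - a ^ 2 := by
      have h3 := ITwi.expand g (c u) (V (c u)) w a
      rw [← hvw, hc.unit u, hVw, hAx.unit (c u)] at h3
      linarith
    have hwb : gb.val (c u) (deriv c u) (deriv c u) = a ^ 2 + gb.val (c u) w w := by
      have h3 := ITwi.expand gb (c u) (V (c u)) w a
      rw [← hvw, hVb (c u) w, hVw, hVb (c u) (V (c u)), hAx.unit (c u)] at h3
      linarith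
    have hs := hsp u
    rw [hinv, hVb, ← ha', ← ha, hwb] at hs
    have hnr : nrm gb (ψ (τ (c s) - τ (c u)) (c u))
        (deriv (fun u => ψ (τ (c s) - τ (c u)) (c u)) u) = nrm gb (c u) w := by
      unfold nrm
      rw [hs]
      congr 1
      ring
    rw [hnr]
    refine (hA (c u) w).trans ?_
    rw [mul_assoc]
    refine mul_le_mul_of_nonneg_left ?_ hA0.le
    unfold nrm
    rw [hww]
    obtain ⟨⟨-, h1⟩, -, h2⟩ := hΛ c hc e hCal u
    rw [← ha] at h1 h2
    have hab' := abs_le.1 (hab u)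
    rw [← ha] at hab'
    have he' := abs_le.1 he
    have h3 : 1 - a ^ 2 ≤ Λ ^ 2 * (1 - e ^ 2) := by
      have h4 := mul_le_mul h1 h2 (by linarith) (by nlinarith)
      nlinarith
    calc Real.sqrt (1 - a ^ 2) ≤ Real.sqrt (Λ ^ 2 * (1 - e ^ 2)) := Real.sqrt_le_sqrt h3
      _ = Λ * Real.sqrt (1 - e ^ 2) := by
          rw [Real.sqrt_mul (by positivity), Real.sqrt_sq (by linarith)]
  have hint := intervalIntegral.integral_mono_on (μ := volume) hst (hn.intervalIntegrable s t)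
    ((continuous_const : Continuous fun _ : ℝ => A * Λ * Real.sqrt (1 - e ^ 2)).intervalIntegrable
      s t) hpt
  refine hint.trans (le_of_eq ?_)
  rw [intervalIntegral.integral_const, smul_eq_mul]
  ring

end Pool.Agent.CSG
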