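import Pool.Agent.Work.MP_13b5d9_gt.CS.StmtsM

set_option autoImplicit false

/-!
# MP_13b5d9_gt, block CS, item DqM: horizontal shadowing (helper59)
-/

open MeasureTheory Set Filter Topology
open scoped ContDiff ENNReal
open Pool.Agent.Work.MP_c9f990_an.Al (IsFlow)

namespace Pool.Agent.CSG

open Pool.Agent.MLS Pool.Agent.STR Pool.Agent.LQR Pool.Agent.PIN Pool.Agent.AV

namespace IDqM

theorem qpath {X : Type} (d : X → X → ℝ) (hd : IsPM d) (C K Λ b : ℝ) (hb : 0 < b) (hb1 : b ≤ 1)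
    (hK : 0 ≤ K) (hΛ : 0 ≤ Λ) (hC : 0 ≤ C) (c : ℝ → X)
    (h1 : ∀ s t : ℝ, s ≤ t → d (c s) (c t) ≤ C * (b * (t - s)))
    (h2 : ∀ s t : ℝ, s ≤ t → b * (t - s - Λ) ≤ K * d (c s) (c t)) (s t : ℝ) :
    QPath d (max C K) Λ (fun σ => c (σ / b)) s t := by
  have key : ∀ u v : ℝ, u ≤ v → d (c (u / b)) (c (v / b)) ≤ max C K * (v - u) ∧
      v - u ≤ max C K * d (c (u / b)) (c (v / b)) + Λ := by
    intro u v huv
    have hle : u / b ≤ v / b := by gcongr
    have e1 : b * (v / b - u / b) = v - u := by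
      field_simp
    have a1 := h1 _ _ hle
    have a2 := h2 _ _ hle
    rw [e1] at a1
    have e2 : b * (v / b - u / b - Λ) = (v - u) - b * Λ := by
      rw [mul_sub, e1]
    rw [e2] at a2
    have hd0 := hd.nonneg (c (u / b)) (c (v / b))
    constructor
    · refine a1.trans ?_
      exact mul_le_mul_of_nonneg_right (le_max_left _ _) (by linarith)
    · have a3 : K * d (c (u / b)) (c (v / b)) ≤ max C K * d (c (u / b)) (c (v / b)) :=
        mul_le_mul_of_nonneg_right (le_max_right _ _) hd0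
      have a4 : b * Λ ≤ 1 * Λ := mul_le_mul_of_nonneg_right hb1 hΛ
      linarith
  intro u _ v _
  rcases le_total u v with h | h
  · obtain ⟨k1, k2⟩ := key u v h
    rw [abs_sub_comm, abs_of_nonneg (by linarith)]
    exact ⟨k1, k2⟩
  · obtain ⟨k1, k2⟩ := key v u h
    rw [abs_of_nonneg (by linarith)]
    show d (c (u / b)) (c (v / b)) ≤ _ ∧ _ ≤ max C K * d (c (u / b)) (c (v / b)) + Λ
    rw [hd.symm (c (u / b)) (c (v / b))]
    exact ⟨k1, k2⟩

end IDqM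

theorem pr_DqM (hMor : CsMor) (hDqP : CsDqP) (hDqL : CsDqL) (hQg : CsQg) (hPa : StPa)
    (hCmp : StCmp) : CsDqM := by
  intro n G _ _ hC g hR hI hN z l V τ ψ hAx gr gb hAvg hNb δ hδ
  obtain ⟨hAxb, hpar⟩ := hPa n G g z l V τ ψ gr gb hR hAx hAvg
  obtain ⟨hPM, hseg, -⟩ := hDqP n G hC gb hAvg.riemb hAvg.invb hNb z l V τ ψ hAxb hpar
  obtain ⟨C, hC0, hL⟩ := hDqL n G hC g hR hI z l V τ ψ hAx gr gb hAvg
  obtain ⟨Λ, hΛ1, hQ⟩ := hQg n G hC g hR hI hN z l V τ ψ hAx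
  obtain ⟨A, hA0, -, hA⟩ := hCmp n G hC gb g hAvg.riemb hAvg.invb hI
  have hΛ0 : 0 ≤ Λ := by linarith
  have hK0 : 0 ≤ Λ * A := mul_nonneg hΛ0 hA0.le
  obtain ⟨D, hD0, hD⟩ := hMor (E n) (dq gb τ ψ) hPM δ hδ hseg (max C (Λ * A)) Λ
    (le_max_of_le_left hC0) hΛ0
  refine ⟨D, hD0, ?_⟩
  intro c hc e he hCal s u t hsu hut
  set b : ℝ := Real.sqrt (1 - e ^ 2) with hbdef
  have hb0 : 0 ≤ b := Real.sqrt_nonneg _
  have hb1 : b ≤ 1 := by
    rw [hbdef]
    exact Real.sqrt_le_iff.mpr ⟨by norm_num, by nlinarith [sq_nonneg e]⟩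
  have h1 : ∀ s t : ℝ, s ≤ t → dq gb τ ψ (c s) (c t) ≤ C * (b * (t - s)) :=
    fun s t hst => hL c hc e he hCal s t hst
  have h2 : ∀ s t : ℝ, s ≤ t → b * (t - s - Λ) ≤ (Λ * A) * dq gb τ ψ (c s) (c t) := by
    intro s t hst
    have a1 := hQ c hc e he hCal (τ (c s) - τ (c t)) s t hst
    have a2 := hA (c s) (ψ (τ (c s) - τ (c t)) (c t))
    have a3 : Λ * gd g (c s) (ψ (τ (c s) - τ (c t)) (c t)) ≤
        Λ * (A * gd gb (c s) (ψ (τ (c s) - τ (c t)) (c t))) :=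
      mul_le_mul_of_nonneg_left a2 hΛ0
    unfold dq
    rw [mul_assoc]
    exact a1.trans a3
  rcases hb0.eq_or_lt with hb | hb
  · have a1 := h1 s u hsu
    have a2 := h1 u t hut
    rw [← hb] at a1 a2
    have a3 := hPM.nonneg (c s) (c t)
    simp only [zero_mul, mul_zero] at a1 a2
    linarith
  · have hq := IDqM.qpath (dq gb τ ψ) hPM C (Λ * A) Λ b hb hb1 hK0 hΛ0 hC0 c h1 h2 (b * s) (b * t)
    have hst : b * s ≤ b * t := mul_le_mul_of_nonneg_left (hsu.trans hut) hb.le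
    have hfin := hD (fun σ => c (σ / b)) (b * s) (b * t) hst hq (b * u)
      ⟨mul_le_mul_of_nonneg_left hsu hb.le, mul_le_mul_of_nonneg_left hut hb.le⟩
    have e1 : ∀ x : ℝ, b * x / b = x := fun x => by
      rw [mul_comm, mul_div_assoc, div_self hb.ne', mul_one]
    simp only [e1] at hfin
    exact hfin

end Pool.Agent.CSG
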