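import Pool.Agent.Work.MP_13b5d9_gt.CS.Stmts

/-!
# MP_13b5d9_gt, block CS, item EfB: bounds of the first integral
-/

set_option autoImplicit false

open MeasureTheory Set Filter Topology
open scoped ContDiff ENNReal
open Pool.Agent.Work.MP_c9f990_an.Al (IsFlow)

namespace Pool.Agent.CSG

open Pool.Agent.MLS Pool.Agent.STR Pool.Agent.LQR Pool.Agent.PIN Pool.Agent.AV

theorem pr_EfB (hIni : CsIni) (hZp : CsZp) (hGd : StGd) : CsEfB := by
  intro n G _ _ g φ M hR hφ _ hM z l V τ ψ hax x v hv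
  obtain ⟨h1, h2⟩ := hIni n g φ M hR hφ
  obtain ⟨c, hc, hc0, hc1⟩ := h1 x v hv
  have h3 := (h2 c hc).1
  rw [hc0, hc1] at h3
  have hl := hax.pos
  obtain ⟨hz1, hz2⟩ := hZp n G g hM z l V τ ψ hax
  have hPM := (hGd n g).2.1
  have key : ∀ p : ℕ × ℝ × ℝ,
      abs (gd g (φ p.2.1 (x, op g x v)).1
        (z ^ (p.1 + 1) • (φ (p.2.1 + |p.2.2|) (x, op g x v)).1) - |p.2.2|) ≤
        ((p.1 : ℝ) + 1) * l := by
    rintro ⟨k, s, h⟩
    simp only [h3]
    have e1 : gd g (c s) (c (s + |h|)) = |h| := by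
      rw [hM c hc.geo hc.unit]
      rw [show s - (s + |h|) = -|h| by ring, abs_neg, abs_abs]
    have e2 : gd g (c (s + |h|)) (z ^ (k + 1) • c (s + |h|)) = ((k : ℝ) + 1) * l := by
      have h4 := hz1 ((k + 1 : ℕ) : ℤ) (c (s + |h|))
      rw [zpow_natCast] at h4
      rw [h4, hz2]
      push_cast
      rw [abs_of_nonneg (by positivity)]
    have t1 := hPM.tri (c s) (c (s + |h|)) (z ^ (k + 1) • c (s + |h|))
    have t2 := hPM.tri (c s) (z ^ (k + 1) • c (s + |h|)) (c (s + |h|))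
    have t3 := hPM.symm (z ^ (k + 1) • c (s + |h|)) (c (s + |h|))
    rw [abs_le]
    constructor <;> linarith
  have hpos : ∀ p : ℕ × ℝ × ℝ, 0 < ((p.1 : ℝ) + 1) * l := fun p => by positivity
  have hlow : ∀ p : ℕ × ℝ × ℝ, -1 ≤ (gd g (φ p.2.1 (x, op g x v)).1
      (z ^ (p.1 + 1) • (φ (p.2.1 + |p.2.2|) (x, op g x v)).1) - |p.2.2|) / ((p.1 + 1) * l) := by
    intro p
    rw [le_div_iff₀ (hpos p)]
    have := (abs_le.1 (key p)).1
    linarith
  refine ⟨hlow, le_ciInf hlow, ?_⟩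
  refine (ciInf_le ⟨-1, ?_⟩ ((0, 0, 0) : ℕ × ℝ × ℝ)).trans ?_
  · rintro _ ⟨p, rfl⟩
    exact hlow p
  · rw [div_le_iff₀ (hpos _)]
    have := (abs_le.1 (key ((0, 0, 0) : ℕ × ℝ × ℝ))).2
    linarith

end Pool.Agent.CSG
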