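import Pool.Agent.Work.MP_13b5d9_gt.CS.Stmts

set_option autoImplicit false

/-! Item EfC of the block CS: calibration. -/

open MeasureTheory Set Filter Topology
open scoped ContDiff ENNReal
open Pool.Agent.Work.MP_c9f990_an.Al (IsFlow)

namespace Pool.Agent.CSG

open Pool.Agent.MLS Pool.Agent.STR Pool.Agent.LQR Pool.Agent.PIN Pool.Agent.AV

theorem pr_EfC (hIni : CsIni) (hEfB : CsEfB) (hCr2 : CsCr2) : CsEfC := by
  intro n G _ _ hG g φ M hR hInv hF hNC hMz z l V τ ψ hAx hz c hc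
  obtain ⟨hphi, _⟩ := (hIni n g φ M hR hF).2 c hc
  obtain ⟨hlow, _, _⟩ := hEfB n G g φ M hR hF hNC hMz z l V τ ψ hAx (c 0) (deriv c 0) (hc.unit 0)
  have hl : 0 < l := hAx.pos
  have hc1 : ∀ t, (φ t (c 0, op g (c 0) (deriv c 0))).1 = c t := fun t => by rw [hphi t]
  have hbdd : BddBelow (range fun p : ℕ × ℝ × ℝ => (gd g (φ p.2.1 (c 0, op g (c 0) (deriv c 0))).1
      (z ^ (p.1 + 1) • (φ (p.2.1 + |p.2.2|) (c 0, op g (c 0) (deriv c 0))).1) - |p.2.2|) /
        ((p.1 + 1) * l)) := by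
    refine ⟨-1, ?_⟩
    rintro _ ⟨p, rfl⟩
    exact hlow p
  intro k s t hst
  have habs : |t - s| = t - s := abs_of_nonneg (by linarith)
  rcases k with (_ | j) | j
  · have h1 : gd g (c s) (c t) = t - s := by
      rw [hMz c hc.geo hc.unit s t, abs_sub_comm, habs]
    have h2 : z ^ (Int.ofNat 0) • c t = c t := by
      simp
    rw [h2, h1]
    simp
  · have h1 : ef g φ z l (c 0) (deriv c 0) ≤
        (gd g (φ s (c 0, op g (c 0) (deriv c 0))).1
      (z ^ (j + 1) • (φ (s + |t - s|) (c 0, op g (c 0) (deriv c 0))).1) - |t - s|) /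
        (((j : ℝ) + 1) * l) := ciInf_le hbdd (j, s, t - s)
    rw [hc1, hc1, habs, add_sub_cancel] at h1
    have hjl : 0 < ((j : ℝ) + 1) * l := by positivity
    rw [le_div_iff₀ hjl] at h1
    have h2 : z ^ (Int.ofNat (j + 1)) • c t = z ^ (j + 1) • c t := by
      rw [Int.ofNat_eq_natCast, zpow_natCast]
    rw [h2]
    have h3 : ((Int.ofNat (j + 1) : ℤ) : ℝ) = (j : ℝ) + 1 := by
      rw [Int.ofNat_eq_natCast]; push_cast; ring
    rw [h3]
    linarith
  · have hj0 : (0 : ℝ) < (j : ℝ) + 1 := by positivity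
    set B : ℝ := gd g (c s) ((z ^ (j + 1))⁻¹ • c t) - (t - s) with hB
    have h1 : -B / (((j : ℝ) + 1) * l) ≤ ef g φ z l (c 0) (deriv c 0) := by
      unfold ef
      refine le_ciInf fun p => ?_
      obtain ⟨i, s', h⟩ := p
      show -B / (((j : ℝ) + 1) * l) ≤ (gd g (φ s' (c 0, op g (c 0) (deriv c 0))).1
        (z ^ (i + 1) • (φ (s' + |h|) (c 0, op g (c 0) (deriv c 0))).1) - |h|) / (((i : ℝ) + 1) * l)
      rw [hc1, hc1]
      have h2 := hCr2 n G hG g hR hInv hNC z hz (j + 1) (i + 1) s' (s' + |h|) s t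
        (by linarith [abs_nonneg h]) hst c hc
      rw [add_sub_cancel_left] at h2
      push_cast at h2
      have hi0 : (0 : ℝ) < (i : ℝ) + 1 := by positivity
      rw [div_le_div_iff₀ (mul_pos hj0 hl) (mul_pos hi0 hl)]
      set A : ℝ := gd g (c s') (z ^ (i + 1) • c (s' + |h|)) - |h| with hA
      have h3 : 0 ≤ (((j : ℝ) + 1) * A + ((i : ℝ) + 1) * B) * l := mul_nonneg h2 hl.le
      linarith
    rw [div_le_iff₀ (mul_pos hj0 hl)] at h1
    have h2 : z ^ (Int.negSucc j) • c t = (z ^ (j + 1))⁻¹ • c t := by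
      rw [zpow_negSucc]
    rw [h2]
    have h3 : ((Int.negSucc j : ℤ) : ℝ) = -((j : ℝ) + 1) := by
      rw [Int.cast_negSucc]; push_cast; ring
    rw [h3]
    linarith

end Pool.Agent.CSG
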