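import Pool.Agent.Work.MP_13b5d9_gt.CS.Stmts

set_option autoImplicit false

/-!
# MP_13b5d9_gt, block CS, item EfI: invariance of the first integral
-/

open MeasureTheory Set Filter Topology
open scoped ContDiff ENNReal
open Pool.Agent.Work.MP_c9f990_an.Al (IsFlow)

namespace Pool.Agent.CSG

open Pool.Agent.MLS Pool.Agent.STR Pool.Agent.LQR Pool.Agent.PIN Pool.Agent.AV

namespace IEfI

/-- shift of the second component -/
def sft (t : ℝ) : ℕ × ℝ × ℝ ≃ ℕ × ℝ × ℝ where
  toFun p := (p.1, p.2.1 + t, p.2.2)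
  invFun p := (p.1, p.2.1 - t, p.2.2)
  left_inv p := by
    obtain ⟨k, s, h⟩ := p
    simp
  right_inv p := by
    obtain ⟨k, s, h⟩ := p
    simp

end IEfI

open IEfI in
theorem pr_EfI (hIni : CsIni) (hEqF : StEqF) (hInvD : StInvD) (hOp : StOp) : CsEfI := by
  intro n G _ _ hcc g hR hI φ M hφ z hz l
  obtain ⟨_, hG⟩ := hIni n g φ M hR hφ
  obtain ⟨_, _, hio, _, _, _, _, _, _⟩ := hOp n g hR
  refine ⟨?_, ?_⟩
  · intro c hc t
    obtain ⟨h1, _⟩ := hG c hc
    unfold ef
    refine Equiv.iInf_congr (sft t) ?_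
    rintro ⟨k, s, h⟩
    have e1 : ∀ r : ℝ, φ r (c t, op g (c t) (deriv c t)) =
        φ (r + t) (c 0, op g (c 0) (deriv c 0)) := by
      intro r
      rw [hφ.add, h1]
    have e2 : s + |h| + t = s + t + |h| := by ring
    simp only [sft, Equiv.coe_fn_mk, e1, e2]
  · intro a x v
    have e0 : (a • x, op g (a • x) (dac a x v)) = lft g a (x, op g x v) := by
      unfold lft
      simp only [hio]
    unfold ef
    refine iInf_congr ?_
    rintro ⟨k, s, h⟩
    have e1 : ∀ r : ℝ, (φ r (lft g a (x, op g x v))).1 = a • (φ r (x, op g x v)).1 := by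
      intro r
      rw [hEqF n G hcc g hR hI φ M hφ a r]
      rfl
    have e2 : ∀ y : E n, z ^ (k + 1) • a • y = a • z ^ (k + 1) • y := by
      intro y
      have hc : Commute a z := hz a
      rw [smul_smul, smul_smul, ((hc.pow_right (k + 1)).eq)]
    simp only [e0, e1]
    rw [e2, (hInvD n G hcc g hI).2]

end Pool.Agent.CSG
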