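import Pool.Agent.Work.MP_13b5d9_gt.CS.Stmts

set_option autoImplicit false

/-!
# MP_13b5d9_gt, item [CS EfU]: semicontinuity of the first integral
-/

open MeasureTheory Set Filter Topology
open scoped ContDiff ENNReal
open Pool.Agent.Work.MP_c9f990_an.Al (IsFlow)

namespace Pool.Agent.CSG

open Pool.Agent.MLS Pool.Agent.STR Pool.Agent.LQR Pool.Agent.AV

theorem pr_EfU (hC : StCtsD) (hO : StOp) (hB : CsEfB) : CsEfU := by
  intro n G _ _ hG g φ M hg hinv hφ hnc hmin z l V τ ψ hax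
  have hop : Continuous (op g) := (hO n g hg).2.2.2.2.2.1.continuous
  have hw : Continuous (fun q : E n × E n => ((q.1, op g q.1 q.2) : W n)) :=
    continuous_fst.prodMk ((hop.comp continuous_fst).clm_apply continuous_snd)
  have hφc : ∀ s : ℝ, Continuous (φ s) := fun s =>
    hφ.cont.comp (continuous_const.prodMk continuous_id)
  have hterm : ∀ p : ℕ × ℝ × ℝ, Continuous (fun q : E n × E n =>
      (gd g (φ p.2.1 (q.1, op g q.1 q.2)).1
        (z ^ (p.1 + 1) • (φ (p.2.1 + |p.2.2|) (q.1, op g q.1 q.2)).1) - |p.2.2|) /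
          ((p.1 + 1) * l)) := by
    intro p
    have h1 : Continuous (fun q : E n × E n => (φ p.2.1 (q.1, op g q.1 q.2)).1) :=
      continuous_fst.comp ((hφc _).comp hw)
    have h2 : Continuous (fun q : E n × E n => (φ (p.2.1 + |p.2.2|) (q.1, op g q.1 q.2)).1) :=
      continuous_fst.comp ((hφc _).comp hw)
    have h3 : Continuous (fun q : E n × E n =>
        z ^ (p.1 + 1) • (φ (p.2.1 + |p.2.2|) (q.1, op g q.1 q.2)).1) :=
      (hG.smooth (z ^ (p.1 + 1))).continuous.comp h2
    exact (((hC n g).comp (h1.prodMk h3)).sub continuous_const).div_const _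
  have hbdd : ∀ q ∈ {p : E n × E n | g.val p.1 p.2 p.2 = 1},
      BddBelow (Set.range fun p : ℕ × ℝ × ℝ => (gd g (φ p.2.1 (q.1, op g q.1 q.2)).1
        (z ^ (p.1 + 1) • (φ (p.2.1 + |p.2.2|) (q.1, op g q.1 q.2)).1) - |p.2.2|) /
          ((p.1 + 1) * l)) := by
    intro q hq
    refine ⟨-1, ?_⟩
    rintro _ ⟨p, rfl⟩
    exact (hB n G g φ M hg hφ hnc hmin z l V τ ψ hax q.1 q.2 hq).1 p
  exact upperSemicontinuousOn_ciInf hbdd
    (fun p => (hterm p).upperSemicontinuous.upperSemicontinuousOn _)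

end Pool.Agent.CSG
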