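import Pool.Agent.Work.MP_13b5d9_gt.CS.Stmts

/-!
# Item ExC: the excess
-/

set_option autoImplicit false

open MeasureTheory Set Filter Topology
open scoped ContDiff ENNReal
open Pool.Agent.Work.MP_c9f990_an.Al (IsFlow)

namespace Pool.Agent.CSG

open Pool.Agent.MLS Pool.Agent.STR Pool.Agent.LQR Pool.Agent.PIN Pool.Agent.AV

theorem pr_ExC (hCts : StCtsD) (hOp : StOp) (hL : StLftA) (hE : StEqF) (hI : StInvD)
    (hGeo : StGeo1) : CsExC := by
  intro n G _ _ hc g hg hi φ M hφ b hb s t
  have hHc : Continuous (Hm g) := (hOp n g hg).2.2.2.2.2.2.2.1.continuous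
  have hφc : ∀ r : ℝ, Continuous (φ r) := fun r =>
    hφ.cont.comp (continuous_const.prodMk continuous_id)
  refine ⟨?_, ?_, ?_⟩
  · have h1 : Continuous fun w : W n => gd g (φ s w).1 (b • (φ t w).1) :=
      (hCts n g).comp ((continuous_fst.comp (hφc s)).prodMk
        ((hc.smooth b).continuous.comp (continuous_fst.comp (hφc t))))
    have h2 : Continuous fun w : W n => Real.sqrt (2 * Hm g w) * (t - s) :=
      (Real.continuous_sqrt.comp (continuous_const.mul hHc)).mul continuous_const
    exact h1.sub h2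
  · intro a w
    unfold exc
    rw [hE n G hc g hg hi φ M hφ a s w, hE n G hc g hg hi φ M hφ a t w,
      (hL n G hc g hg hi).2.1 a w]
    have h1 : (lft g a (φ s w)).1 = a • (φ s w).1 := rfl
    have h2 : (lft g a (φ t w)).1 = a • (φ t w).1 := rfl
    rw [h1, h2, ← mul_smul, ← hb a, mul_smul, (hI n G hc g hi).2]
  · intro T w
    unfold exc
    have h3 := (hGeo n g hg (fun τ => φ τ w) (fun τ => hφ.ode w τ)).2.2 T
    have h4 : Hm g (φ T w) = Hm g w := by
      rw [h3, hφ.zero]
    rw [h4, ← hφ.add, ← hφ.add, add_comm s T, add_comm t T]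
    congr 2
    ring

end Pool.Agent.CSG
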