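import Pool.Agent.Work.MP_13b5d9_gt.CS.Stmts

/-!
# Item Ini: geodesics and phase space
-/

set_option autoImplicit false

open MeasureTheory Set Filter Topology
open scoped ContDiff ENNReal
open Pool.Agent.Work.MP_c9f990_an.Al (IsFlow)

namespace Pool.Agent.CSG

open Pool.Agent.MLS Pool.Agent.STR Pool.Agent.LQR Pool.Agent.PIN Pool.Agent.AV

theorem pr_Ini (hGeo : StGeo1) (hOp : StOp) (hGx : NcGx) : CsIni := by
  intro n g φ M hg hφ
  have hvel : ∀ x v : E n, vel g (x, op g x v) = v := fun x v => (hOp n g hg).2.2.1 x v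
  have hHm : ∀ z, Hm g z = 1 / 2 * g.val z.1 (vel g z) (vel g z) :=
    (hOp n g hg).2.2.2.2.2.2.2.2
  refine ⟨?_, ?_⟩
  · intro x v hv
    obtain ⟨h1, h2, h3⟩ := hGeo n g hg (fun τ => φ τ (x, op g x v))
      (fun τ => hφ.ode (x, op g x v) τ)
    refine ⟨fun t => (φ t (x, op g x v)).1, ⟨h1, ?_⟩, ?_, ?_⟩
    · intro t
      have h4 := hHm (φ t (x, op g x v))
      rw [h3 t, hφ.zero, hHm (x, op g x v), hvel] at h4
      rw [h2 t]
      show g.val (φ t (x, op g x v)).1 _ _ = 1
      have h5 : g.val (x, op g x v).1 v v = 1 := hv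
      rw [h5] at h4
      linarith
    · show (φ 0 (x, op g x v)).1 = x
      rw [hφ.zero]
    · rw [h2 0]
      show vel g (φ 0 (x, op g x v)) = v
      rw [hφ.zero]
      exact hvel x v
  · intro c hc
    refine ⟨?_, ?_⟩
    · intro t
      have h1 := (hGx n g φ M hg hφ c hc.geo 0 t).1
      rw [sub_zero] at h1
      exact h1.symm
    · intro t
      rw [hHm, hvel]
      show 1 / 2 * g.val (c t) (deriv c t) (deriv c t) = 1 / 2
      rw [hc.unit t, mul_one]

end Pool.Agent.CSG
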