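import Pool.Agent.Work.MP_13b5d9_gt.CS.Stmts

set_option autoImplicit false

/-!
# MP_13b5d9_gt, block CS, item LoE: lower bound of `e` (helper37)
-/

open MeasureTheory Set Filter Topology
open scoped ContDiff ENNReal
open Pool.Agent.Work.MP_c9f990_an.Al (IsFlow)

namespace Pool.Agent.CSG

open Pool.Agent.MLS Pool.Agent.STR Pool.Agent.LQR Pool.Agent.PIN Pool.Agent.AV

namespace ILoE

/-- The elementary inequality. -/
theorem sqrt_le (C a : ℝ) (ha : |a| ≤ 1) :
    Real.sqrt ((a + -(1 / 2)) ^ 2 + C ^ 2 * (1 - a ^ 2)) ≤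
      1 / 2 + (2 * C ^ 2 + 2) * (1 - a) := by
  obtain ⟨h1, h2⟩ := abs_le.1 ha
  have hC := sq_nonneg C
  obtain ⟨D, hD⟩ : ∃ D, D = C ^ 2 := ⟨_, rfl⟩
  rw [← hD] at hC ⊢
  obtain ⟨y, hy⟩ : ∃ y, y = 1 - a := ⟨_, rfl⟩
  have hy0 : 0 ≤ y := by rw [hy]; linarith
  have ha' : a = 1 - y := by rw [hy]; ring
  rw [← hy]
  have hDy : 0 ≤ D * y := mul_nonneg hC hy0
  refine Real.sqrt_le_iff.2 ⟨by nlinarith, ?_⟩
  rw [ha']
  nlinarith [mul_nonneg hC (mul_nonneg hy0 hy0), mul_nonneg hy0 hy0,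
    mul_nonneg (mul_nonneg hC hC) (mul_nonneg hy0 hy0)]

/-- The inverse. -/
theorem psi_neg {n : ℕ} {G : Type} [Group G] [MulAction G (E n)] {g : Form n} {z : G} {l : ℝ}
    {V : E n → E n} {τ : E n → ℝ} {ψ : ℝ → E n → E n} (hA : Axis n G g z l V τ ψ) (x : E n) :
    ψ (-l) x = z⁻¹ • x := by
  have h := hA.add l (-l) x
  rw [add_neg_cancel, hA.zero, hA.period] at h
  rw [eq_inv_smul_iff]
  exact h.symm

end ILoE

/-- [LoE] lower bound of `e` -/
theorem pr_LoE (hAng : CsAng) (hDps : CsDps) (hTwi : CsTwi) : CsLoE := by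
  intro n G _ _ hco g hR hI z l V τ ψ hA
  obtain ⟨K, hK, hang⟩ := hAng n G hco g hR hI z l V τ ψ hA
  obtain ⟨C, hC1, hC⟩ := hDps n G hco g hR hI z l V τ ψ hA
  have hl := hA.pos
  have hM : 0 < 2 * C ^ 2 + 2 := by
    have := sq_nonneg C
    linarith
  refine ⟨2 * ((2 * C ^ 2 + 2) * Real.exp (K * (2 * l))), by positivity,
    fun c hU e hcal t => ?_⟩
  obtain ⟨ac, ab, -, aexp⟩ := hang c hU
  have hst : t ≤ t + 2 * l := by linarith
  have h1 := hTwi n G g z l V τ ψ hA C hC c hU (-(1 / 2)) (t / 2) t (t + 2 * l) hst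
  have e1 : -(1 / 2) * t + t / 2 = 0 := by ring
  have e2 : -(1 / 2) * (t + 2 * l) + t / 2 = -l := by ring
  rw [e1, e2, hA.zero, ILoE.psi_neg hA] at h1
  have ht0 : 0 ≤ 1 - ang g V c t := by linarith [(abs_le.1 (ab t)).2]
  have hexp : ∀ u ∈ Icc t (t + 2 * l),
      1 - ang g V c u ≤ Real.exp (K * (2 * l)) * (1 - ang g V c t) := by
    intro u hu
    have h2 := aexp t u
    have h3 : |u - t| ≤ 2 * l := abs_le.2 ⟨by linarith [hu.1], by linarith [hu.2]⟩
    have h5 : Real.exp (K * |u - t|) ≤ Real.exp (K * (2 * l)) :=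
      Real.exp_le_exp.2 (mul_le_mul_of_nonneg_left h3 hK)
    exact h2.trans (mul_le_mul_of_nonneg_right h5 ht0)
  have hcont : Continuous fun u => Real.sqrt ((ang g V c u + -(1 / 2)) ^ 2 +
      C ^ 2 * (1 - ang g V c u ^ 2)) :=
    Real.continuous_sqrt.comp (((ac.add continuous_const).pow 2).add
      (continuous_const.mul (continuous_const.sub (ac.pow 2))))
  have h8 : ∫ u in t..(t + 2 * l), Real.sqrt ((ang g V c u + -(1 / 2)) ^ 2 +
      C ^ 2 * (1 - ang g V c u ^ 2)) ≤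
      ∫ _u in t..(t + 2 * l),
        (1 / 2 + (2 * C ^ 2 + 2) * (Real.exp (K * (2 * l)) * (1 - ang g V c t))) := by
    refine intervalIntegral.integral_mono_on hst (hcont.intervalIntegrable _ _)
      (continuous_const.intervalIntegrable _ _) fun u hu => ?_
    have h9 := ILoE.sqrt_le C (ang g V c u) (ab u)
    have h10 := mul_le_mul_of_nonneg_left (hexp u hu) hM.le
    linarith
  rw [intervalIntegral.integral_const, smul_eq_mul] at h8
  have h11 := hcal (-1) t (t + 2 * l) hst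
  rw [zpow_neg_one, Int.cast_neg, Int.cast_one] at h11
  have h13 := h11.trans (h1.trans h8)
  have h14 : l * (1 - e) ≤
      l * (2 * ((2 * C ^ 2 + 2) * Real.exp (K * (2 * l))) * (1 - ang g V c t)) := by
    have e3 : (t + 2 * l - t) *
        (1 / 2 + (2 * C ^ 2 + 2) * (Real.exp (K * (2 * l)) * (1 - ang g V c t))) =
        l + l * (2 * ((2 * C ^ 2 + 2) * Real.exp (K * (2 * l))) * (1 - ang g V c t)) := by ring
    rw [e3] at h13
    linarith
  exact le_of_mul_le_mul_left h14 hl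

end Pool.Agent.CSG
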