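import Pool.Agent.Work.MP_13b5d9_gt.CS.I_MIn

set_option autoImplicit false

/-!
# MP_13b5d9_gt, block CS, item MChn: chains in a hyperbolic space
-/

open MeasureTheory Set Filter Topology

namespace Pool.Agent.CSG

open Pool.Agent.MLS Pool.Agent.LQR

theorem pr_MChn : CsMChn := by
  intro X d hpm δ hδ w m k
  induction k with
  | zero =>
    intro x hx
    have := hx 0 (by norm_num)
    simpa using this
  | succ k ih =>
    intro x hx
    have h1 := ih x (fun i hi => hx i (by rw [pow_succ]; omega))
    have h2 := ih (fun i => x (2 ^ k + i)) (fun i hi => hx (2 ^ k + i) (by rw [pow_succ]; omega))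
    have h3 := IMIn.gp_min hpm hδ w (x 0) (x (2 ^ (k + 1))) (x (2 ^ k))
    have h4 : (2 : ℕ) ^ k + 2 ^ k = 2 ^ (k + 1) := by rw [pow_succ]; ring
    simp only [add_zero] at h2
    rw [h4] at h2
    have h5 := le_min h1 h2
    push_cast
    linarith

end Pool.Agent.CSG
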