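import Pool.Agent.Work.MP_13b5d9_gt.CS.StmtsM

set_option autoImplicit false

/-!
# MP_13b5d9_gt, block CS, item MDiv: exponential divergence
-/

namespace Pool.Agent.CSG

open Set Pool.Agent.MLS

theorem pr_MDiv (hChn : CsMChn) : CsMDiv := by
  intro X d hd δ hδ w A R k p s t hst hA hp hk hR
  have h2 : (0 : ℝ) < 2 ^ k := by positivity
  obtain ⟨x, hx⟩ : ∃ x : ℕ → ℝ, ∀ i, x i = s + (t - s) * (i / 2 ^ k) := ⟨_, fun _ => rfl⟩
  have hmem : ∀ i : ℕ, i ≤ 2 ^ k → x i ∈ Icc s t := by
    intro i hi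
    have h3 : (i : ℝ) / 2 ^ k ≤ 1 := by
      rw [div_le_one h2]
      exact_mod_cast hi
    have h4 : (0 : ℝ) ≤ (i : ℝ) / 2 ^ k := by positivity
    rw [hx]
    constructor
    · nlinarith
    · nlinarith
  have h := hChn X d hd δ hδ w (R - 1 / 2) k (fun i => p (x i)) (by
    intro i hi
    have h3 := hmem i hi.le
    have h4 := hmem (i + 1) hi
    have h5 := hp _ h3 _ h4
    have h6 : |x i - x (i + 1)| = (t - s) / 2 ^ k := by
      have e : x i - x (i + 1) = -((t - s) / 2 ^ k) := by
        rw [hx, hx]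
        push_cast
        ring
      rw [e, abs_neg, abs_of_nonneg (div_nonneg (by linarith) h2.le)]
    rw [h6] at h5
    have h7 : A * ((t - s) / 2 ^ k) ≤ 1 := by
      rw [← mul_div_assoc, div_le_one h2]
      exact hk
    have h8 := hR _ h3
    have h9 := hR _ h4
    unfold gp
    linarith)
  have e0 : x 0 = s := by
    rw [hx]
    simp
  have e1 : x (2 ^ k) = t := by
    rw [hx]
    push_cast
    rw [div_self h2.ne']
    ring
  simp only [e0, e1] at h
  linarith

end Pool.Agent.CSG
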