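import Pool.Agent.Work.MP_13b5d9_gt.CS.StmtsM

set_option autoImplicit false

/-!
# MP_13b5d9_gt, block CS, item MIn: the geodesic is near the path
-/

open MeasureTheory Set Filter Topology
open scoped ContDiff ENNReal

namespace Pool.Agent.CSG

open Pool.Agent.MLS

namespace IMIn

variable {X : Type} {d : X → X → ℝ}

theorem gp_min {δ : ℝ} (hpm : IsPM d) (hδ : Hyp4 d δ) (w x y z : X) :
    min (gp d w x z) (gp d w z y) - δ / 2 ≤ gp d w x y := by
  have h := hδ x y z w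
  unfold gp
  rcases le_total (d x z + d y w) (d x w + d y z) with h1 | h1
  · rw [max_eq_right h1] at h
    have h2 := min_le_right ((d x w + d z w - d x z) / 2) ((d z w + d y w - d z y) / 2)
    rw [hpm.symm z y] at h2 ⊢
    linarith
  · rw [max_eq_left h1] at h
    have h2 := min_le_left ((d x w + d z w - d x z) / 2) ((d z w + d y w - d z y) / 2)
    linarith

/-- exponentials beat linear functions -/
theorem growth (a b : ℝ) : ∃ K : ℕ, ∀ k : ℕ, K ≤ k → a * k + b ≤ 2 ^ k := by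
  have h1 : Tendsto (fun k : ℕ => (k : ℝ) ^ 1 / (2 : ℝ) ^ k) atTop (𝓝 0) :=
    tendsto_pow_const_div_const_pow_of_one_lt 1 (by norm_num)
  have h2 : Tendsto (fun k : ℕ => (k : ℝ) ^ 0 / (2 : ℝ) ^ k) atTop (𝓝 0) :=
    tendsto_pow_const_div_const_pow_of_one_lt 0 (by norm_num)
  have h3 : Tendsto (fun k : ℕ => a * ((k : ℝ) ^ 1 / (2 : ℝ) ^ k) +
      b * ((k : ℝ) ^ 0 / (2 : ℝ) ^ k)) atTop (𝓝 (a * 0 + b * 0)) :=
    (h1.const_mul a).add (h2.const_mul b)
  have h4 : ∀ᶠ k : ℕ in atTop, a * ((k : ℝ) ^ 1 / (2 : ℝ) ^ k) +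
      b * ((k : ℝ) ^ 0 / (2 : ℝ) ^ k) < 1 :=
    h3.eventually_lt_const (by simp)
  obtain ⟨K, hK⟩ := eventually_atTop.1 h4
  refine ⟨K, fun k hk => ?_⟩
  have h5 := hK k hk
  have h6 : (0 : ℝ) < 2 ^ k := by positivity
  have h7 : a * ((k : ℝ) ^ 1 / (2 : ℝ) ^ k) + b * ((k : ℝ) ^ 0 / (2 : ℝ) ^ k) =
      (a * k + b) / 2 ^ k := by
    field_simp
  rw [h7, div_lt_one h6] at h5
  exact h5.le

end IMIn

open IMIn in
theorem pr_MIn (hDiv : CsMDiv) : CsMIn := by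
  intro X d hpm δ₀ hδ₀ A B hA hB
  rcases isEmpty_or_nonempty X with hX | ⟨⟨x₀⟩⟩
  · exact ⟨0, le_rfl, fun p => (hX.false (p 0)).elim⟩
  obtain ⟨δ, hδ1, hδ⟩ : ∃ δ : ℝ, 1 ≤ δ ∧ Hyp4 d δ :=
    ⟨max δ₀ 1, le_max_right _ _, fun x y z w => (hδ₀ x y z w).trans
      (by linarith [le_max_left δ₀ 1])⟩
  -- the numbers
  obtain ⟨K, hK⟩ := growth (3 * A * A * δ) (A * (6 * A * ((1 + δ + (δ + 1) / 2) + 1) + B))
  have hK' : ∀ k : ℕ, K ≤ k →
      A * (6 * A * ((1 + δ + ((k + 1) * δ + 1) / 2) + 1) + B) ≤ 2 ^ k := fun k hk => by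
    refine le_trans (le_of_eq ?_) (hK k hk)
    ring
  refine ⟨1 + δ + (K * δ + 1) / 2 + 1, by positivity, ?_⟩
  intro p s t hst hp β hβ
  obtain ⟨hβ0, hβ1, hβ2⟩ := hβ
  obtain ⟨L, hL⟩ : ∃ L, L = d (p s) (p t) := ⟨_, rfl⟩
  rw [← hL] at hβ2
  have hL0 : 0 ≤ L := by rw [hL]; exact hpm.nonneg _ _
  obtain ⟨S, hS⟩ : ∃ S : Set ℝ, S = {r : ℝ | 0 ≤ r ∧ ∃ v ∈ Icc (0 : ℝ) 1,
    ∀ u ∈ Icc s t, r ≤ d (β v) (p u)} := ⟨_, rfl⟩
  have hSm : ∀ r, r ∈ S ↔ 0 ≤ r ∧ ∃ v ∈ Icc (0 : ℝ) 1, ∀ u ∈ Icc s t, r ≤ d (β v) (p u) :=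
    fun r => by rw [hS]; exact Iff.rfl
  have hS0 : (0 : ℝ) ∈ S := (hSm 0).2 ⟨le_rfl, 0, by simp, fun u _ => hpm.nonneg _ _⟩
  have hSb : BddAbove S := by
    refine ⟨L, fun r hr => ?_⟩
    obtain ⟨_, v, hv, h⟩ := (hSm r).1 hr
    have h1 := h s (left_mem_Icc.2 hst)
    rw [← hβ0, hβ2 v hv 0 (by simp), sub_zero, abs_of_nonneg hv.1] at h1
    nlinarith [hv.2]
  obtain ⟨R, hR⟩ : ∃ R, R = sSup S := ⟨_, rfl⟩
  have hR0 : 0 ≤ R := by rw [hR]; exact le_csSup hSb hS0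
  have hnear : ∀ v ∈ Icc (0 : ℝ) 1, ∃ u ∈ Icc s t, d (β v) (p u) < R + 1 := fun v hv => by
    by_contra hcon
    push Not at hcon
    have h1 : R + 1 ∈ S := (hSm _).2 ⟨by linarith, v, hv, hcon⟩
    have h2 := le_csSup hSb h1
    rw [← hR] at h2
    linarith
  obtain ⟨r, hrS, hrR⟩ := exists_lt_of_lt_csSup ⟨0, hS0⟩ (by rw [← hR]; linarith : R - 1 < sSup S)
  obtain ⟨-, v, hv, hfar'⟩ := (hSm r).1 hrS
  have hfar : ∀ u ∈ Icc s t, R - 1 ≤ d (p u) (β v) := fun u hu => by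
    rw [hpm.symm]
    linarith [hfar' u hu]
  -- left
  obtain ⟨v', u₁, hv'0, hv'v, hu₁, hl1, hl2, hl3⟩ : ∃ v' u₁ : ℝ, 0 ≤ v' ∧ v' ≤ v ∧ u₁ ∈ Icc s t ∧
      d (β v') (β v) ≤ 2 * (R + 1) ∧ d (β v') (p u₁) ≤ R + 1 ∧
      R - 1 ≤ gp d (β v) (β v') (p u₁) := by
    by_cases hc : v * L ≤ 2 * (R + 1)
    · refine ⟨0, s, le_rfl, hv.1, left_mem_Icc.2 hst, ?_, ?_, ?_⟩
      · rw [hβ2 0 (by simp) v hv, zero_sub, abs_neg, abs_of_nonneg hv.1]
        exact hc
      · rw [hβ0, hpm.self]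
        linarith
      · unfold gp
        rw [hβ0, hpm.self]
        have := hfar s (left_mem_Icc.2 hst)
        linarith
    · push Not at hc
      have hLpos : 0 < L := by
        rcases hL0.lt_or_eq with h | h
        · exact h
        · rw [← h, mul_zero] at hc
          linarith
      have h1 : 0 ≤ v - 2 * (R + 1) / L := by
        rw [sub_nonneg, div_le_iff₀ hLpos]
        exact hc.le
      have h2 : 0 ≤ 2 * (R + 1) / L := by positivity
      have hv'm : v - 2 * (R + 1) / L ∈ Icc (0 : ℝ) 1 := ⟨h1, by linarith [hv.2]⟩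
      obtain ⟨u₁, hu₁, hd⟩ := hnear _ hv'm
      have h3 : d (β (v - 2 * (R + 1) / L)) (β v) = 2 * (R + 1) := by
        rw [hβ2 _ hv'm v hv]
        have : v - 2 * (R + 1) / L - v = -(2 * (R + 1) / L) := by ring
        rw [this, abs_neg, abs_of_nonneg h2]
        field_simp
      refine ⟨_, u₁, h1, by linarith, hu₁, h3.le, hd.le, ?_⟩
      have h4 := hpm.tri (β (v - 2 * (R + 1) / L)) (p u₁) (β v)
      unfold gp
      rw [h3] at h4 ⊢
      linarith
  -- right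
  obtain ⟨v'', u₂, hv''1, hvv'', hu₂, hr1, hr2, hr3⟩ : ∃ v'' u₂ : ℝ, v'' ≤ 1 ∧ v ≤ v'' ∧
      u₂ ∈ Icc s t ∧ d (β v'') (β v) ≤ 2 * (R + 1) ∧ d (β v'') (p u₂) ≤ R + 1 ∧
      R - 1 ≤ gp d (β v) (p u₂) (β v'') := by
    by_cases hc : (1 - v) * L ≤ 2 * (R + 1)
    · refine ⟨1, t, le_rfl, hv.2, right_mem_Icc.2 hst, ?_, ?_, ?_⟩
      · rw [hβ2 1 (by simp) v hv, abs_of_nonneg (by linarith [hv.2])]
        exact hc
      · rw [hβ1]
        linarith
      · unfold gp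
        have h1 := hfar t (right_mem_Icc.2 hst)
        have h2 := hpm.tri (p t) (β 1) (β v)
        rw [hpm.symm (p t) (β 1), hβ1] at h2
        rw [hpm.symm (p t) (β 1), hβ1]
        linarith
    · push Not at hc
      have hLpos : 0 < L := by
        rcases hL0.lt_or_eq with h | h
        · exact h
        · rw [← h, mul_zero] at hc
          linarith
      have h1 : v + 2 * (R + 1) / L ≤ 1 := by
        have : 2 * (R + 1) / L ≤ 1 - v := by
          rw [div_le_iff₀ hLpos]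
          exact hc.le
        linarith
      have h2 : 0 ≤ 2 * (R + 1) / L := by positivity
      have hv'm : v + 2 * (R + 1) / L ∈ Icc (0 : ℝ) 1 := ⟨by linarith [hv.1], h1⟩
      obtain ⟨u₂, hu₂, hd⟩ := hnear _ hv'm
      have h3 : d (β (v + 2 * (R + 1) / L)) (β v) = 2 * (R + 1) := by
        rw [hβ2 _ hv'm v hv]
        have : v + 2 * (R + 1) / L - v = 2 * (R + 1) / L := by ring
        rw [this, abs_of_nonneg h2]
        field_simp
      refine ⟨_, u₂, h1, by linarith, hu₂, h3.le, hd.le, ?_⟩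
      have h4 := hpm.tri (β (v + 2 * (R + 1) / L)) (p u₂) (β v)
      unfold gp
      rw [h3] at h4 ⊢
      rw [hpm.symm (p u₂) (β (v + 2 * (R + 1) / L))]
      linarith
  have hv'1 : v' ∈ Icc (0 : ℝ) 1 := ⟨hv'0, by linarith [hv.2]⟩
  have hv''0 : v'' ∈ Icc (0 : ℝ) 1 := ⟨by linarith [hv.1], hv''1⟩
  have hgp0 : gp d (β v) (β v') (β v'') = 0 := by
    unfold gp
    rw [hβ2 v' hv'1 v hv, hβ2 v'' hv''0 v hv, hβ2 v' hv'1 v'' hv''0,
      abs_of_nonpos (by linarith), abs_of_nonneg (by linarith), abs_of_nonpos (by linarith)]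
    ring
  have hdu : d (p u₁) (p u₂) ≤ 6 * (R + 1) := by
    have h1 := hpm.tri (p u₁) (β v') (p u₂)
    have h2 := hpm.tri (β v') (β v) (p u₂)
    have h3 := hpm.tri (β v) (β v'') (p u₂)
    rw [hpm.symm (p u₁) (β v')] at h1
    rw [hpm.symm (β v) (β v'')] at h3
    linarith
  have htime : |u₁ - u₂| ≤ 6 * A * (R + 1) + B := by
    have h1 := (hp u₁ hu₁ u₂ hu₂).2
    nlinarith [mul_le_mul_of_nonneg_left hdu hA]
  have hmain : ∀ k : ℕ, A * (6 * A * (R + 1) + B) ≤ 2 ^ k → R ≤ 1 + δ + (k * δ + 1) / 2 := by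
    intro k hk
    have hlip : ∀ a b : ℝ, Icc a b ⊆ Icc s t → ∀ u ∈ Icc a b, ∀ v ∈ Icc a b,
        d (p u) (p v) ≤ A * |u - v| := fun a b hab u hu v hv => (hp u (hab hu) v (hab hv)).1
    have h12 : R - 1 - (k * δ + 1) / 2 ≤ gp d (β v) (p u₁) (p u₂) := by
      rcases le_total u₁ u₂ with h | h
      · refine hDiv X d hpm δ hδ (β v) A (R - 1) k p u₁ u₂ h hA
          (hlip _ _ (Icc_subset_Icc hu₁.1 hu₂.2)) ?_
          (fun u hu => hfar u (Icc_subset_Icc hu₁.1 hu₂.2 hu))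
        rw [abs_of_nonpos (by linarith)] at htime
        refine le_trans (mul_le_mul_of_nonneg_left ?_ hA) hk
        linarith
      · have h1 := hDiv X d hpm δ hδ (β v) A (R - 1) k p u₂ u₁ h hA
          (hlip _ _ (Icc_subset_Icc hu₂.1 hu₁.2)) (by
            rw [abs_of_nonneg (by linarith)] at htime
            refine le_trans (mul_le_mul_of_nonneg_left ?_ hA) hk
            linarith)
          (fun u hu => hfar u (Icc_subset_Icc hu₂.1 hu₁.2 hu))
        have h2 : gp d (β v) (p u₁) (p u₂) = gp d (β v) (p u₂) (p u₁) := by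
          unfold gp
          rw [hpm.symm (p u₁) (p u₂)]
          ring
        rw [h2]
        exact h1
    have g1 := gp_min hpm hδ (β v) (p u₁) (β v'') (p u₂)
    have g2 := gp_min hpm hδ (β v) (β v') (β v'') (p u₁)
    rw [hgp0] at g2
    have hk0 : 0 ≤ ((k : ℝ) * δ + 1) / 2 := by positivity
    have g3 : R - 1 - (k * δ + 1) / 2 ≤
        min (gp d (β v) (p u₁) (p u₂)) (gp d (β v) (p u₂) (β v'')) :=
      le_min h12 (by linarith)
    have g4 : R - 1 - (k * δ + 1) / 2 - δ / 2 ≤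
        min (gp d (β v) (β v') (p u₁)) (gp d (β v) (p u₁) (β v'')) :=
      le_min (by linarith) (by linarith)
    linarith
  have hRK : R ≤ 1 + δ + (K * δ + 1) / 2 := by
    by_contra hcon
    push Not at hcon
    have hex : ∃ j : ℕ, R ≤ 1 + δ + ((K + j : ℕ) * δ + 1) / 2 := by
      obtain ⟨j, hj⟩ := exists_nat_ge (2 * R)
      refine ⟨j, ?_⟩
      push_cast
      nlinarith [mul_nonneg (Nat.cast_nonneg (α := ℝ) K) (by linarith : (0 : ℝ) ≤ δ),
        mul_le_mul_of_nonneg_left hδ1 (Nat.cast_nonneg (α := ℝ) j)]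
    obtain ⟨j, hj, hmin⟩ : ∃ j : ℕ, R ≤ 1 + δ + ((K + (j + 1) : ℕ) * δ + 1) / 2 ∧
        1 + δ + ((K + j : ℕ) * δ + 1) / 2 < R := by
      classical
      have h0 : Nat.find hex ≠ 0 := fun h => by
        have := Nat.find_spec hex
        rw [h] at this
        simp only [add_zero] at this
        linarith
      obtain ⟨j, hj⟩ := Nat.exists_eq_succ_of_ne_zero h0
      refine ⟨j, ?_, ?_⟩
      · have := Nat.find_spec hex
        rw [hj] at this
        exact this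
      · have := Nat.find_min hex (m := j) (by omega)
        push Not at this
        exact this
    have h1 := hK' (K + j) (by omega)
    have h2 : A * (6 * A * (R + 1) + B) ≤ 2 ^ (K + j) := by
      refine le_trans ?_ h1
      refine mul_le_mul_of_nonneg_left ?_ hA
      have h3 : R + 1 ≤ 1 + δ + (((K + j : ℕ) + 1) * δ + 1) / 2 + 1 := by
        push_cast at hj ⊢
        linarith
      have h4 : 0 ≤ 6 * A := by positivity
      linarith [mul_le_mul_of_nonneg_left h3 h4]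
    have h3 := hmain (K + j) h2
    linarith
  intro v₀ hv₀
  obtain ⟨u, hu, hd⟩ := hnear v₀ hv₀
  exact ⟨u, hu, by linarith⟩

end Pool.Agent.CSG
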