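import Pool.Agent.Work.MP_13b5d9_gt.CS.StmtsM

set_option autoImplicit false

/-!
# MP_13b5d9_gt, block CS, item Mor: the Morse lemma
-/

namespace Pool.Agent.CSG

open Set Pool.Agent.MLS

theorem pr_Mor (hMIn : CsMIn) : CsMor := by
  classical
  intro X d hd δ hδ hseg A B hA hB
  obtain ⟨D₀, hD₀, hin⟩ := hMIn X d hd δ hδ A B hA hB
  obtain ⟨H, hH⟩ : ∃ H : ℝ, H = A * (2 * D₀ + 1) + B := ⟨_, rfl⟩
  obtain ⟨D₁, hD₁⟩ : ∃ D₁ : ℝ, D₁ = A * H + D₀ := ⟨_, rfl⟩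
  have hH0 : 0 ≤ H := by rw [hH]; positivity
  have hD₁0 : 0 ≤ D₁ := by rw [hD₁]; positivity
  refine ⟨2 * D₁, by linarith, ?_⟩
  intro p s t hst hq u₀ hu₀
  obtain ⟨β, hβ⟩ := hseg (p s) (p t)
  obtain ⟨hβ0, hβ1, hβd⟩ := hβ
  obtain ⟨L, hL⟩ : ∃ L : ℝ, L = d (p s) (p t) := ⟨_, rfl⟩
  have hL0 : 0 ≤ L := by rw [hL]; exact hd.nonneg _ _
  obtain ⟨N, hN1, hN⟩ : ∃ N : ℕ, 1 ≤ N ∧ L ≤ N := by
    refine ⟨⌈L⌉₊ + 1, by omega, ?_⟩
    push_cast
    linarith [Nat.le_ceil L]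
  have hN0 : (0 : ℝ) < N := by exact_mod_cast hN1
  have hv : ∀ i : ℕ, i ≤ N → ((i : ℝ) / N) ∈ Icc (0 : ℝ) 1 := by
    intro i hi
    refine ⟨by positivity, ?_⟩
    rw [div_le_one hN0]
    exact_mod_cast hi
  have hex : ∀ i : ℕ, ∃ u : ℝ, i ≤ N → (u ∈ Icc s t ∧ d (β ((i : ℝ) / N)) (p u) ≤ D₀ ∧
      (i = 0 → u = s) ∧ (i = N → u = t)) := by
    intro i
    by_cases hi : i ≤ N
    · by_cases h0 : i = 0
      · refine ⟨s, fun _ => ⟨⟨le_rfl, hst⟩, ?_, fun _ => rfl, fun h => ?_⟩⟩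
        · rw [h0, Nat.cast_zero, zero_div, hβ0, hd.self]
          exact hD₀
        · omega
      · by_cases h1 : i = N
        · refine ⟨t, fun _ => ⟨⟨hst, le_rfl⟩, ?_, fun h => absurd h h0, fun _ => rfl⟩⟩
          rw [h1, div_self hN0.ne', hβ1]
          exact hD₀
        · obtain ⟨u, hu, hu'⟩ := hin p s t hst hq β ⟨hβ0, hβ1, hβd⟩ _ (hv i hi)
          exact ⟨u, fun _ => ⟨hu, hu', fun h => absurd h h0, fun h => absurd h h1⟩⟩
    · exact ⟨0, fun h => absurd h hi⟩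
  choose U hU using hex
  have hexj : ∃ j : ℕ, j ≤ N ∧ u₀ ≤ U j := by
    refine ⟨N, le_rfl, ?_⟩
    rw [(hU N le_rfl).2.2.2 rfl]
    exact hu₀.2
  have hj := Nat.find_spec hexj
  have hmin := fun m => @Nat.find_min _ _ hexj m
  obtain ⟨j, hjd⟩ : ∃ j, j = Nat.find hexj := ⟨_, rfl⟩
  rw [← hjd] at hj
  simp only [← hjd] at hmin
  rcases Nat.eq_zero_or_pos j with hj0 | hj0
  · have h1 : u₀ = s := by
      have h2 := hj.2
      rw [hj0, (hU 0 (Nat.zero_le _)).2.2.1 rfl] at h2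
      exact le_antisymm h2 hu₀.1
    rw [h1, hd.self]
    linarith
  · obtain ⟨i, hi⟩ : ∃ i, j = i + 1 := ⟨j - 1, by omega⟩
    have hiN : i ≤ N := by omega
    have hi1N : i + 1 ≤ N := by omega
    have hlt : U i < u₀ := by
      by_contra hcon
      exact hmin i (by omega) ⟨hiN, le_of_not_gt hcon⟩
    have hle : u₀ ≤ U (i + 1) := by
      rw [← hi]
      exact hj.2
    obtain ⟨hm, hdi, _, _⟩ := hU i hiN
    obtain ⟨hm', hdi', _, _⟩ := hU (i + 1) hi1N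
    have h1 := hβd _ (hv i hiN) _ (hv (i + 1) hi1N)
    have h2 : |(i : ℝ) / N - ((i + 1 : ℕ) : ℝ) / N| = 1 / N := by
      have e : (i : ℝ) / N - ((i + 1 : ℕ) : ℝ) / N = -(1 / N) := by
        push_cast
        ring
      rw [e, abs_neg, abs_of_pos (by positivity)]
    have h3 : d (β ((i : ℝ) / N)) (β (((i + 1 : ℕ) : ℝ) / N)) ≤ 1 := by
      rw [h1, h2, ← hL, one_div, inv_mul_eq_div, div_le_one hN0]
      exact hN
    have h4 : d (p (U i)) (p (U (i + 1))) ≤ 2 * D₀ + 1 := by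
      have a1 := hd.tri (p (U i)) (β ((i : ℝ) / N)) (p (U (i + 1)))
      have a2 := hd.tri (β ((i : ℝ) / N)) (β (((i + 1 : ℕ) : ℝ) / N)) (p (U (i + 1)))
      rw [hd.symm (p (U i)) (β ((i : ℝ) / N))] at a1
      linarith
    have h5 : U (i + 1) - U i ≤ H := by
      have a1 := (hq _ hm _ hm').2
      have a2 : |U i - U (i + 1)| = U (i + 1) - U i := by
        rw [abs_sub_comm, abs_of_nonneg (by linarith)]
      rw [a2] at a1
      rw [hH]
      have a3 := mul_le_mul_of_nonneg_left h4 hA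
      linarith
    have h6 : d (p u₀) (p (U i)) ≤ A * H := by
      have a1 := (hq _ hu₀ _ hm).1
      rw [abs_of_nonneg (by linarith : 0 ≤ u₀ - U i)] at a1
      exact a1.trans (mul_le_mul_of_nonneg_left (by linarith) hA)
    have h7 : d (p u₀) (β ((i : ℝ) / N)) ≤ D₁ := by
      have a1 := hd.tri (p u₀) (p (U i)) (β ((i : ℝ) / N))
      rw [hd.symm (p (U i)) (β ((i : ℝ) / N))] at a1
      rw [hD₁]
      linarith
    have hvi := hv i hiN
    have h8 : d (p s) (β ((i : ℝ) / N)) = (i : ℝ) / N * L := by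
      have a1 := hβd 0 ⟨le_rfl, zero_le_one⟩ _ hvi
      rw [hβ0, zero_sub, abs_neg, abs_of_nonneg hvi.1, ← hL] at a1
      exact a1
    have h9 : d (β ((i : ℝ) / N)) (p t) ≤ (1 - (i : ℝ) / N) * L := by
      have a1 := hβd _ hvi 1 ⟨zero_le_one, le_rfl⟩
      rw [abs_sub_comm, abs_of_nonneg (by linarith [hvi.2] : (0 : ℝ) ≤ 1 - (i : ℝ) / N),
        ← hL] at a1
      have a2 := hd.tri (β ((i : ℝ) / N)) (β 1) (p t)
      rw [hβ1] at a2
      linarith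
    have b1 := hd.tri (p s) (β ((i : ℝ) / N)) (p u₀)
    have b2 := hd.tri (p u₀) (β ((i : ℝ) / N)) (p t)
    rw [hd.symm (β ((i : ℝ) / N)) (p u₀)] at b1
    rw [← hL]
    have b3 : (i : ℝ) / N * L + (1 - (i : ℝ) / N) * L = L := by ring
    linarith

end Pool.Agent.CSG
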