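import Pool.Agent.Work.MP_13b5d9_gt.CS.Stmts

set_option autoImplicit false

/-!
# MP_13b5d9_gt, block CS, item Nv: the asymptotics of the first integral near the field
-/

open MeasureTheory Set Filter Topology
open scoped ContDiff ENNReal
open Pool.Agent.Work.MP_c9f990_an.Al (IsFlow)

namespace Pool.Agent.CSG

open Pool.Agent.MLS Pool.Agent.STR Pool.Agent.LQR Pool.Agent.PIN Pool.Agent.AV

namespace INv

/-- the flow at time `-l` -/
theorem neg_period {n : ℕ} {G : Type} [Group G] [MulAction G (E n)] {g : Form n} {z : G} {l : ℝ}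
    {V : E n → E n} {τ : E n → ℝ} {ψ : ℝ → E n → E n} (h : Axis n G g z l V τ ψ) (y : E n) :
    ψ (-l) y = z ^ (-1 : ℤ) • y := by
  have h1 : ψ l (ψ (-l) y) = y := by
    rw [← h.add, add_neg_cancel, h.zero]
  rw [h.period] at h1
  rw [zpow_neg_one, eq_inv_smul_iff]
  exact h1

/-- the angle is at most one -/
theorem ang_le {n : ℕ} {G : Type} [Group G] [MulAction G (E n)] {g : Form n} {z : G} {l : ℝ}
    {V : E n → E n} {τ : E n → ℝ} {ψ : ℝ → E n → E n} (h : Axis n G g z l V τ ψ) (x v : E n)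
    (hv : g.val x v v = 1) : 0 ≤ 1 - g.val x (V x) v := by
  have h1 := g.nonneg x (v - V x)
  have h2 : g.val x (v - V x) (v - V x) = 2 * (1 - g.val x (V x) v) := by
    simp only [map_sub, sub_apply, hv, h.unit, g.symm x v (V x)]
    ring
  rw [h2] at h1
  linarith

/-- the arithmetic of the two estimates -/
theorem arith (l e P d rt C C₁ C₂ C₃ ε m : ℝ) (hl : 0 < l) (hm : 1 ≤ m) (hd : 0 ≤ d)
    (hP0 : 0 ≤ P) (hP : P ≤ C₃ * d) (hC1 : C₁ ≤ C) (hC2 : C₂ ≤ C) (_hC : 0 ≤ C) (hrt0 : 0 ≤ rt)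
    (hrt : rt * (2 * C + 1) ≤ ε * l) (_hε : 0 < ε) (hm3 : C₃ ≤ ε * m)
    (hp : (m + 1) * l + e * (1 * l) ≤
      (m + 2) * l - (m + 1) * l / 2 * (1 - (m + 1) / (m + 2)) * P + C₁ * (d * rt))
    (hn : (m + 1) * l + e * (-1 * l) ≤
      m * l - (m + 1) * l / 2 * (1 - (m + 1) / m) * P + C₂ * (d * rt)) :
    |1 - e - 1 / 2 * P| ≤ ε * d := by
  have hm0 : 0 < m := by linarith
  have hm2 : 0 < m + 2 := by linarith
  have e1 : (m + 1) * l / 2 * (1 - (m + 1) / (m + 2)) * P =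
      l * (P / 2) - l * (P / 2) / (m + 2) := by
    field_simp
    ring
  have e2 : (m + 1) * l / 2 * (1 - (m + 1) / m) * P = -(l * (P / 2)) - l * (P / 2) / m := by
    field_simp
    ring
  rw [e1] at hp
  rw [e2] at hn
  have hdr : 0 ≤ d * rt := mul_nonneg hd hrt0
  have h3 : C * (d * rt) ≤ ε * l * d / 2 := by
    have h4 : C * rt ≤ ε * l / 2 := by nlinarith
    calc C * (d * rt) = d * (C * rt) := by ring
      _ ≤ d * (ε * l / 2) := mul_le_mul_of_nonneg_left h4 hd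
      _ = ε * l * d / 2 := by ring
  have h5 : C₁ * (d * rt) ≤ ε * l * d / 2 := (mul_le_mul_of_nonneg_right hC1 hdr).trans h3
  have h6 : C₂ * (d * rt) ≤ ε * l * d / 2 := (mul_le_mul_of_nonneg_right hC2 hdr).trans h3
  have h7 : P / m ≤ ε * d := by
    rw [div_le_iff₀ hm0]
    calc P ≤ C₃ * d := hP
      _ ≤ ε * m * d := mul_le_mul_of_nonneg_right hm3 hd
      _ = ε * d * m := by ring
  have h8 : l * (P / 2) / m ≤ ε * l * d / 2 := by
    calc l * (P / 2) / m = l / 2 * (P / m) := by ring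
      _ ≤ l / 2 * (ε * d) := mul_le_mul_of_nonneg_left h7 (by linarith)
      _ = ε * l * d / 2 := by ring
  have h9 : l * (P / 2) / (m + 2) ≤ ε * l * d / 2 := by
    refine le_trans ?_ h8
    exact div_le_div_of_nonneg_left (by positivity) hm0 (by linarith)
  rw [abs_le]
  constructor
  · have h10 : -(ε * d) * l ≤ (1 - e - 1 / 2 * P) * l := by nlinarith
    exact le_of_mul_le_mul_right h10 hl
  · have h10 : (1 - e - 1 / 2 * P) * l ≤ (ε * d) * l := by nlinarith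
    exact le_of_mul_le_mul_right h10 hl

end INv

open INv in
theorem pr_Nv (hXp : CsXp) (hPi : CsPi) (hShf : CsShf) : CsNv := by
  intro n G _ _ hcc g hR hI _ z hz l V τ ψ hA gr gb hAv ε hε
  obtain ⟨K, hK, hGK⟩ := hcc.cocompact
  obtain ⟨hPinv, hP0, C₃, hC30, hC3⟩ :=
    hPi n G hcc g gb hR hI hAv.riemb hAv.invb V hA.smoothV hA.unit hA.inv
  obtain ⟨m, hm⟩ : ∃ m : ℕ, m = ⌈C₃ / ε⌉₊ + 1 := ⟨_, rfl⟩
  have hm1 : (1 : ℝ) ≤ m := by
    rw [hm]
    push_cast
    have : (0 : ℝ) ≤ (⌈C₃ / ε⌉₊ : ℝ) := Nat.cast_nonneg _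
    linarith
  have hm3 : C₃ ≤ ε * m := by
    have h1 : C₃ / ε ≤ m := by
      rw [hm]
      push_cast
      have := Nat.le_ceil (C₃ / ε)
      linarith
    rw [div_le_iff₀ hε] at h1
    linarith
  have hmpos : 0 < m := by omega
  obtain ⟨C₁, hC10, hC1⟩ := hXp n G hcc g hR hI z l V τ ψ hA gr gb hAv K (m + 1) (m + 2) hK
    (by omega) (by omega)
  obtain ⟨C₂, hC20, hC2⟩ := hXp n G hcc g hR hI z l V τ ψ hA gr gb hAv K (m + 1) m hK
    (by omega) hmpos
  obtain ⟨C, hCd⟩ : ∃ C, C = C₁ + C₂ := ⟨_, rfl⟩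
  have hC0 : 0 ≤ C := by linarith
  have hlpos : 0 < l := hA.pos
  have hq : 0 < ε * l / (2 * C + 1) := by positivity
  refine ⟨(ε * l / (2 * C + 1)) ^ 2, by positivity, ?_⟩
  -- the case of a geodesic starting in `K`
  have main : ∀ c : ℝ → E n, UGeo g c → c 0 ∈ K → ∀ e : ℝ, Cal g z l c e →
      1 - ang g V c 0 < (ε * l / (2 * C + 1)) ^ 2 →
      |1 - e - 1 / 2 * pb g gb V (c 0) (deriv c 0)| ≤ ε * (1 - ang g V c 0) := by
    intro c hc hcK e hcal hδ
    have hd : 0 ≤ 1 - ang g V c 0 := ang_le hA (c 0) (deriv c 0) (hc.unit 0)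
    have hrt : Real.sqrt (1 - ang g V c 0) * (2 * C + 1) ≤ ε * l := by
      have h1 : Real.sqrt (1 - ang g V c 0) ≤ ε * l / (2 * C + 1) :=
        Real.sqrt_le_iff.2 ⟨hq.le, hδ.le⟩
      rwa [le_div_iff₀ (by positivity)] at h1
    have h1 := hC1 c hc hcK
    have h2 := hC2 c hc hcK
    have hpos : (0 : ℝ) ≤ ((m + 1 : ℕ) : ℝ) * l := mul_nonneg (Nat.cast_nonneg _) hlpos.le
    have c1 := hcal 1 0 (((m + 1 : ℕ) : ℝ) * l) hpos
    have c2 := hcal (-1) 0 (((m + 1 : ℕ) : ℝ) * l) hpos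
    have e1 : ((m + 2 : ℕ) : ℝ) * l - ((m + 1 : ℕ) : ℝ) * l = l := by
      push_cast
      ring
    have e2 : (m : ℝ) * l - ((m + 1 : ℕ) : ℝ) * l = -l := by
      push_cast
      ring
    rw [e1, hA.period] at h1
    rw [e2, neg_period hA] at h2
    rw [zpow_one] at c1
    have d1 := c1.trans h1
    have d2 := c2.trans h2
    push_cast at d1 d2
    refine arith l e (pb g gb V (c 0) (deriv c 0)) (1 - ang g V c 0)
      (Real.sqrt (1 - ang g V c 0)) C C₁ C₂ C₃ ε m hlpos hm1 hd (hP0 _ _)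
      (hC3 _ _ (hc.unit 0)) (by linarith) (by linarith) hC0 (Real.sqrt_nonneg _) hrt hε hm3 ?_ ?_
    · rw [sub_zero] at d1
      exact d1
    · rw [sub_zero] at d2
      exact d2
  intro c hc e hcal hδ
  obtain ⟨b, hb⟩ := hGK (c 0)
  obtain ⟨hU, hder, hang, hcal'⟩ := (hShf n G hcc g hR hI z hz l V τ ψ hA c hc).2 b
  have h := main (fun t => b • c t) hU hb e (hcal' e hcal) (by rw [hang]; exact hδ)
  rw [hang, hder, hPinv] at h
  exact h

end Pool.Agent.CSG
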