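import Pool.Agent.Work.MP_13b5d9_gt.CS.Stmts

set_option autoImplicit false

/-!
# MP_13b5d9_gt, block CS, item Opt: real analysis
-/

namespace Pool.Agent.CSG

namespace IOpt

theorem sqrt_step (R H₀ S d H : ℝ) (hS : 0 ≤ S) (hd : 0 ≤ d) (hSq : S ^ 2 = H₀ ^ 2 + R ^ 2)
    (h1 : H ≤ H₀ + d) (h2 : H₀ - d ≤ H) : Real.sqrt (H ^ 2 + R ^ 2) ≤ S + d := by
  have h3 : |H₀| ≤ S := by
    apply abs_le_of_sq_le_sq _ hS
    nlinarith [sq_nonneg R]
  have h4 := abs_le.1 h3
  rw [Real.sqrt_le_left (by linarith)]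
  nlinarith [mul_nonneg hd (show 0 ≤ S - H₀ by linarith [h4.2]),
    mul_nonneg hd (show 0 ≤ S + H₀ by linarith [h4.1]),
    mul_nonneg (show 0 ≤ H₀ + d - H by linarith) (show 0 ≤ H - H₀ + d by linarith), sq_nonneg (H - H₀)]

theorem fin (e l T R b : ℝ) (hb : 0 < b) (hb2 : b ^ 2 = 1 - e ^ 2) (he : |e| < 1) (hR : 0 ≤ R)
    (h : (1 - |e|) * (T - l) ≤ b * R) : b * (T - l) ≤ 2 * R := by
  have h1 : (1 + |e|) * ((1 - |e|) * (T - l)) ≤ (1 + |e|) * (b * R) :=
    mul_le_mul_of_nonneg_left h (by positivity)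
  have h2 : (1 + |e|) * (b * R) ≤ 2 * (b * R) :=
    mul_le_mul_of_nonneg_right (by linarith) (by positivity)
  have h3 : (1 + |e|) * ((1 - |e|) * (T - l)) = b * (b * (T - l)) := by
    have h5 : |e| ^ 2 = e ^ 2 := sq_abs e
    have h6 : (1 + |e|) * ((1 - |e|) * (T - l)) = (1 - |e| ^ 2) * (T - l) := by ring
    rw [h6, h5, ← hb2]
    ring
  have h4 : b * (b * (T - l)) ≤ b * (2 * R) := by
    rw [← h3]
    linarith
  exact le_of_mul_le_mul_left h4 hb

end IOpt

open IOpt in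
theorem pr_Opt : CsOpt := by
  intro l e T δ R hl he hδ hR hk
  have he' := abs_lt.1 he
  have hpos : 0 < 1 - e ^ 2 := by nlinarith [he'.1, he'.2]
  have hb : 0 < Real.sqrt (1 - e ^ 2) := Real.sqrt_pos.2 hpos
  have hb2 : Real.sqrt (1 - e ^ 2) ^ 2 = 1 - e ^ 2 := Real.sq_sqrt hpos.le
  generalize Real.sqrt (1 - e ^ 2) = b at hb hb2 ⊢
  apply fin e l T R b hb hb2 he hR
  have hS0 : 0 ≤ R / b := div_nonneg hR hb.le
  have hSq : (R / b) ^ 2 = (e * R / b) ^ 2 + R ^ 2 := by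
    have : R ^ 2 = b ^ 2 * (R / b) ^ 2 := by field_simp
    have h2 : (e * R / b) ^ 2 = e ^ 2 * (R / b) ^ 2 := by ring
    rw [h2, this, hb2]
    ring
  have hG : R / b - e * (e * R / b) = b * R := by
    have h1 : R / b - e * (e * R / b) = (1 - e ^ 2) * (R / b) := by ring
    rw [h1, ← hb2]
    field_simp
  have hT : (1 - |e|) * T ≤ T - e * δ := by
    have h1 : e * δ ≤ |e| * |δ| := by
      rw [← abs_mul]
      exact le_abs_self _
    have h2 : |e| * |δ| ≤ |e| * T := mul_le_mul_of_nonneg_left hδ (abs_nonneg _)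
    linarith
  rcases le_or_gt 0 e with h0 | h0
  · obtain ⟨k, hk1, hk2⟩ : ∃ k : ℤ, e * R / b ≤ k * l + δ ∧ k * l + δ ≤ e * R / b + l := by
      refine ⟨⌈(e * R / b - δ) / l⌉, ?_, ?_⟩
      · have h1 := Int.le_ceil ((e * R / b - δ) / l)
        rw [div_le_iff₀ hl] at h1
        linarith
      · have h1 := (Int.ceil_lt_add_one ((e * R / b - δ) / l)).le
        have h2 : (⌈(e * R / b - δ) / l⌉ : ℝ) * l ≤ ((e * R / b - δ) / l + 1) * l :=
          mul_le_mul_of_nonneg_right h1 hl.le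
        rw [add_mul, div_mul_cancel₀ _ hl.ne', one_mul] at h2
        linarith
    have h1 := hk k
    have h2 := sqrt_step R (e * R / b) (R / b) (k * l + δ - e * R / b) (k * l + δ) hS0
      (by linarith) hSq (by linarith) (by linarith)
    have h3 : (1 - e) * (k * l + δ - e * R / b) ≤ (1 - e) * l :=
      mul_le_mul_of_nonneg_left (by linarith) (by linarith [he'.2])
    rw [abs_of_nonneg h0] at hT ⊢
    nlinarith
  · obtain ⟨k, hk1, hk2⟩ : ∃ k : ℤ, e * R / b - l ≤ k * l + δ ∧ k * l + δ ≤ e * R / b := by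
      refine ⟨⌊(e * R / b - δ) / l⌋, ?_, ?_⟩
      · have h1 := (Int.lt_floor_add_one ((e * R / b - δ) / l)).le
        rw [div_le_iff₀ hl] at h1
        linarith
      · have h1 := Int.floor_le ((e * R / b - δ) / l)
        rw [le_div_iff₀ hl] at h1
        linarith
    have h1 := hk k
    have h2 := sqrt_step R (e * R / b) (R / b) (e * R / b - (k * l + δ)) (k * l + δ) hS0
      (by linarith) hSq (by linarith) (by linarith)
    have h3 : (1 + e) * (e * R / b - (k * l + δ)) ≤ (1 + e) * l :=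
      mul_le_mul_of_nonneg_left (by linarith) (by linarith [he'.1])
    rw [abs_of_neg h0] at hT ⊢
    nlinarith

end Pool.Agent.CSG
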