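import Pool.Agent.Work.MP_13b5d9_gt.CS.Stmts
import Pool.Agent.Work.MP_13b5d9_gt.AV.I_Ig

set_option autoImplicit false

/-!
# MP_13b5d9_gt, block CS, item Pi: the function pb
-/

open MeasureTheory Set Filter Topology
open scoped ContDiff ENNReal

namespace Pool.Agent.CSG

open Pool.Agent.MLS Pool.Agent.STR Pool.Agent.LQR Pool.Agent.PIN Pool.Agent.AV

namespace IPi

/-- the vector which represents the form -/
noncomputable def uu {n : ℕ} (g gb : Form n) (x w : E n) : E n := iop gb x (op g x w)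

theorem gb_uu (hOp : StOp) {n : ℕ} (g gb : Form n) (hg : Riem g) (hgb : Riem gb) (x w ξ : E n) :
    gb.val x (uu g gb x w) ξ = g.val x w ξ := by
  obtain ⟨_, h2, _, _, _, _, _, _, _⟩ := hOp n g hg
  obtain ⟨_, h2', _, h4', _, _, _, _, _⟩ := hOp n gb hgb
  rw [← h2', ← h2]
  unfold uu
  rw [h4']

theorem inner_uu (hOp : StOp) {n : ℕ} (g gb : Form n) (hg : Riem g) (x w : E n) :
    inner ℝ (op g x w) (iop gb x (op g x w)) = g.val x w (uu g gb x w) := by
  obtain ⟨_, h2, _, _, _, _, _, _, _⟩ := hOp n g hg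
  rw [h2]
  rfl

theorem uniq {n : ℕ} (gb : Form n) (hgb : Riem gb) (x u u' : E n)
    (h : ∀ ξ, gb.val x u ξ = gb.val x u' ξ) : u = u' := by
  by_contra hne
  have h1 : u - u' ≠ 0 := sub_ne_zero.mpr hne
  have h2 := hgb x _ h1
  have h3 : gb.val x (u - u') (u - u') = gb.val x u (u - u') - gb.val x u' (u - u') := by
    have e : gb.val x (u - u') = gb.val x u - gb.val x u' := map_sub _ _ _
    rw [e]
    rfl
  rw [h3, h (u - u'), sub_self] at h2
  exact lt_irrefl _ h2

end IPi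

open IPi

theorem pr_Pi (hOp : StOp) (hCmp : StCmp) : CsPi := by
  intro n G _ _ hG g gb hg hI hgb hIb V hV hV1 hVi
  have hpb : ∀ x v, pb g gb V x v = g.val x (v - V x) (uu g gb x (v - V x)) := fun x v =>
    inner_uu hOp g gb hg x (v - V x)
  have hpb2 : ∀ x v, pb g gb V x v = gb.val x (uu g gb x (v - V x)) (uu g gb x (v - V x)) :=
    fun x v => by rw [hpb, gb_uu hOp g gb hg hgb]
  refine ⟨?_, ?_, ?_⟩
  · intro a x v
    rw [hpb, hpb, hVi a x, ← map_sub]
    have h1 : uu g gb (a • x) (dac a x (v - V x)) = dac a x (uu g gb x (v - V x)) := by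
      refine uniq gb hgb (a • x) _ _ fun ξ => ?_
      rw [gb_uu hOp g gb hg hgb]
      rw [← IIg.dac_dac hG a x ξ, hI, hIb, gb_uu hOp g gb hg hgb]
    rw [h1, hI]
  · intro x v
    rw [hpb2]
    exact gb.nonneg _ _
  · obtain ⟨A, hA, hA1, _⟩ := hCmp n G hG gb g hgb hIb hI
    refine ⟨2 * A ^ 2, by positivity, fun x v hv => ?_⟩
    set w := v - V x with hw
    set u := uu g gb x w with hu
    have hP0 : 0 ≤ gb.val x u u := gb.nonneg _ _
    have hP : g.val x w u = gb.val x u u := by rw [hu, gb_uu hOp g gb hg hgb]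
    have hR : g.val x u u ≤ A ^ 2 * gb.val x u u := by
      have h1 := hA1 x u
      unfold nrm at h1
      have h2 := g.nonneg x u
      have h3 : Real.sqrt (g.val x u u) ^ 2 ≤ (A * Real.sqrt (gb.val x u u)) ^ 2 :=
        pow_le_pow_left₀ (Real.sqrt_nonneg _) h1 2
      rwa [Real.sq_sqrt h2, mul_pow, Real.sq_sqrt hP0] at h3
    have hS : g.val x w w = 2 * (1 - g.val x (V x) v) := by
      rw [hw]
      simp only [map_sub, sub_apply]
      rw [hv, hV1 x, g.symm x v (V x)]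
      ring
    have hq : 0 ≤ g.val x (w - (A ^ 2)⁻¹ • u) (w - (A ^ 2)⁻¹ • u) := g.nonneg _ _
    simp only [map_sub, map_smul, sub_apply, smul_apply,
      smul_eq_mul] at hq
    rw [g.symm x u w, hP] at hq
    have hA2 : 0 < A ^ 2 := by positivity
    have h4 : (A ^ 2)⁻¹ * ((A ^ 2)⁻¹ * g.val x u u) ≤ (A ^ 2)⁻¹ * gb.val x u u := by
      refine mul_le_mul_of_nonneg_left ?_ (by positivity)
      rw [inv_mul_le_iff₀ hA2]
      exact hR
    have h5 : (A ^ 2)⁻¹ * gb.val x u u ≤ g.val x w w := by nlinarith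
    rw [inv_mul_le_iff₀ hA2, hS] at h5
    rw [hpb2]
    calc gb.val x u u ≤ A ^ 2 * (2 * (1 - g.val x (V x) v)) := h5
      _ = 2 * A ^ 2 * (1 - g.val x (V x) v) := by ring

end Pool.Agent.CSG
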