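import Pool.Agent.Work.MP_13b5d9_gt.CS.Stmts

set_option autoImplicit false

/-!
# MP_13b5d9_gt, block CS, item Qg: the projection of a geodesic is a quasi-geodesic
-/

open MeasureTheory Set Filter Topology
open scoped ContDiff ENNReal
open Pool.Agent.Work.MP_c9f990_an.Al (IsFlow)

namespace Pool.Agent.CSG

open Pool.Agent.MLS Pool.Agent.STR Pool.Agent.LQR Pool.Agent.PIN Pool.Agent.AV

namespace IQg

/-- the flow at integer multiples of the period -/
theorem iter {n : ℕ} {G : Type} [Group G] [MulAction G (E n)] {g : Form n} {z : G} {l : ℝ}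
    {V : E n → E n} {τ : E n → ℝ} {ψ : ℝ → E n → E n} (h : Axis n G g z l V τ ψ) (k : ℤ) :
    ∀ y : E n, ψ (k * l) y = z ^ k • y := by
  induction k using Int.induction_on with
  | zero =>
    intro y
    rw [Int.cast_zero, zero_mul, h.zero, zpow_zero, one_smul]
  | succ i ih =>
    intro y
    have e : (((i : ℤ) + 1 : ℤ) : ℝ) * l = l + ((i : ℤ) : ℝ) * l := by
      push_cast
      ring
    rw [e, h.add, ih, h.period, smul_smul, ← zpow_one_add, add_comm]
  | pred i ih =>
    intro y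
    have e : ((-(i : ℤ) : ℤ) : ℝ) * l = l + ((-(i : ℤ) - 1 : ℤ) : ℝ) * l := by
      push_cast
      ring
    have h1 := ih y
    rw [e, h.add, h.period] at h1
    have h2 : ψ (((-(i : ℤ) - 1 : ℤ) : ℝ) * l) y = z⁻¹ • (z ^ (-(i : ℤ)) • y) := by
      rw [← h1, inv_smul_smul]
    rw [h2, smul_smul]
    congr 1
    rw [sub_eq_add_neg, add_comm, zpow_add, zpow_neg_one]

/-- a function with derivative bounded by one -/
theorem lip {f a : ℝ → ℝ} (hf : ∀ t, HasDerivAt f (a t) t) (ha : ∀ t, |a t| ≤ 1) {s t : ℝ}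
    (hst : s ≤ t) : |f t - f s| ≤ t - s := by
  have h := Convex.norm_image_sub_le_of_norm_hasDerivWithin_le (f := f) (f' := a)
    (C := 1) (s := univ) (x := s) (y := t) (fun x _ => (hf x).hasDerivWithinAt)
    (fun x _ => by rw [Real.norm_eq_abs]; exact ha x) convex_univ (mem_univ _) (mem_univ _)
  rw [Real.norm_eq_abs, Real.norm_eq_abs, one_mul, abs_of_nonneg (sub_nonneg.2 hst)] at h
  exact h

end IQg

open IQg in
theorem pr_Qg (hStr : CsStr) (hOpt : CsOpt) (hAng : CsAng) (hDps : CsDps) (hFlow : StFlow)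
    (hLog : StLog) (hGd : StGd) : CsQg := by
  intro n G _ _ hcc g hR hI hN z l V τ ψ hA
  obtain ⟨φ, M, hφ⟩ := hFlow n G hcc g hR hI
  obtain ⟨lg, hlg⟩ := hLog n g φ M hR hφ hN
  obtain ⟨K, hK0, hK⟩ := hAng n G hcc g hR hI z l V τ ψ hA
  obtain ⟨C, hC1, hC⟩ := hDps n G hcc g hR hI z l V τ ψ hA
  obtain ⟨_, hPM, _, _⟩ := hGd n g
  refine ⟨max (2 * C) (max l 1), ?_, ?_⟩
  · exact (le_max_right _ _).trans (le_max_right _ _)
  intro c hc e he hcal r s t hst
  obtain ⟨_, hab, hder, _⟩ := hK c hc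
  set Λ := max (2 * C) (max l 1) with hΛ
  have hΛC : 2 * C ≤ Λ := le_max_left _ _
  have hΛl : l ≤ Λ := (le_max_left _ _).trans (le_max_right _ _)
  have hΛ0 : 0 ≤ Λ := le_trans (by linarith) hΛC
  have hd0 : 0 ≤ gd g (c s) (ψ r (c t)) := hPM.nonneg _ _
  rcases eq_or_lt_of_le he with he1 | he1
  · have h0 : 1 - e ^ 2 = 0 := by
      rw [← sq_abs, he1]
      norm_num
    rw [h0, Real.sqrt_zero, zero_mul]
    exact mul_nonneg hΛ0 hd0
  · have hδ : |τ (c t) - τ (c s)| ≤ t - s := lip hder hab hst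
    have hR0 : 0 ≤ C * gd g (c s) (ψ r (c t)) := mul_nonneg (by linarith) hd0
    have hmain := hOpt l e (t - s) (τ (c t) - τ (c s)) (C * gd g (c s) (ψ r (c t))) hA.pos he1 hδ
      hR0 (by
        intro k
        have h1 := hcal k s t hst
        have h2 := hStr n G g φ M lg hR hφ hlg z l V τ ψ hA C hC (c s) (ψ r (c t)) (k * l - r)
        have h3 : ψ (k * l - r) (ψ r (c t)) = z ^ k • c t := by
          rw [← hA.add, sub_add_cancel, iter hA]
        rw [h3, hA.height] at h2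
        have h4 : (k * l - r) + (τ (c t) + r) - τ (c s) = k * l + (τ (c t) - τ (c s)) := by ring
        rw [h4, ← mul_pow] at h2
        exact h1.trans (Real.le_sqrt_of_sq_le h2))
    have hs0 : 0 ≤ Real.sqrt (1 - e ^ 2) := Real.sqrt_nonneg _
    calc Real.sqrt (1 - e ^ 2) * (t - s - Λ) ≤ Real.sqrt (1 - e ^ 2) * (t - s - l) :=
          mul_le_mul_of_nonneg_left (by linarith) hs0
      _ ≤ 2 * (C * gd g (c s) (ψ r (c t))) := hmain
      _ = 2 * C * gd g (c s) (ψ r (c t)) := by ring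
      _ ≤ Λ * gd g (c s) (ψ r (c t)) := mul_le_mul_of_nonneg_right hΛC hd0

end Pool.Agent.CSG
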