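import Pool.Agent.Work.MP_13b5d9_gt.CS.Stmts

set_option autoImplicit false

/-!
# MP_13b5d9_gt, item [CS Ra]: the rotating frame, exact identities
-/

open MeasureTheory Set Filter Topology
open scoped ContDiff ENNReal
open Pool.Agent.Work.MP_c9f990_an.Al (IsFlow)

namespace Pool.Agent.CSG

open Pool.Agent.MLS Pool.Agent.STR Pool.Agent.LQR Pool.Agent.AV

theorem pr_Ra (hFr : StFr) : CsRa := by
  intro n G _ _ g z l V τ ψ gr hax hfam hpull c hc X hX
  obtain ⟨_, hcX, hdc, _⟩ := hFr n G g z l V τ ψ gr hax hfam hpull c hc.geo X hX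
  have h0 : ψ 0 = id := funext hax.zero
  refine ⟨?_, ?_, ?_, ?_, ?_⟩
  · rw [hX 0, neg_zero, hax.zero]
  · have h := hdc 0
    rw [h0, fderiv_id, ContinuousLinearMap.id_apply] at h
    rw [h, add_sub_cancel_left]
  · apply Form.ext
    funext x
    ext u v
    rw [hpull, h0, fderiv_id]
    rfl
  · intro u
    rw [hpull, ← hcX u]
    have h : fderiv ℝ (ψ u) (X u) (deriv X u) = deriv c u - V (c u) := by
      rw [hdc u, add_sub_cancel_left]
    rw [h]
    unfold ang
    have e : g.val (c u) (deriv c u - V (c u)) (deriv c u - V (c u)) =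
        g.val (c u) (deriv c u) (deriv c u) - g.val (c u) (deriv c u) (V (c u)) -
          (g.val (c u) (V (c u)) (deriv c u) - g.val (c u) (V (c u)) (V (c u))) := by
      have hs := map_sub (g.val (c u)) (deriv c u) (V (c u))
      rw [hs]
      have hs2 : (g.val (c u) (deriv c u) - g.val (c u) (V (c u))) (deriv c u - V (c u)) =
          g.val (c u) (deriv c u) (deriv c u - V (c u)) -
            g.val (c u) (V (c u)) (deriv c u - V (c u)) := rfl
      rw [hs2, map_sub, map_sub]
    rw [e, hc.unit u, hax.unit (c u), g.symm (c u) (deriv c u) (V (c u))]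
    ring
  · intro u
    have e : (fun s => τ (X s)) = fun s => τ (c s) - s := by
      funext s
      rw [hX s, hax.height]
      ring
    rw [e]
    have hcd : HasDerivAt c (deriv c u) u :=
      ((hc.geo.smooth.differentiable (by norm_num)) u).hasDerivAt
    have hτ : HasFDerivAt τ (fderiv ℝ τ (c u)) (c u) :=
      ((hax.smoothT.differentiable (by norm_num)) (c u)).hasFDerivAt
    have h1 : HasDerivAt (fun s => τ (c s)) (fderiv ℝ τ (c u) (deriv c u)) u :=
      hτ.comp_hasDerivAt u hcd
    rw [hax.grad] at h1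
    exact h1.sub (hasDerivAt_id u)

end Pool.Agent.CSG
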