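import Pool.Agent.Work.MP_13b5d9_gt.CS.Stmts
import Pool.Agent.Work.MP_13b5d9_gt.AV.I_Cg

/-!
# Item Rb: the rotating frame, first bounds
-/

set_option autoImplicit false

open MeasureTheory Set Filter Topology
open scoped ContDiff ENNReal
open Pool.Agent.Work.MP_c9f990_an.Al (IsFlow)

namespace Pool.Agent.CSG

open Pool.Agent.MLS Pool.Agent.STR Pool.Agent.LQR Pool.Agent.PIN Pool.Agent.AV

theorem pr_Rb (hRa : CsRa) (hAng : CsAng) (hFr : StFr) (hProp : StProp) (hGd : StGd) : CsRb := by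
  intro n G _ _ hc g hg hi z l V τ ψ h gr hF hgr K T hK hT
  obtain ⟨K0, hK0, hA⟩ := hAng n G hc g hg hi z l V τ ψ h
  obtain ⟨K', hK', hKK'⟩ := hProp n G hc g hg hi K T hK
  have hcomp : IsCompact ((fun p : ℝ × E n => ψ p.1 p.2) '' (Icc (-T) 0 ×ˢ K')) :=
    (isCompact_Icc.prod hK').image h.smoothF.continuous
  obtain ⟨m, hm, hlow⟩ := ICg.lower gr hF T _ hcomp
  set C1 : ℝ := Real.exp (K0 * T) with hC1
  have hC1pos : 0 < C1 := Real.exp_pos _
  set D : ℝ := Real.sqrt (2 * C1 / m) with hD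
  have hDnn : 0 ≤ D := Real.sqrt_nonneg _
  refine ⟨C1 + D + D * T, by positivity, ?_⟩
  intro c hcg hcK X hX
  obtain ⟨-, ha1, -, ha2⟩ := hA c hcg
  obtain ⟨hX0, -, -, hXv, -⟩ := hRa n G g z l V τ ψ gr h hF hgr c hcg X hX
  obtain ⟨hXs, -, -, -⟩ := hFr n G g z l V τ ψ gr h hF hgr c hcg.geo X hX
  have hδ : 0 ≤ 1 - ang g V c 0 := by
    have := (abs_le.mp (ha1 0)).2
    linarith
  -- the first bound
  have b1 : ∀ u ∈ Icc (0 : ℝ) T, 1 - ang g V c u ≤ C1 * (1 - ang g V c 0) := by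
    intro u hu
    refine (ha2 0 u).trans ?_
    refine mul_le_mul_of_nonneg_right ?_ hδ
    rw [sub_zero, abs_of_nonneg hu.1]
    exact Real.exp_le_exp.mpr (mul_le_mul_of_nonneg_left hu.2 hK0)
  -- the second bound
  have b2 : ∀ u ∈ Icc (0 : ℝ) T, ‖deriv X u‖ ≤ D * Real.sqrt (1 - ang g V c 0) := by
    intro u hu
    have hlen : gd g (c 0) (c u) ≤ T := by
      have h1 := (hGd n g).2.2.2 c 0 u (hcg.geo.smooth.of_le (by norm_num)) hu.1
      have h2 : (∫ t in (0 : ℝ)..u, nrm g (c t) (deriv c t)) = u := by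
        have h3 : (fun t => nrm g (c t) (deriv c t)) = fun _ => (1 : ℝ) := by
          funext t
          unfold nrm
          rw [hcg.unit t, Real.sqrt_one]
        rw [h3, intervalIntegral.integral_const, sub_zero, smul_eq_mul, mul_one]
      rw [h2] at h1
      exact h1.trans hu.2
    have hcu : c u ∈ K' := hKK' _ hcK _ hlen
    have hXu : X u ∈ (fun p : ℝ × E n => ψ p.1 p.2) '' (Icc (-T) 0 ×ˢ K') := by
      refine ⟨(-u, c u), ⟨⟨?_, ?_⟩, hcu⟩, (hX u).symm⟩
      · have := hu.2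
        show -T ≤ -u
        linarith
      · have := hu.1
        show -u ≤ 0
        linarith
    have h4 := hlow u hu (X u) hXu (deriv X u)
    rw [hXv u] at h4
    have h5 : ‖deriv X u‖ ^ 2 ≤ 2 * C1 / m * (1 - ang g V c 0) := by
      have h6 := b1 u hu
      rw [div_mul_eq_mul_div, le_div_iff₀ hm]
      nlinarith
    have h7 : Real.sqrt (‖deriv X u‖ ^ 2) ≤ Real.sqrt (2 * C1 / m * (1 - ang g V c 0)) :=
      Real.sqrt_le_sqrt h5
    rw [Real.sqrt_sq (norm_nonneg _), Real.sqrt_mul (by positivity)] at h7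
    exact h7
  -- the third bound
  have b3 : ∀ u ∈ Icc (0 : ℝ) T, ‖X u - c 0‖ ≤ D * T * Real.sqrt (1 - ang g V c 0) := by
    intro u hu
    have h8 := (convex_Icc (0 : ℝ) T).norm_image_sub_le_of_norm_deriv_le
      (f := X) (C := D * Real.sqrt (1 - ang g V c 0)) (x := 0) (y := u)
      (fun t _ => (hXs.differentiable (by norm_num)).differentiableAt) b2
      ⟨le_refl _, hT.le⟩ hu
    rw [hX0] at h8
    refine h8.trans ?_
    rw [sub_zero, Real.norm_of_nonneg hu.1]
    have h9 : D * Real.sqrt (1 - ang g V c 0) * u ≤ D * Real.sqrt (1 - ang g V c 0) * T :=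
      mul_le_mul_of_nonneg_left hu.2 (mul_nonneg hDnn (Real.sqrt_nonneg _))
    linarith
  intro u hu
  have hs : 0 ≤ Real.sqrt (1 - ang g V c 0) := Real.sqrt_nonneg _
  have hDT : 0 ≤ D * T := mul_nonneg hDnn hT.le
  refine ⟨(b1 u hu).trans ?_, (b2 u hu).trans ?_, (b3 u hu).trans ?_⟩
  · exact mul_le_mul_of_nonneg_right (by linarith) hδ
  · exact mul_le_mul_of_nonneg_right (by linarith) hs
  · exact mul_le_mul_of_nonneg_right (by linarith) hs

end Pool.Agent.CSG
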