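import Pool.Agent.Work.MP_13b5d9_gt.CS.Stmts

set_option autoImplicit false
set_option maxSynthPendingDepth 3

/-!
# MP_13b5d9_gt, block CS, item Rc: the rotating frame, second bounds
-/

open MeasureTheory Set Filter Topology
open scoped ContDiff ENNReal
open Pool.Agent.Work.MP_c9f990_an.Al (IsFlow)

namespace Pool.Agent.CSG

open Pool.Agent.MLS Pool.Agent.STR Pool.Agent.LQR Pool.Agent.PIN Pool.Agent.AV

namespace IRc

/-- a continuous function is bounded on `[0, T]` times a ball -/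
theorem bdd {n : ℕ} {F : Type} [NormedAddCommGroup F] (f : ℝ × E n → F) (hf : Continuous f)
    (T R : ℝ) :
    ∃ M : ℝ, 0 ≤ M ∧ ∀ r ∈ Icc 0 T, ∀ x ∈ Metric.closedBall (0 : E n) R, ‖f (r, x)‖ ≤ M := by
  have hc : IsCompact (Icc 0 T ×ˢ Metric.closedBall (0 : E n) R) :=
    isCompact_Icc.prod (isCompact_closedBall 0 R)
  obtain ⟨M, hM⟩ := hc.exists_bound_of_continuousOn hf.continuousOn
  exact ⟨max M 0, le_max_right _ _,
    fun r hr x hx => (hM (r, x) ⟨hr, hx⟩).trans (le_max_left _ _)⟩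

/-- the derivative in `x` of a jointly smooth function is jointly continuous -/
theorem cfd {n : ℕ} {F : Type} [NormedAddCommGroup F] [NormedSpace ℝ F] (f : ℝ → E n → F)
    (hf : ContDiff ℝ ∞ (fun p : ℝ × E n => f p.1 p.2)) :
    Continuous (fun p : ℝ × E n => fderiv ℝ (f p.1) p.2) := by
  have h : ContDiff ℝ ∞ (Function.uncurry (fun (p : ℝ × E n) (y : E n) => f p.1 y)) :=
    hf.comp ((contDiff_fst.comp contDiff_fst).prodMk contDiff_snd)
  exact (ContDiff.fderiv (n := 0) h contDiff_snd (by simp)).continuous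

/-- partial maps of jointly smooth functions are differentiable -/
theorem dfx {n : ℕ} {F : Type} [NormedAddCommGroup F] [NormedSpace ℝ F] (f : ℝ → E n → F)
    (hf : ContDiff ℝ ∞ (fun p : ℝ × E n => f p.1 p.2)) (r : ℝ) : Differentiable ℝ (f r) := by
  have h : ContDiff ℝ ∞ (f r) := hf.comp (contDiff_const.prodMk contDiff_id)
  exact h.differentiable (by simp)

end IRc

/-- [Rc]: the rotating frame, second bounds -/
theorem pr_Rc (hRa : CsRa) (hRb : CsRb) (hFr : StFr) (hSi : StSi) (hOp : StOp) : CsRc := by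
  intro n G _ _ hG g hg hI z l V τ ψ hA gr hF hp K T hK hT
  obtain ⟨C, hC0, hC⟩ := hRb n G hG g hg hI z l V τ ψ hA gr hF hp K T hK hT
  obtain ⟨R₀, hR₀⟩ := hK.isBounded.subset_closedBall (0 : E n)
  obtain ⟨M₁, hM₁0, hM₁⟩ := IRc.bdd _ (IRc.cfd (fun r x => (gr r).val x) hF.smooth) T (R₀ + 2 * C)
  obtain ⟨M₂, hM₂0, hM₂⟩ := IRc.bdd (fun p : ℝ × E n => op (gr p.1) p.2)
    (continuous_const.clm_comp hF.smooth.continuous) T (R₀ + 2 * C)
  obtain ⟨hk, -, -⟩ := hSi n gr hF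
  obtain ⟨M₃, hM₃0, hM₃⟩ := IRc.bdd (fun p : ℝ × E n => iop (gr p.1) p.2) hk.continuous T
    (R₀ + 2 * C)
  obtain ⟨M₄, hM₄0, hM₄⟩ := IRc.bdd _ (IRc.cfd (fun r x => iop (gr r) x) hk) T (R₀ + 2 * C)
  obtain ⟨A, hAd⟩ : ∃ A : ℝ, A = T * (1 / 2 * (M₁ * C ^ 2)) := ⟨_, rfl⟩
  have hA0 : 0 ≤ A := by rw [hAd]; positivity
  obtain ⟨D, hD⟩ : ∃ D : ℝ, D = M₄ * C * (M₂ * C) + M₃ * A := ⟨_, rfl⟩
  have hD0 : 0 ≤ D := by rw [hD]; positivity
  refine ⟨M₂ * C + D + (A * C + M₂ * C * D), by positivity, ?_⟩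
  intro c hc hcK X hX
  obtain ⟨hX0, hX'0, hgr0, hen, -⟩ := hRa n G g z l V τ ψ gr hA hF hp c hc X hX
  obtain ⟨hXs, -, -, hode⟩ := hFr n G g z l V τ ψ gr hA hF hp c hc.geo X hX
  have hb := hC c hc hcK X hX
  -- the number δ
  have hδ0 : 0 ≤ 1 - ang g V c 0 := by
    have h1 := hen 0
    have h2 := (gr 0).nonneg (X 0) (deriv X 0)
    linarith
  have hδ2 : 1 - ang g V c 0 ≤ 2 := by
    have h1 := g.nonneg (c 0) (V (c 0) + deriv c 0)
    have h2 := hA.unit (c 0)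
    have h3 := hc.unit 0
    have h4 : g.val (c 0) (deriv c 0) (V (c 0)) = ang g V c 0 := by rw [g.symm]; rfl
    have h5 : g.val (c 0) (V (c 0)) (deriv c 0) = ang g V c 0 := rfl
    simp only [map_add, _root_.add_apply] at h1
    rw [h2, h3, h4, h5] at h1
    linarith
  obtain ⟨δ, hδ⟩ : ∃ δ : ℝ, δ = 1 - ang g V c 0 := ⟨_, rfl⟩
  rw [← hδ] at hδ0 hδ2
  obtain ⟨q, hq⟩ : ∃ q : ℝ, q = Real.sqrt δ := ⟨_, rfl⟩
  have hq0 : 0 ≤ q := by rw [hq]; exact Real.sqrt_nonneg _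
  have hqq : q * q = δ := by rw [hq]; exact Real.mul_self_sqrt hδ0
  have hq2 : q ≤ 2 := by nlinarith
  have hb1 : ∀ u ∈ Icc 0 T, ‖deriv X u‖ ≤ C * q := by
    intro u hu
    have h := (hb u hu).2.1
    rwa [← hδ, ← hq] at h
  have hb2 : ∀ u ∈ Icc 0 T, ‖X u - c 0‖ ≤ C * q := by
    intro u hu
    have h := (hb u hu).2.2
    rwa [← hδ, ← hq] at h
  have hc0B : c 0 ∈ Metric.closedBall (0 : E n) (R₀ + 2 * C) := by
    have h := hR₀ hcK
    rw [mem_closedBall_zero_iff] at h ⊢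
    linarith
  have hXB : ∀ u ∈ Icc 0 T, X u ∈ Metric.closedBall (0 : E n) (R₀ + 2 * C) := by
    intro u hu
    have h := hR₀ hcK
    rw [mem_closedBall_zero_iff] at h ⊢
    have h1 : ‖X u‖ ≤ ‖c 0‖ + ‖X u - c 0‖ := by
      have h2 := norm_add_le (c 0) (X u - c 0)
      rwa [add_sub_cancel] at h2
    have h3 := hb2 u hu
    have h4 : C * q ≤ C * 2 := mul_le_mul_of_nonneg_left hq2 hC0
    linarith
  have h0T : (0 : ℝ) ∈ Icc 0 T := ⟨le_rfl, hT.le⟩
  -- the momentum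
  obtain ⟨p, hpd⟩ : ∃ p : ℝ → E n, p = fun s => op (gr s) (X s) (deriv X s) := ⟨_, rfl⟩
  obtain ⟨p₀, hp₀⟩ : ∃ p₀ : E n, p₀ = op g (c 0) (deriv c 0 - V (c 0)) := ⟨_, rfl⟩
  have hpp : p 0 = p₀ := by rw [hpd, hp₀]; simp only; rw [hX0, hX'0, hgr0]
  have hin : ∀ s w, inner ℝ (p s) w = (gr s).val (X s) (deriv X s) w := by
    intro s w
    rw [hpd]
    exact (hOp n (gr s) (hF.riem s)).2.1 (X s) (deriv X s) w
  have hpn : ∀ u ∈ Icc 0 T, ‖p u‖ ≤ M₂ * (C * q) := by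
    intro u hu
    rw [hpd]
    calc ‖op (gr u) (X u) (deriv X u)‖ ≤ ‖op (gr u) (X u)‖ * ‖deriv X u‖ :=
          ContinuousLinearMap.le_opNorm _ _
      _ ≤ M₂ * (C * q) := mul_le_mul (hM₂ u hu _ (hXB u hu)) (hb1 u hu) (norm_nonneg _) hM₂0
  have hpm : ∀ u ∈ Icc 0 T, ‖p u - p₀‖ ≤ A * δ := by
    intro u hu
    have key : ∀ w : E n, |inner ℝ (p u - p₀) w| ≤ A * δ * ‖w‖ := by
      intro w
      have h1 : ∀ s ∈ Icc 0 T, HasDerivWithinAt (fun s => (gr s).val (X s) (deriv X s) w)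
          (1 / 2 * fderiv ℝ (gr s).val (X s) w (deriv X s) (deriv X s)) (Icc 0 T) s :=
        fun s _ => (hode s w).hasDerivWithinAt
      have h2 : ∀ s ∈ Ico 0 T, ‖1 / 2 * fderiv ℝ (gr s).val (X s) w (deriv X s) (deriv X s)‖ ≤
          1 / 2 * (M₁ * C ^ 2) * δ * ‖w‖ := by
        intro s hs
        have hs' : s ∈ Icc 0 T := ⟨hs.1, hs.2.le⟩
        have h3 : ‖fderiv ℝ (gr s).val (X s) w (deriv X s) (deriv X s)‖ ≤
            M₁ * ‖w‖ * (C * q) * (C * q) := by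
          calc ‖fderiv ℝ (gr s).val (X s) w (deriv X s) (deriv X s)‖
              ≤ ‖fderiv ℝ (gr s).val (X s) w (deriv X s)‖ * ‖deriv X s‖ :=
                ContinuousLinearMap.le_opNorm _ _
            _ ≤ (‖fderiv ℝ (gr s).val (X s) w‖ * ‖deriv X s‖) * ‖deriv X s‖ :=
                mul_le_mul_of_nonneg_right (ContinuousLinearMap.le_opNorm _ _) (norm_nonneg _)
            _ ≤ ((‖fderiv ℝ (gr s).val (X s)‖ * ‖w‖) * ‖deriv X s‖) * ‖deriv X s‖ :=
                mul_le_mul_of_nonneg_right (mul_le_mul_of_nonneg_right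
                  (ContinuousLinearMap.le_opNorm _ _) (norm_nonneg _)) (norm_nonneg _)
            _ ≤ ((M₁ * ‖w‖) * (C * q)) * (C * q) := by
                have h4 := hM₁ s hs' _ (hXB s hs')
                have h5 := hb1 s hs'
                have h6 : 0 ≤ C * q := mul_nonneg hC0 hq0
                refine mul_le_mul (mul_le_mul (mul_le_mul_of_nonneg_right h4 (norm_nonneg _)) h5
                  (norm_nonneg _) (mul_nonneg hM₁0 (norm_nonneg _))) h5 (norm_nonneg _) ?_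
                exact mul_nonneg (mul_nonneg hM₁0 (norm_nonneg _)) h6
        rw [norm_mul]
        have h7 : ‖(1 / 2 : ℝ)‖ = 1 / 2 := by norm_num
        rw [h7]
        calc 1 / 2 * ‖fderiv ℝ (gr s).val (X s) w (deriv X s) (deriv X s)‖
            ≤ 1 / 2 * (M₁ * ‖w‖ * (C * q) * (C * q)) :=
              mul_le_mul_of_nonneg_left h3 (by norm_num)
          _ = 1 / 2 * (M₁ * C ^ 2) * (q * q) * ‖w‖ := by ring
          _ = 1 / 2 * (M₁ * C ^ 2) * δ * ‖w‖ := by rw [hqq]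
      have h8 := norm_image_sub_le_of_norm_deriv_le_segment' h1 h2 u hu
      have h9 : inner ℝ (p u - p₀) w = (gr u).val (X u) (deriv X u) w -
          (gr 0).val (X 0) (deriv X 0) w := by
        rw [inner_sub_left, hin, ← hpp, hin]
      rw [h9]
      refine h8.trans ?_
      have h10 : u - 0 ≤ T := by linarith [hu.2]
      calc 1 / 2 * (M₁ * C ^ 2) * δ * ‖w‖ * (u - 0)
          ≤ 1 / 2 * (M₁ * C ^ 2) * δ * ‖w‖ * T := mul_le_mul_of_nonneg_left h10 (by positivity)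
        _ = A * δ * ‖w‖ := by rw [hAd]; ring
    have h := key (p u - p₀)
    rw [real_inner_self_eq_norm_sq, abs_of_nonneg (sq_nonneg _)] at h
    by_cases h0 : ‖p u - p₀‖ = 0
    · rw [h0]; exact mul_nonneg hA0 hδ0
    · have h1 : 0 < ‖p u - p₀‖ := lt_of_le_of_ne (norm_nonneg _) (Ne.symm h0)
      rw [sq] at h
      exact le_of_mul_le_mul_right h h1
  have hp0n : ‖p₀‖ ≤ M₂ * (C * q) := by rw [← hpp]; exact hpn 0 h0T
  -- the velocity
  have hkl : ∀ u ∈ Icc 0 T, ‖iop (gr u) (X u) - iop (gr u) (c 0)‖ ≤ M₄ * (C * q) := by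
    intro u hu
    have h1 := (convex_closedBall (0 : E n) (R₀ + 2 * C)).norm_image_sub_le_of_norm_fderiv_le
      (f := fun x => iop (gr u) x) (𝕜 := ℝ) (C := M₄)
      (fun x _ => (IRc.dfx (fun r x => iop (gr r) x) hk u) x)
      (fun x hx => hM₄ u hu x hx) hc0B (hXB u hu)
    exact h1.trans (mul_le_mul_of_nonneg_left (hb2 u hu) hM₄0)
  have hvel : ∀ u, deriv X u = iop (gr u) (X u) (p u) := by
    intro u
    rw [hpd]
    exact ((hOp n (gr u) (hF.riem u)).2.2.1 (X u) (deriv X u)).symm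
  have hdv : ∀ u ∈ Icc 0 T, ‖deriv X u - iop (gr u) (c 0) p₀‖ ≤ D * δ := by
    intro u hu
    have h1 : deriv X u - iop (gr u) (c 0) p₀ =
        (iop (gr u) (X u) - iop (gr u) (c 0)) (p u) + iop (gr u) (c 0) (p u - p₀) := by
      rw [_root_.sub_apply, map_sub, ← hvel]
      abel
    rw [h1]
    calc ‖(iop (gr u) (X u) - iop (gr u) (c 0)) (p u) + iop (gr u) (c 0) (p u - p₀)‖
        ≤ ‖(iop (gr u) (X u) - iop (gr u) (c 0)) (p u)‖ + ‖iop (gr u) (c 0) (p u - p₀)‖ :=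
          norm_add_le _ _
      _ ≤ ‖iop (gr u) (X u) - iop (gr u) (c 0)‖ * ‖p u‖ + ‖iop (gr u) (c 0)‖ * ‖p u - p₀‖ :=
          add_le_add (ContinuousLinearMap.le_opNorm _ _) (ContinuousLinearMap.le_opNorm _ _)
      _ ≤ M₄ * (C * q) * (M₂ * (C * q)) + M₃ * (A * δ) := by
          refine add_le_add (mul_le_mul (hkl u hu) (hpn u hu) (norm_nonneg _) (by positivity))
            (mul_le_mul (hM₃ u hu _ hc0B) (hpm u hu) (norm_nonneg _) hM₃0)
      _ = D * δ := by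
          rw [hD, ← hqq]; ring
  rw [← hδ, ← hq, ← hp₀]
  have hCq : 0 ≤ C * q := mul_nonneg hC0 hq0
  refine ⟨?_, fun u hu => ⟨?_, ?_⟩⟩
  · refine hp0n.trans ?_
    have h1 : 0 ≤ (D + (A * C + M₂ * C * D)) * q := by positivity
    nlinarith
  · refine (hdv u hu).trans ?_
    have h1 : 0 ≤ (M₂ * C + (A * C + M₂ * C * D)) * δ := by positivity
    nlinarith
  · have h1 : 2 * (1 - ang g V c u) = inner ℝ (p u) (deriv X u) := by
      rw [hin, hen]
    have h2 : 2 * (1 - ang g V c u) - inner ℝ p₀ (iop (gr u) (c 0) p₀) =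
        inner ℝ (p u - p₀) (deriv X u) + inner ℝ p₀ (deriv X u - iop (gr u) (c 0) p₀) := by
      rw [h1, inner_sub_left, inner_sub_right]
      ring
    rw [h2]
    calc |inner ℝ (p u - p₀) (deriv X u) + inner ℝ p₀ (deriv X u - iop (gr u) (c 0) p₀)|
        ≤ |inner ℝ (p u - p₀) (deriv X u)| + |inner ℝ p₀ (deriv X u - iop (gr u) (c 0) p₀)| :=
          abs_add_le _ _
      _ ≤ ‖p u - p₀‖ * ‖deriv X u‖ + ‖p₀‖ * ‖deriv X u - iop (gr u) (c 0) p₀‖ :=
          add_le_add (abs_real_inner_le_norm _ _) (abs_real_inner_le_norm _ _)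
      _ ≤ A * δ * (C * q) + M₂ * (C * q) * (D * δ) := by
          refine add_le_add (mul_le_mul (hpm u hu) (hb1 u hu) (norm_nonneg _) (by positivity))
            (mul_le_mul hp0n (hdv u hu) (norm_nonneg _) (by positivity))
      _ = (A * C + M₂ * C * D) * (δ * q) := by ring
      _ ≤ (M₂ * C + D + (A * C + M₂ * C * D)) * (δ * q) := by
          refine mul_le_mul_of_nonneg_right ?_ (mul_nonneg hδ0 hq0)
          have : 0 ≤ M₂ * C := mul_nonneg hM₂0 hC0
          linarith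

end Pool.Agent.CSG
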