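import Pool.Agent.Work.MP_13b5d9_gt.CS.Stmts

set_option autoImplicit false

/-!
# MP_13b5d9_gt, block CS, item Rec: recurrence of the geodesic flow modulo the group
-/

open MeasureTheory Set Filter Topology
open scoped ContDiff ENNReal
open Pool.Agent.Work.MP_c9f990_an.Al (IsFlow)

namespace Pool.Agent.CSG

open Pool.Agent.MLS Pool.Agent.STR Pool.Agent.LQR Pool.Agent.PIN Pool.Agent.AV

namespace IRec

/-- energy is constant along the flow -/
lemma en (hGeo : StGeo1) {n : ℕ} {g : Form n} (hg : Riem g) {φ : ℝ → W n → W n}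
    {M : ℝ → W n → W n →L[ℝ] W n} (hφ : IsFlow (XH (Hm g)) φ M) (t : ℝ) (z : W n) :
    Hm g (φ t z) = Hm g z := by
  have h := (hGeo n g hg (fun s => φ s z) (fun t => hφ.ode z t)).2.2 t
  simpa [hφ.zero] using h

/-- a sum of indicators at most one of which is nonzero -/
lemma sum_le (S : Set ℕ) (N : ℕ) (h : ∀ i j, i < j → ¬ (i ∈ S ∧ j ∈ S)) :
    ∑ i ∈ Finset.range N, S.indicator (1 : ℕ → ℝ≥0∞) i ≤ 1 := by
  classical
  by_cases hex : ∃ i ∈ Finset.range N, i ∈ S
  · obtain ⟨i, hi, hiS⟩ := hex
    rw [Finset.sum_eq_single i]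
    · simp [hiS]
    · intro j _ hji
      refine indicator_of_notMem ?_ _
      intro hjS
      rcases lt_or_gt_of_ne hji with h1 | h1
      · exact h j i h1 ⟨hjS, hiS⟩
      · exact h i j h1 ⟨hiS, hjS⟩
    · intro h1
      exact absurd hi h1
  · push Not at hex
    rw [Finset.sum_eq_zero]
    · exact zero_le_one
    · intro i hi
      exact indicator_of_notMem (hex i hi) _

end IRec

theorem pr_Rec (hAvg : StAvg) (hPU : StPU) (hSub : StSub) (hLft : StLftA) (hEq : StEqF)
    (hGeo : StGeo1) (hOp : StOp) : CsRec := by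
  classical
  intro n G _ _ hC g hg hI φ M hφ U T₀ hU hne hT₀
  by_contra hcon
  push Not at hcon
  obtain ⟨z0, hz0⟩ := hne
  obtain ⟨-, hHm, hmul, hone, hcont⟩ := hLft n G hC g hg hI
  have hHc : Continuous (Hm g) := (hOp n g hg).2.2.2.2.2.2.2.1.continuous
  obtain ⟨χ, hχ⟩ := hPU n G hC
  have hχc : Continuous χ := hχ.smooth.continuous
  set R : ℝ := Hm g z0 + 1 with hR
  set B : Set (W n) := {w | Hm g w < R} with hB
  have hBo : IsOpen B := isOpen_lt hHc continuous_const
  set S : Set (W n) := {w | ∃ a : G, lft g a w ∈ U ∩ B} with hS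
  have hSo : IsOpen S := by
    have : S = ⋃ a : G, (lft g a) ⁻¹' (U ∩ B) := by
      ext w
      simp [hS]
    rw [this]
    exact isOpen_iUnion fun a => (hU.inter hBo).preimage (hcont a)
  have hSB : ∀ w ∈ S, Hm g w < R := by
    rintro w ⟨a, ha⟩
    have := ha.2
    change Hm g (lft g a w) < R at this
    rwa [hHm] at this
  have hSinv : ∀ (a : G) (w : W n), lft g a w ∈ S ↔ w ∈ S := by
    intro a w
    constructor
    · rintro ⟨b, hb⟩
      exact ⟨b * a, by rw [hmul]; exact hb⟩
    · rintro ⟨b, hb⟩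
      refine ⟨b * a⁻¹, ?_⟩
      rw [← hmul]
      simpa using hb
  -- no two visits
  have hdis : ∀ (z : W n) (i j : ℕ), i < j → ¬ (φ (i * T₀) z ∈ S ∧ φ (j * T₀) z ∈ S) := by
    rintro z i j hij ⟨⟨b, hb⟩, ⟨c, hc⟩⟩
    have hT : T₀ ≤ ((j : ℝ) - i) * T₀ := by
      have h1 : (1 : ℝ) ≤ (j : ℝ) - i := by
        have : (i : ℝ) + 1 ≤ j := by exact_mod_cast hij
        linarith
      nlinarith
    have h2 : φ (((j : ℝ) - i) * T₀) (lft g b (φ (i * T₀) z)) = lft g b (φ (j * T₀) z) := by
      rw [hEq n G hC g hg hI φ M hφ, ← hφ.add]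
      congr 2
      ring
    refine hcon (lft g b (φ (i * T₀) z)) hb.1 _ hT (c * b⁻¹) ?_
    rw [h2, ← hmul]
    simpa using hc.1
  set F : W n → ℝ≥0∞ := S.indicator 1 with hF
  have hFm : Measurable F := measurable_one.indicator hSo.measurableSet
  have hFinv : ∀ (a : G) (z : W n), F (lft g a z) = F z := by
    intro a z
    by_cases h : z ∈ S
    · rw [hF, indicator_of_mem h, indicator_of_mem ((hSinv a z).2 h)]
      rfl
    · rw [hF, indicator_of_notMem h, indicator_of_notMem (fun h' => h ((hSinv a z).1 h'))]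
  have hAv := hAvg n G hC g hg hI φ M hφ χ hχ F hFm hFinv
  have hφc : ∀ t, Continuous (φ t) := fun t =>
    hφ.cont.comp (continuous_const.prodMk continuous_id)
  have hχm : Measurable fun z : W n => ENNReal.ofReal (χ z.1) :=
    (ENNReal.continuous_ofReal.comp (hχc.comp continuous_fst)).measurable
  -- the bound
  have hbd : ∀ N : ℕ, (N : ℝ≥0∞) * (∫⁻ z : W n, ENNReal.ofReal (χ z.1) * F z) ≤
      ∫⁻ z : W n, ENNReal.ofReal (χ z.1) * B.indicator 1 z := by
    intro N
    calc (N : ℝ≥0∞) * (∫⁻ z : W n, ENNReal.ofReal (χ z.1) * F z)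
        = ∑ i ∈ Finset.range N, ∫⁻ z : W n, ENNReal.ofReal (χ z.1) * F (φ (i * T₀) z) := by
          simp only [hAv, Finset.sum_const, Finset.card_range, nsmul_eq_mul]
      _ = ∫⁻ z : W n, ∑ i ∈ Finset.range N, ENNReal.ofReal (χ z.1) * F (φ (i * T₀) z) := by
          rw [lintegral_finsetSum]
          intro i _
          exact hχm.mul (hFm.comp (hφc _).measurable)
      _ ≤ ∫⁻ z : W n, ENNReal.ofReal (χ z.1) * B.indicator 1 z := by
          refine lintegral_mono fun z => ?_
          rw [← Finset.mul_sum]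
          refine mul_le_mul_right ?_ _
          by_cases hz : z ∈ B
          · rw [indicator_of_mem hz]
            have := IRec.sum_le {i : ℕ | φ (i * T₀) z ∈ S} N (hdis z)
            refine le_trans (le_of_eq (Finset.sum_congr rfl fun i _ => ?_)) this
            rfl
          · rw [indicator_of_notMem hz, Finset.sum_eq_zero]
            intro i _
            refine indicator_of_notMem ?_ _
            intro h
            refine hz ?_
            have := hSB _ h
            rwa [IRec.en hGeo hg hφ] at this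
  -- finiteness
  have hfin : ∫⁻ z : W n, ENNReal.ofReal (χ z.1) * B.indicator 1 z < ⊤ := by
    obtain ⟨C, hCb⟩ := hχ.cpt.exists_bound_of_continuous hχc
    have hK : IsCompact {z : W n | z.1 ∈ tsupport χ ∧ Hm g z ≤ R} := hSub n g hg _ R hχ.cpt
    calc ∫⁻ z : W n, ENNReal.ofReal (χ z.1) * B.indicator 1 z
        ≤ ∫⁻ z : W n, {z : W n | z.1 ∈ tsupport χ ∧ Hm g z ≤ R}.indicator
            (fun _ => ENNReal.ofReal C) z := by
          refine lintegral_mono fun z => ?_
          by_cases h1 : z.1 ∈ tsupport χ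
          · by_cases h2 : z ∈ B
            · have h3 : z ∈ {z : W n | z.1 ∈ tsupport χ ∧ Hm g z ≤ R} := ⟨h1, le_of_lt h2⟩
              rw [indicator_of_mem h2, indicator_of_mem h3]
              simp only [Pi.one_apply, mul_one]
              exact ENNReal.ofReal_le_ofReal (le_trans (le_abs_self _) (hCb _))
            · rw [indicator_of_notMem h2]
              simp
          · rw [image_eq_zero_of_notMem_tsupport h1]
            simp
      _ = ENNReal.ofReal C * volume {z : W n | z.1 ∈ tsupport χ ∧ Hm g z ≤ R} := by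
          rw [lintegral_indicator_const hK.measurableSet]
      _ < ⊤ := ENNReal.mul_lt_top ENNReal.ofReal_lt_top hK.measure_lt_top
  -- positivity
  have hpos : 0 < ∫⁻ z : W n, ENNReal.ofReal (χ z.1) * F z := by
    have hex : ∃ a : G, 0 < χ (a • z0.1) := by
      by_contra hno
      push Not at hno
      have h0 : ∀ a : G, χ (a • z0.1) = 0 := fun a => le_antisymm (hno a) (hχ.nonneg _)
      have h1 := hχ.sum z0.1
      simp only [h0] at h1
      exact zero_ne_one (hasSum_zero.unique h1)
    obtain ⟨a, ha⟩ := hex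
    have hO : IsOpen ({z : W n | 0 < χ z.1} ∩ S) :=
      (isOpen_lt continuous_const (hχc.comp continuous_fst)).inter hSo
    have hmem : lft g a z0 ∈ ({z : W n | 0 < χ z.1} ∩ S) := by
      refine ⟨ha, (hSinv a z0).2 ⟨1, ?_⟩⟩
      rw [hone]
      refine ⟨hz0, ?_⟩
      change Hm g z0 < R
      linarith
    have hm2 : Measurable fun z : W n => ENNReal.ofReal (χ z.1) * F z := hχm.mul hFm
    rw [lintegral_pos_iff_support hm2]
    refine lt_of_lt_of_le (hO.measure_pos volume ⟨_, hmem⟩) (measure_mono ?_)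
    rintro z ⟨h1, h2⟩
    rw [Function.mem_support, hF, indicator_of_mem h2]
    simpa using h1
  -- contradiction
  obtain ⟨N, hN⟩ := ENNReal.exists_nat_mul_gt hpos.ne' hfin.ne
  exact absurd (hbd N) (not_le.2 hN)

end Pool.Agent.CSG
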