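import Pool.Agent.Work.MP_13b5d9_gt.CS.Stmts

set_option autoImplicit false

/-!
# MP_13b5d9_gt, block CS, item RecN: many returns
-/

open MeasureTheory Set Filter Topology
open scoped ContDiff ENNReal
open Pool.Agent.Work.MP_c9f990_an.Al (IsFlow)

namespace Pool.Agent.CSG

open Pool.Agent.MLS Pool.Agent.STR Pool.Agent.LQR Pool.Agent.PIN Pool.Agent.AV

theorem pr_RecN (hR : CsRec) (hA : MLS.StLftA) (hE : MLS.StEqF) : CsRecN := by
  intro n G _ _ hc g hg hI φ M hφ N
  obtain ⟨-, -, hmul, hone, hcont⟩ := hA n G hc g hg hI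
  have heq := hE n G hc g hg hI φ M hφ
  induction N with
  | zero =>
    intro U T₀ hU hne hT
    obtain ⟨w, hw⟩ := hne
    refine ⟨w, fun i => (i : ℝ) * T₀, fun _ => 1, fun i => ?_, fun i hi => ?_⟩
    · push_cast
      linarith
    · have h0 : i = 0 := Nat.le_zero.mp hi
      subst h0
      have : ((0 : ℕ) : ℝ) * T₀ = 0 := by simp
      show lft g (1 : G) (φ (((0 : ℕ) : ℝ) * T₀) w) ∈ U
      rw [this, hφ.zero, hone]
      exact hw
  | succ N ih =>
    intro U T₀ hU hne hT
    obtain ⟨u, hu, S, hS, b, hb⟩ := hR n G hc g hg hI φ M hφ U T₀ hU hne hT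
    have hcs : Continuous (fun v : W n => lft g b (φ S v)) :=
      (hcont b).comp (hφ.cont.comp (continuous_const.prodMk continuous_id))
    have hU1 : IsOpen (U ∩ (fun v : W n => lft g b (φ S v)) ⁻¹' U) :=
      hU.inter (hU.preimage hcs)
    obtain ⟨w, T, a, hTs, hw⟩ := ih _ T₀ hU1 ⟨u, hu, hb⟩ hT
    refine ⟨w, fun i => if i ≤ N then T i else T N + S + ((i : ℝ) - N - 1) * T₀,
      fun i => if i ≤ N then a i else b * a N, fun i => ?_, fun i hi => ?_⟩
    · rcases lt_trichotomy i N with h | h | h
      · have h1 : i ≤ N := h.le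
        have h2 : i + 1 ≤ N := h
        simp only [h1, h2, if_true]
        exact hTs i
      · subst h
        have h2 : ¬ (i + 1 ≤ i) := by omega
        simp only [le_refl, h2, if_true, if_false]
        push_cast
        linarith
      · have h1 : ¬ (i ≤ N) := by omega
        have h2 : ¬ (i + 1 ≤ N) := by omega
        simp only [h1, h2, if_false]
        push_cast
        linarith
    · by_cases h : i ≤ N
      · simp only [h, if_true]
        exact (hw i h).1
      · have h1 : i = N + 1 := by omega
        subst h1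
        simp only [h, if_false]
        have h2 : T N + S + (((N + 1 : ℕ) : ℝ) - N - 1) * T₀ = S + T N := by
          push_cast
          ring
        rw [h2, hφ.add, hmul, ← heq]
        exact (hw N le_rfl).2

end Pool.Agent.CSG
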