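import Pool.Agent.Work.MP_13b5d9_gt.CS.Stmts

set_option autoImplicit false

/-!
# MP_13b5d9_gt, block CS, item Shf: shifts and group elements
-/

open MeasureTheory Set Filter Topology
open scoped ContDiff ENNReal
open Pool.Agent.Work.MP_c9f990_an.Al (IsFlow)

namespace Pool.Agent.CSG

open Pool.Agent.MLS Pool.Agent.STR Pool.Agent.LQR Pool.Agent.PIN Pool.Agent.AV

namespace IShf

theorem deriv_shift {n : ℕ} (c : ℝ → E n) (r t : ℝ) :
    deriv (fun t => c (t + r)) t = deriv c (t + r) := deriv_comp_add_const c r t

theorem geo_shift {n : ℕ} {g : Form n} {c : ℝ → E n} (hc : IsGeo g c) (r : ℝ) :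
    IsGeo g (fun t => c (t + r)) := by
  constructor
  · exact hc.smooth.comp (contDiff_id.add contDiff_const)
  · intro t w
    have h1 := (hc.el (t + r) w).comp_add_const t r
    have h2 : (fun s => g.val (c (s + r)) (deriv (fun t => c (t + r)) s) w) =
        fun s => g.val (c (s + r)) (deriv c (s + r)) w := by
      funext s
      rw [deriv_shift]
    rw [h2, deriv_shift]
    exact h1

theorem deriv_act {n : ℕ} {G : Type} [Group G] [MulAction G (E n)] (hC : Cocompact n G)
    {c : ℝ → E n} (hc : ContDiff ℝ 2 c) (a : G) (t : ℝ) :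
    deriv (fun t => a • c t) t = dac a (c t) (deriv c t) := by
  have h1 : DifferentiableAt ℝ (fun y : E n => a • y) (c t) :=
    ((hC.smooth a).differentiable (by simp)) (c t)
  have h2 : DifferentiableAt ℝ c t := (hc.differentiable (by norm_num)) t
  have h3 := h1.hasFDerivAt.comp_hasDerivAt t h2.hasDerivAt
  exact h3.deriv

end IShf

theorem pr_Shf (hE : StEqG) (hI : StInvD) : CsShf := by
  intro n G _ _ hC g hg hinv z hz l V τ ψ hA c hc
  refine ⟨fun r => ⟨⟨IShf.geo_shift hc.geo r, fun t => ?_⟩, IShf.deriv_shift c r, fun t => ?_,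
    fun e he k s t hst => ?_⟩, fun a => ?_⟩
  · rw [IShf.deriv_shift]
    exact hc.unit (t + r)
  · unfold ang
    rw [IShf.deriv_shift]
  · have h := he k (s + r) (t + r) (by linarith)
    have h2 : t - s = t + r - (s + r) := by ring
    rw [h2]
    exact h
  · have hd := IShf.deriv_act hC hc.geo.smooth a
    refine ⟨⟨hE n G hC g hg hinv a c hc.geo, fun t => ?_⟩, hd, fun t => ?_,
      fun e he k s t hst => ?_⟩
    · rw [hd, hinv]
      exact hc.unit t
    · unfold ang
      rw [hd, hA.inv, hinv]
    · have h := he k s t hst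
      have h1 : z ^ k • a • c t = a • z ^ k • c t := by
        rw [smul_smul, smul_smul]
        have h2 : Commute z a := (hz a).symm
        rw [(h2.zpow_left k).eq]
      have h3 := (hI n G hC g hinv).2 a (c s) (z ^ k • c t)
      change t - s + e * (k * l) ≤ gd g (a • c s) (z ^ k • a • c t)
      rw [h1, h3]
      exact h

end Pool.Agent.CSG
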