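import Pool.Agent.Work.MP_13b5d9_gt.CS.Stmts

set_option autoImplicit false

/-!
# MP_13b5d9_gt, block CS, item Str: straightening
-/

open MeasureTheory Set Filter Topology
open scoped ContDiff ENNReal
open Pool.Agent.Work.MP_c9f990_an.Al (IsFlow)

namespace Pool.Agent.CSG

open Pool.Agent.MLS Pool.Agent.STR Pool.Agent.LQR Pool.Agent.PIN Pool.Agent.AV

namespace IStr

/-- Expansion of a quadratic form. -/
theorem expand {n : ℕ} (g : Form n) (x p q : E n) (a : ℝ) :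
    g.val x (a • p + q) (a • p + q) =
      a ^ 2 * g.val x p p + 2 * a * g.val x p q + g.val x q q := by
  have h := g.symm x q p
  simp only [map_add, map_smul, add_apply, smul_apply, smul_eq_mul]
  rw [h]
  ring

/-- The bound of the transported velocity. -/
theorem bound {n : ℕ} {G : Type} [Group G] [MulAction G (E n)] {g : Form n} {z : G} {l : ℝ}
    {V : E n → E n} {τ : E n → ℝ} {ψ : ℝ → E n → E n} (hLV : PiLV) (hA : Axis n G g z l V τ ψ)
    {C : ℝ} (hC : ∀ (r : ℝ) (x w : E n),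
      g.val (ψ r x) (fderiv ℝ (ψ r) x w) (fderiv ℝ (ψ r) x w) ≤ C ^ 2 * g.val x w w)
    (r : ℝ) (x v : E n) (q : ℝ) (hv : g.val x v v = q) :
    g.val (ψ r x) (fderiv ℝ (ψ r) x v) (fderiv ℝ (ψ r) x v) ≤
      g.val x (V x) v ^ 2 + C ^ 2 * q := by
  obtain ⟨h1, h2, -⟩ := hLV n G g z l V τ ψ hA
  obtain ⟨a, ha⟩ : ∃ a, a = g.val x (V x) v := ⟨_, rfl⟩
  obtain ⟨w, hw⟩ : ∃ w, w = v - a • V x := ⟨_, rfl⟩
  have hvw : v = a • V x + w := by rw [hw]; abel
  have hVw : g.val x (V x) w = 0 := by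
    rw [hw, map_sub, map_smul, smul_eq_mul, hA.unit x, ← ha]
    ring
  have hww : g.val x w w = q - a ^ 2 := by
    have h3 := expand g x (V x) w a
    rw [← hvw, hv, hVw, hA.unit x] at h3
    linarith
  have hD : fderiv ℝ (ψ r) x v = a • V (ψ r x) + fderiv ℝ (ψ r) x w := by
    conv_lhs => rw [hvw]
    rw [map_add, map_smul, h1 r x]
  have h4 : g.val (ψ r x) (V (ψ r x)) (fderiv ℝ (ψ r) x w) = 0 := by
    rw [h2 r x w, hVw]
  have h5 := hC r x w
  rw [hww] at h5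
  rw [hD, expand, h4, hA.unit, ← ha]
  have h6 : 0 ≤ C ^ 2 * a ^ 2 := by positivity
  nlinarith

end IStr

/-- [Str] straightening -/
theorem pr_Str (hVar : PiVar) (hLV : PiLV) (hGd : StGd) (hG1 : StGeo1) (hOp : StOp) : CsStr := by
  intro n G _ _ g φ M lg hR hF hlg z l V τ ψ hA C hC x y h
  obtain ⟨v, hv⟩ : ∃ v, v = lg x y := ⟨_, rfl⟩
  obtain ⟨w0, hw0⟩ : ∃ w0 : W n, w0 = (x, op g x v) := ⟨_, rfl⟩
  obtain ⟨hgeo, hvel, hen⟩ := hG1 n g hR (fun t => φ t w0) (fun t => hF.ode w0 t)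
  obtain ⟨-, -, hio, -, -, -, -, -, hHm⟩ := hOp n g hR
  obtain ⟨β, hβ⟩ : ∃ β : ℝ → E n, β = fun t => (φ t w0).1 := ⟨_, rfl⟩
  rw [← hβ] at hgeo hvel
  have hβ0 : β 0 = x := by
    rw [hβ]
    show (φ 0 w0).1 = x
    rw [hF.zero, hw0]
  have hβ1 : β 1 = y := by
    rw [hβ, hw0, hv]
    exact hlg.exp_log x y
  have hc1 : ContDiff ℝ 1 β := hgeo.smooth.of_le (by norm_num)
  have hc' : Continuous (deriv β) := hc1.continuous_deriv le_rfl
  -- the speed of `β`
  have hsp : ∀ u, g.val (β u) (deriv β u) (deriv β u) = g.val x v v := by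
    intro u
    have e1 := hHm (φ u w0)
    have e2 := hHm w0
    have e3 := hen u
    have e5 : Hm g (φ u w0) = Hm g w0 := by
      have e4 : Hm g (φ u w0) = Hm g (φ 0 w0) := e3
      rw [hF.zero w0] at e4
      exact e4
    have e6 : vel g w0 = v := by
      rw [hw0]
      exact hio x v
    have e7 : w0.1 = x := by rw [hw0]
    rw [e1, e2, e6, e7] at e5
    have e8 : β u = (φ u w0).1 := by rw [hβ]
    rw [hvel u, e8]
    linarith
  have hd2 : gd g x y ^ 2 = g.val x v v := by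
    rw [hlg.dist x y, ← hv]
    exact Real.sq_sqrt (g.nonneg x v)
  rw [hd2]
  -- the function `f`
  obtain ⟨H, hH⟩ : ∃ H : ℝ, H = h + τ y - τ x := ⟨_, rfl⟩
  rw [← hH]
  obtain ⟨f, hf⟩ : ∃ f : ℝ → ℝ, f = fun u => H * u - (τ (β u) - τ x) := ⟨_, rfl⟩
  have hτ1 : ContDiff ℝ 1 τ := hA.smoothT.of_le (by simp)
  have hf1 : ContDiff ℝ 1 f := by
    rw [hf]
    exact (contDiff_const.mul contDiff_id).sub ((hτ1.comp hc1).sub contDiff_const)
  have hdf : ∀ u, deriv f u = H - g.val (β u) (V (β u)) (deriv β u) := by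
    intro u
    have d1 : HasDerivAt β (deriv β u) u :=
      (hc1.differentiable (by norm_num) u).hasDerivAt
    have d2 : HasFDerivAt τ (fderiv ℝ τ (β u)) (β u) :=
      (hτ1.differentiable (by norm_num) (β u)).hasFDerivAt
    have d3 : HasDerivAt (fun u => τ (β u)) (fderiv ℝ τ (β u) (deriv β u)) u :=
      d2.comp_hasDerivAt u d1
    have d4 : HasDerivAt (fun u : ℝ => H * u) (H * 1) u := (hasDerivAt_id u).const_mul H
    have d5 : HasDerivAt f (H * 1 - fderiv ℝ τ (β u) (deriv β u)) u := by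
      rw [hf]
      exact d4.sub (d3.sub_const _)
    rw [d5.deriv, mul_one, hA.grad]
  have hf0 : f 0 = 0 := by
    rw [hf]
    show H * 0 - (τ (β 0) - τ x) = 0
    rw [hβ0]
    ring
  have hf1' : f 1 = h := by
    rw [hf]
    show H * 1 - (τ (β 1) - τ x) = h
    rw [hβ1, hH]
    ring
  obtain ⟨hγ, hspd⟩ := hVar n G g z l V τ ψ hA β f hc1 hf1 1
  simp only [one_mul] at hγ hspd
  have hγ' : Continuous (deriv fun u => ψ (f u) (β u)) := hγ.continuous_deriv le_rfl
  have hle := (hGd n g).2.2.2 (fun u => ψ (f u) (β u)) 0 1 hγ zero_le_one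
  have hn : Continuous fun u => nrm g (ψ (f u) (β u)) (deriv (fun u => ψ (f u) (β u)) u) := by
    unfold nrm
    exact Real.continuous_sqrt.comp (((g.smooth.continuous.comp hγ.continuous).clm_apply
      hγ').clm_apply hγ')
  have hbd : ∀ u, nrm g (ψ (f u) (β u)) (deriv (fun u => ψ (f u) (β u)) u) ≤
      Real.sqrt (H ^ 2 + C ^ 2 * g.val x v v) := by
    intro u
    unfold nrm
    refine Real.sqrt_le_sqrt ?_
    rw [hspd u]
    have hb := IStr.bound hLV hA hC (f u) (β u) (deriv β u) (g.val x v v) (hsp u)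
    rw [hdf u]
    nlinarith [hb]
  have hint : ∫ u in (0 : ℝ)..1, nrm g (ψ (f u) (β u)) (deriv (fun u => ψ (f u) (β u)) u) ≤
      ∫ _u in (0 : ℝ)..1, Real.sqrt (H ^ 2 + C ^ 2 * g.val x v v) :=
    intervalIntegral.integral_mono_on zero_le_one (hn.intervalIntegrable _ _)
      (continuous_const.intervalIntegrable _ _) fun u _ => hbd u
  rw [intervalIntegral.integral_const] at hint
  simp only [sub_zero, one_smul] at hint
  have hends : gd g (ψ (f 0) (β 0)) (ψ (f 1) (β 1)) = gd g x (ψ h y) := by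
    rw [hf0, hf1', hβ0, hβ1, hA.zero]
  have hfin : gd g x (ψ h y) ≤ Real.sqrt (H ^ 2 + C ^ 2 * g.val x v v) := by
    rw [← hends]
    exact hle.trans hint
  have h0 : 0 ≤ gd g x (ψ h y) := (hGd n g).2.1.nonneg _ _
  have hq : 0 ≤ H ^ 2 + C ^ 2 * g.val x v v :=
    add_nonneg (sq_nonneg _) (mul_nonneg (sq_nonneg _) (g.nonneg x v))
  calc gd g x (ψ h y) ^ 2 ≤ Real.sqrt (H ^ 2 + C ^ 2 * g.val x v v) ^ 2 :=
        pow_le_pow_left₀ h0 hfin 2
    _ = H ^ 2 + C ^ 2 * g.val x v v := Real.sq_sqrt hq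

end Pool.Agent.CSG
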