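import Pool.Agent.Work.MP_13b5d9_gt.CS.Stmts

set_option autoImplicit false

/-!
# MP_13b5d9_gt, block CS, item UpE: upper bound of `e`
-/

open MeasureTheory Set Filter Topology
open scoped ContDiff ENNReal
open Pool.Agent.Work.MP_c9f990_an.Al (IsFlow)

namespace Pool.Agent.CSG

open Pool.Agent.MLS Pool.Agent.STR Pool.Agent.LQR Pool.Agent.PIN Pool.Agent.AV

namespace IUpE

/-- The elementary inequality. -/
theorem sqrt_le (C a : ℝ) (ha : |a| ≤ 1) :
    Real.sqrt ((a + (1 + 2 * C ^ 2)) ^ 2 + C ^ 2 * (1 - a ^ 2)) ≤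
      (1 + 2 * C ^ 2) + 1 - (1 - a) / 2 := by
  obtain ⟨h1, h2⟩ := abs_le.1 ha
  have hC := sq_nonneg C
  obtain ⟨D, hD⟩ : ∃ D, D = C ^ 2 := ⟨_, rfl⟩
  rw [← hD] at hC ⊢
  refine Real.sqrt_le_iff.2 ⟨by linarith, ?_⟩
  nlinarith [mul_nonneg hC (mul_nonneg (sub_nonneg.2 h2) (sub_nonneg.2 h2)),
    mul_nonneg (sub_nonneg.2 h2) (sub_nonneg.2 h2), mul_nonneg hC (sub_nonneg.2 h2),
    mul_nonneg (sub_nonneg.2 h2) (by linarith : (0 : ℝ) ≤ 1 + a)]

end IUpE

/-- [UpE] upper bound of `e` -/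
theorem pr_UpE (hAng : CsAng) (hDps : CsDps) (hTwi : CsTwi) : CsUpE := by
  intro n G _ _ hco g hR hI z l V τ ψ hA
  obtain ⟨K, hK, hang⟩ := hAng n G hco g hR hI z l V τ ψ hA
  obtain ⟨C, hC1, hC⟩ := hDps n G hco g hR hI z l V τ ψ hA
  have hl := hA.pos
  obtain ⟨σ, hσ⟩ : ∃ σ, σ = 1 + 2 * C ^ 2 := ⟨_, rfl⟩
  have hσ0 : 0 < σ := by
    rw [hσ]
    have := sq_nonneg C
    linarith
  obtain ⟨T, hT⟩ : ∃ T, T = l / (2 * σ) := ⟨_, rfl⟩
  have hT0 : 0 < T := by rw [hT]; positivity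
  have hTl : 2 * σ * T = l := by
    rw [hT]
    field_simp
  refine ⟨T * Real.exp (-(K * T)) / l, by positivity, fun c hU e hcal t => ?_⟩
  obtain ⟨ac, ab, -, aexp⟩ := hang c hU
  have hst : t - T ≤ t + T := by linarith
  have h1 := hTwi n G g z l V τ ψ hA C hC c hU σ (-(σ * (t - T))) (t - T) (t + T) hst
  have e1 : σ * (t - T) + -(σ * (t - T)) = 0 := by ring
  have e2 : σ * (t + T) + -(σ * (t - T)) = l := by rw [← hTl]; ring
  rw [e1, e2, hA.zero, hA.period] at h1
  have hexp : ∀ u ∈ Icc (t - T) (t + T),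
      Real.exp (-(K * T)) * (1 - ang g V c t) ≤ 1 - ang g V c u := by
    intro u hu
    have h2 := aexp u t
    have h3 : |t - u| ≤ T := abs_le.2 ⟨by linarith [hu.2], by linarith [hu.1]⟩
    have h4 : 0 ≤ 1 - ang g V c u := by linarith [(abs_le.1 (ab u)).2]
    have h5 : Real.exp (K * |t - u|) ≤ Real.exp (K * T) :=
      Real.exp_le_exp.2 (mul_le_mul_of_nonneg_left h3 hK)
    have h6 : 1 - ang g V c t ≤ Real.exp (K * T) * (1 - ang g V c u) :=
      h2.trans (mul_le_mul_of_nonneg_right h5 h4)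
    have h7 := mul_le_mul_of_nonneg_left h6 (Real.exp_pos (-(K * T))).le
    rw [← mul_assoc, ← Real.exp_add, neg_add_cancel, Real.exp_zero, one_mul] at h7
    exact h7
  have hcont : Continuous fun u => Real.sqrt ((ang g V c u + σ) ^ 2 +
      C ^ 2 * (1 - ang g V c u ^ 2)) :=
    Real.continuous_sqrt.comp (((ac.add continuous_const).pow 2).add
      (continuous_const.mul (continuous_const.sub (ac.pow 2))))
  have h8 : ∫ u in (t - T)..(t + T), Real.sqrt ((ang g V c u + σ) ^ 2 +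
      C ^ 2 * (1 - ang g V c u ^ 2)) ≤
      ∫ _u in (t - T)..(t + T), (σ + 1 - Real.exp (-(K * T)) * (1 - ang g V c t) / 2) := by
    refine intervalIntegral.integral_mono_on hst (hcont.intervalIntegrable _ _)
      (continuous_const.intervalIntegrable _ _) fun u hu => ?_
    have h9 := IUpE.sqrt_le C (ang g V c u) (ab u)
    rw [← hσ] at h9
    have h10 := hexp u hu
    linarith
  rw [intervalIntegral.integral_const, smul_eq_mul] at h8
  have h11 := hcal 1 (t - T) (t + T) hst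
  rw [zpow_one, Int.cast_one, one_mul] at h11
  have h12 : T * (Real.exp (-(K * T)) * (1 - ang g V c t)) ≤ l * (1 - e) := by
    have h13 := h11.trans (h1.trans h8)
    have h14 : (t + T - (t - T)) * (σ + 1 - Real.exp (-(K * T)) * (1 - ang g V c t) / 2) =
        2 * σ * T + 2 * T - T * (Real.exp (-(K * T)) * (1 - ang g V c t)) := by ring
    rw [h14, hTl] at h13
    linarith
  have h15 : T * Real.exp (-(K * T)) / l * (1 - ang g V c t) =
      T * (Real.exp (-(K * T)) * (1 - ang g V c t)) / l := by ring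
  rw [h15, div_le_iff₀ hl]
  linarith

end Pool.Agent.CSG
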