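import Pool.Agent.Work.MP_13b5d9_gt.CS.Stmts

set_option autoImplicit false

/-!
# MP_13b5d9_gt, block CS, item Xp: the expansion of the excess
-/

open MeasureTheory Set Filter Topology
open scoped ContDiff ENNReal
open Pool.Agent.Work.MP_c9f990_an.Al (IsFlow)

namespace Pool.Agent.CSG

open Pool.Agent.MLS Pool.Agent.STR Pool.Agent.LQR Pool.Agent.PIN Pool.Agent.AV

namespace IXp

/-- continuity of the energy density of a `C^1` curve -/
theorem cont_en {n : ℕ} (g : Form n) {c : ℝ → E n} (hc : ContDiff ℝ 1 c) :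
    Continuous (fun t => g.val (c t) (deriv c t) (deriv c t)) := by
  have h3 : Continuous (deriv c) := hc.continuous_deriv (by norm_num)
  have h4 : Continuous (fun t => g.val (c t)) := g.smooth.continuous.comp hc.continuous
  exact (h4.clm_apply h3).clm_apply h3

/-- length and energy -/
theorem len_le {n : ℕ} (g : Form n) {c : ℝ → E n} (hc : ContDiff ℝ 1 c) {S : ℝ} (hS : 0 ≤ S) :
    (∫ t in (0 : ℝ)..S, nrm g (c t) (deriv c t)) ≤
      1 / 2 * (S + ∫ t in (0 : ℝ)..S, g.val (c t) (deriv c t) (deriv c t)) := by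
  have hq := cont_en g hc
  have h1 : (∫ t in (0 : ℝ)..S, nrm g (c t) (deriv c t)) ≤
      ∫ t in (0 : ℝ)..S, 1 / 2 * (1 + g.val (c t) (deriv c t) (deriv c t)) := by
    apply intervalIntegral.integral_mono_on hS
    · exact (Real.continuous_sqrt.comp hq).intervalIntegrable _ _
    · exact (continuous_const.mul (continuous_const.add hq)).intervalIntegrable _ _
    · intro t _
      unfold nrm
      have h0 := g.nonneg (c t) (deriv c t)
      nlinarith [sq_nonneg (Real.sqrt (g.val (c t) (deriv c t) (deriv c t)) - 1),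
        Real.sq_sqrt h0, Real.sqrt_nonneg (g.val (c t) (deriv c t) (deriv c t))]
  refine h1.trans (le_of_eq ?_)
  rw [intervalIntegral.integral_const_mul, intervalIntegral.integral_add
    (continuous_const.intervalIntegrable _ _) (hq.intervalIntegrable _ _),
    intervalIntegral.integral_const]
  simp

theorem cont_ang {n : ℕ} (g : Form n) {V : E n → E n} (hV : ContDiff ℝ ∞ V) {c : ℝ → E n}
    (hc : ContDiff ℝ 2 c) : Continuous (ang g V c) := by
  have h3 : Continuous (deriv c) := hc.continuous_deriv (by norm_num)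
  have h4 : Continuous (fun t => g.val (c t)) := g.smooth.continuous.comp hc.continuous
  have h5 : Continuous (fun t => V (c t)) := hV.continuous.comp hc.continuous
  exact (h4.clm_apply h5).clm_apply h3

end IXp

theorem pr_Xp (hCy : CsCy) (hRa : CsRa) (hRc : CsRc) (hMu : CsMu) (hEn : StEn) (hGd : StGd)
    (hSi : StSi) : CsXp := by
  intro n G _ _ hC g hg hinv z l V τ ψ hA gr gb hAv K N N' hK hN hN'
  obtain ⟨C1, hC1, h1⟩ := hCy n G hC g hg hinv z l V τ ψ hA gr gb hAv K N N' hK hN hN'
  have hl := hA.pos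
  have hN0 : (0 : ℝ) < N := by exact_mod_cast hN
  have hN'0 : (0 : ℝ) < N' := by exact_mod_cast hN'
  have hT : 0 < (N : ℝ) * l := by positivity
  have hS : 0 < (N' : ℝ) * l := by positivity
  obtain ⟨C2, hC2, h2⟩ := hRc n G hC g hg hinv z l V τ ψ hA gr hAv.fam hAv.pull K (N * l) hK hT
  refine ⟨C1 / 2 + N * l * C2 / 2, by positivity, fun c hc hcK => ?_⟩
  obtain ⟨Y, hY, hY0, hYS, hYI⟩ := h1 c hc hcK
  obtain ⟨-, h2'⟩ := h2 c hc hcK (fun t => ψ (-t) (c t)) (fun t => rfl)
  obtain ⟨hX0, -, -, -, hXτ⟩ := hRa n G g z l V τ ψ gr hA hAv.fam hAv.pull c hc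
    (fun t => ψ (-t) (c t)) (fun t => rfl)
  obtain ⟨hβ, hβI⟩ := hEn n G g z l V τ ψ gr hA hAv.fam hAv.pull Y hY
  set T : ℝ := (N : ℝ) * l with hTdef
  set S : ℝ := (N' : ℝ) * l with hSdef
  set δ : ℝ := (1 - ang g V c 0) * Real.sqrt (1 - ang g V c 0) with hδ
  set p0 : E n := op g (c 0) (deriv c 0 - V (c 0)) with hp0
  have hP : pb g gb V (c 0) (deriv c 0) = inner ℝ p0 (iop gb (c 0) p0) := rfl
  set P : ℝ := pb g gb V (c 0) (deriv c 0) with hPdef
  -- the ends of the competitor
  have hL := (hGd n g).2.2.2 (fun t => ψ t (Y t)) 0 S hβ hS.le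
  have e0 : ψ 0 (Y 0) = c 0 := by rw [hA.zero, hY0]
  have e1 : ψ S (Y S) = ψ (S - T) (c T) := by
    rw [hYS, ← hA.add]
    congr 1
  have hL2 : gd g (c 0) (ψ (S - T) (c T)) ≤
      ∫ t in (0 : ℝ)..S, nrm g (ψ t (Y t)) (deriv (fun t => ψ t (Y t)) t) := by
    rw [← e0, ← e1]
    exact hL
  have hL3 := IXp.len_le g hβ hS.le
  have hE := hβI 0 S
  -- the change of the height
  have hcont := IXp.cont_ang g hA.smoothV hc.geo.smooth
  have hτ : τ (Y S) - τ (Y 0) = ∫ u in (0 : ℝ)..T, (ang g V c u - 1) := by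
    have h := intervalIntegral.integral_eq_sub_of_hasDerivAt (a := 0) (b := T)
      (fun u _ => hXτ u) ((hcont.sub continuous_const).intervalIntegrable _ _)
    rw [h, hYS, hY0]
    rw [neg_zero, hA.zero]
  -- the integral of the angle
  have hcf : Continuous (fun u => inner ℝ p0 (iop (gr u) (c 0) p0)) := by
    have h3 : Continuous (fun u : ℝ => iop (gr u) (c 0)) :=
      (hSi n gr hAv.fam).1.continuous.comp (continuous_id.prodMk continuous_const)
    exact continuous_const.inner (h3.clm_apply continuous_const)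
  have hM := (hMu n G g l ψ gr gb hl hAv N (c 0) p0).2
  have hI : T * P - T * (C2 * δ) ≤ ∫ u in (0 : ℝ)..T, 2 * (1 - ang g V c u) := by
    have h3 : (∫ u in (0 : ℝ)..T, (inner ℝ p0 (iop (gr u) (c 0) p0) - C2 * δ)) ≤
        ∫ u in (0 : ℝ)..T, 2 * (1 - ang g V c u) := by
      apply intervalIntegral.integral_mono_on hT.le
      · exact (hcf.sub continuous_const).intervalIntegrable _ _
      · exact (continuous_const.mul (continuous_const.sub hcont)).intervalIntegrable _ _
      · intro u hu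
        have h4 := (h2' u hu).2
        rw [abs_le] at h4
        linarith [h4.1]
    rw [intervalIntegral.integral_sub (hcf.intervalIntegrable _ _)
      (continuous_const.intervalIntegrable _ _), intervalIntegral.integral_const] at h3
    rw [hM] at h3
    rw [hP]
    simp only [sub_zero, smul_eq_mul] at h3
    exact h3
  have hI2 : (∫ u in (0 : ℝ)..T, (ang g V c u - 1)) =
      -(1 / 2) * ∫ u in (0 : ℝ)..T, 2 * (1 - ang g V c u) := by
    rw [← intervalIntegral.integral_const_mul]
    congr 1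
    funext u
    ring
  have hfin : T / 2 * (1 - N / N') = T / 2 - 1 / 2 * (T ^ 2 / S) := by
    rw [hTdef, hSdef]
    field_simp
  have h5 : gd g (c 0) (ψ (S - T) (c T)) ≤
      1 / 2 * (S + ((S - 0) + 2 * (τ (Y S) - τ (Y 0)) +
        ∫ t in (0 : ℝ)..S, (gr t).val (Y t) (deriv Y t) (deriv Y t))) := by
    rw [← hE]
    exact hL2.trans hL3
  rw [hfin]
  rw [hτ, hI2] at h5
  nlinarith [h5, hI, hYI]

end Pool.Agent.CSG
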