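import Pool.Agent.Work.MP_13b5d9_gt.CS.Stmts

/-!
# Item Zp: powers of the central element and the flow
-/

set_option autoImplicit false

open MeasureTheory Set Filter Topology
open scoped ContDiff ENNReal
open Pool.Agent.Work.MP_c9f990_an.Al (IsFlow)

namespace Pool.Agent.CSG

open Pool.Agent.MLS Pool.Agent.STR Pool.Agent.LQR Pool.Agent.PIN Pool.Agent.AV

theorem pr_Zp : CsZp := by
  intro n G _ _ g hM z l V τ ψ h
  refine ⟨?_, ?_⟩
  · have hinv : ∀ x : E n, z⁻¹ • x = ψ (-l) x := by
      intro x
      have h1 : ψ (-l) (ψ l (z⁻¹ • x)) = z⁻¹ • x := by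
        rw [← h.add, neg_add_cancel, h.zero]
      rw [h.period, smul_inv_smul] at h1
      exact h1.symm
    intro k
    induction k using Int.induction_on with
    | zero =>
      intro x
      rw [zpow_zero, one_smul, Int.cast_zero, zero_mul, h.zero]
    | succ i ih =>
      intro x
      rw [zpow_add_one, mul_smul, ← h.period, ih, ← h.add]
      congr 1
      push_cast
      ring
    | pred i ih =>
      intro x
      rw [zpow_sub_one, mul_smul, hinv, ih, ← h.add]
      congr 1
      push_cast
      ring
  · intro r x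
    have hd : ∀ t, deriv (fun t => ψ t x) t = V (ψ t x) := fun t => (h.ode x t).deriv
    have h1 := hM (fun t => ψ t x) (h.geo x) (fun t => by rw [hd t]; exact h.unit (ψ t x)) 0 r
    have h2 : gd g (ψ 0 x) (ψ r x) = |0 - r| := h1
    rw [h.zero, zero_sub, abs_neg] at h2
    exact h2

end Pool.Agent.CSG
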