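import Pool.Agent.Work.MP_13b5d9_gt.CS.I_Spd
import Pool.Agent.Work.MP_13b5d9_gt.CS.I_Ini
import Pool.Agent.Work.MP_13b5d9_gt.CS.I_Zp
import Pool.Agent.Work.MP_13b5d9_gt.CS.I_Rec
import Pool.Agent.Work.MP_13b5d9_gt.CS.I_RecN
import Pool.Agent.Work.MP_13b5d9_gt.CS.I_Chn
import Pool.Agent.Work.MP_13b5d9_gt.CS.I_ExC
import Pool.Agent.Work.MP_13b5d9_gt.CS.I_Crs
import Pool.Agent.Work.MP_13b5d9_gt.CS.I_Cr2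
import Pool.Agent.Work.MP_13b5d9_gt.CS.I_EfB
import Pool.Agent.Work.MP_13b5d9_gt.CS.I_EfI
import Pool.Agent.Work.MP_13b5d9_gt.CS.I_EfU
import Pool.Agent.Work.MP_13b5d9_gt.CS.I_EfC
import Pool.Agent.Work.MP_13b5d9_gt.CS.I_Ang
import Pool.Agent.Work.MP_13b5d9_gt.CS.I_Dps
import Pool.Agent.Work.MP_13b5d9_gt.CS.I_Twi
import Pool.Agent.Work.MP_13b5d9_gt.CS.I_Shf
import Pool.Agent.Work.MP_13b5d9_gt.CS.I_Rev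
import Pool.Agent.Work.MP_13b5d9_gt.CS.I_UpE
import Pool.Agent.Work.MP_13b5d9_gt.CS.I_LoE
import Pool.Agent.Work.MP_13b5d9_gt.CS.I_Cmp
import Pool.Agent.Work.MP_13b5d9_gt.CS.I_Str
import Pool.Agent.Work.MP_13b5d9_gt.CS.I_Opt
import Pool.Agent.Work.MP_13b5d9_gt.CS.I_Qg
import Pool.Agent.Work.MP_13b5d9_gt.CS.I_Ra
import Pool.Agent.Work.MP_13b5d9_gt.CS.I_Rb
import Pool.Agent.Work.MP_13b5d9_gt.CS.I_Rc
import Pool.Agent.Work.MP_13b5d9_gt.CS.I_Mu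
import Pool.Agent.Work.MP_13b5d9_gt.CS.I_Cy
import Pool.Agent.Work.MP_13b5d9_gt.CS.I_Xp
import Pool.Agent.Work.MP_13b5d9_gt.CS.I_Pi
import Pool.Agent.Work.MP_13b5d9_gt.CS.I_Nv
import Pool.Agent.Work.MP_13b5d9_gt.CS.I_MChn
import Pool.Agent.Work.MP_13b5d9_gt.CS.I_MDiv
import Pool.Agent.Work.MP_13b5d9_gt.CS.I_MIn
import Pool.Agent.Work.MP_13b5d9_gt.CS.I_Mor
import Pool.Agent.Work.MP_13b5d9_gt.CS.I_DqP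
import Pool.Agent.Work.MP_13b5d9_gt.CS.I_DqL
import Pool.Agent.Work.MP_13b5d9_gt.CS.I_DqM
import Pool.Agent.Work.MP_13b5d9_gt.AV.All

set_option autoImplicit false

/-!
# MP_13b5d9_gt, block CS: the items, closed
-/

namespace Pool.Agent.CSG

open Pool.Agent.MLS

theorem p_Spd : CsSpd := pr_Spd p_NcGx p_NcInj p_NcDist p_Geo1 pr_Op
theorem p_Ini : CsIni := pr_Ini p_Geo1 pr_Op p_NcGx
theorem p_Rec : CsRec := pr_Rec p_Avg pr_PU p_Sub p_LftA p_EqF p_Geo1 pr_Op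
theorem p_RecN : CsRecN := pr_RecN p_Rec p_LftA p_EqF
theorem p_ExC : CsExC := pr_ExC p_CtsD pr_Op p_LftA p_EqF pr_InvD p_Geo1
theorem p_Crs : CsCrs := pr_Crs p_RecN pr_Chn p_ExC p_Spd p_Ini pr_InvD pr_Gd p_Flow
theorem p_Cr2 : CsCr2 := pr_Cr2 p_Crs
theorem p_EfB : CsEfB := pr_EfB p_Ini pr_Zp pr_Gd
theorem p_EfI : CsEfI := pr_EfI p_Ini p_EqF pr_InvD pr_Op
theorem p_EfU : CsEfU := pr_EfU p_CtsD pr_Op p_EfB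
theorem p_EfC : CsEfC := pr_EfC p_Ini p_EfB p_Cr2
theorem p_Ang : CsAng := pr_Ang PIN.p_A PIN.p_Bd PIN.p_LV PIN.p_Inv PIN.pr_Lie
theorem p_Twi : CsTwi := pr_Twi PIN.p_Var PIN.p_LV pr_Gd
theorem p_Shf : CsShf := pr_Shf p_EqG pr_InvD
theorem p_Rev : CsRev := pr_Rev pr_InvD pr_Gd
theorem p_UpE : CsUpE := pr_UpE p_Ang pr_Dps p_Twi
theorem p_LoE : CsLoE := pr_LoE p_Ang pr_Dps p_Twi
theorem p_Cmp : CsCmp := pr_Cmp p_UpE p_LoE p_Rev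
theorem p_Str : CsStr := pr_Str PIN.p_Var PIN.p_LV pr_Gd p_Geo1 pr_Op
theorem p_Qg : CsQg := pr_Qg p_Str pr_Opt p_Ang pr_Dps p_Flow STR.p_Log pr_Gd
theorem p_Ra : CsRa := pr_Ra AV.p_Fr
theorem p_Rb : CsRb := pr_Rb p_Ra p_Ang AV.p_Fr p_Prop pr_Gd
theorem p_Rc : CsRc := pr_Rc p_Ra p_Rb AV.p_Fr AV.p_Si pr_Op
theorem p_Mu : CsMu := pr_Mu AV.p_Si
theorem p_Cy : CsCy := pr_Cy p_Rc p_Mu AV.p_Si pr_Op
theorem p_Xp : CsXp := pr_Xp p_Cy p_Ra p_Rc p_Mu AV.p_En pr_Gd AV.p_Si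
theorem p_Pi : CsPi := pr_Pi pr_Op MLS.p_Cmp
theorem p_Nv : CsNv := pr_Nv p_Xp p_Pi p_Shf
theorem p_MDiv : CsMDiv := pr_MDiv pr_MChn
theorem p_MIn : CsMIn := pr_MIn p_MDiv
theorem p_Mor : CsMor := pr_Mor p_MIn
theorem p_DqP : CsDqP := pr_DqP LQT.t_Is LQT.t_Eh pr_Gd p_Flow STR.p_Log p_NcExp p_Spd
theorem p_DqL : CsDqL := pr_DqL p_Cmp p_Ang AV.p_Gv AV.p_Pa PIN.p_Var pr_Gd MLS.p_Cmp
theorem p_DqM : CsDqM := pr_DqM p_Mor p_DqP p_DqL p_Qg AV.p_Pa MLS.p_Cmp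

end Pool.Agent.CSG
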