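import Pool.Agent.Work.MP_13b5d9_gt.AV.Defs

set_option autoImplicit false

/-!
# MP_13b5d9_gt, block CS (calibration of all geodesics and the coarse splitting): definitions

`V = grad τ` is the canonical field of a central element `z`, `ψ` its flow, `ψ l x = z • x`
(`STR.Axis`).
-/

open MeasureTheory Set Filter Topology
open scoped ContDiff ENNReal
open Pool.Agent.Work.MP_c9f990_an.Al (IsFlow)

namespace Pool.Agent.CSG

open Pool.Agent.MLS Pool.Agent.STR Pool.Agent.LQR Pool.Agent.AV

/-- geodesics of unit speed -/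
structure UGeo {n : ℕ} (g : Form n) (c : ℝ → E n) : Prop where
  geo : IsGeo g c
  unit : ∀ t, g.val (c t) (deriv c t) (deriv c t) = 1

/-- product of `V` and the velocity of the curve `c` -/
noncomputable def ang {n : ℕ} (g : Form n) (V : E n → E n) (c : ℝ → E n) (t : ℝ) : ℝ :=
  g.val (c t) (V (c t)) (deriv c t)

/-- calibration: in the quotient by `z` the curve `c` minimises `length - e dτ` -/
def Cal {n : ℕ} {G : Type} [Group G] [MulAction G (E n)] (g : Form n) (z : G) (l : ℝ)
    (c : ℝ → E n) (e : ℝ) : Prop :=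
  ∀ (k : ℤ) (s t : ℝ), s ≤ t → t - s + e * (k * l) ≤ gd g (c s) (z ^ k • c t)

/-- the excess of the segment `[s, t]` of the geodesic with initial point `w` of phase space (of any
speed) for the jump by `b` -/
noncomputable def exc {n : ℕ} {G : Type} [Group G] [MulAction G (E n)] (g : Form n)
    (φ : ℝ → W n → W n) (b : G) (s t : ℝ) (w : W n) : ℝ :=
  gd g (φ s w).1 (b • (φ t w).1) - Real.sqrt (2 * Hm g w) * (t - s)

/-- the first integral `e` -/
noncomputable def ef {n : ℕ} {G : Type} [Group G] [MulAction G (E n)] (g : Form n)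
    (φ : ℝ → W n → W n) (z : G) (l : ℝ) (x v : E n) : ℝ :=
  ⨅ p : ℕ × ℝ × ℝ, (gd g (φ p.2.1 (x, op g x v)).1
    (z ^ (p.1 + 1) • (φ (p.2.1 + |p.2.2|) (x, op g x v)).1) - |p.2.2|) / ((p.1 + 1) * l)

/-- square of the norm, with respect to `gb`, of the linear form `g (v - V, .)` -/
noncomputable def pb {n : ℕ} (g gb : Form n) (V : E n → E n) (x v : E n) : ℝ :=
  inner ℝ (op g x (v - V x)) (iop gb x (op g x (v - V x)))

end Pool.Agent.CSG
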