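import Pool.Agent.Work.MP_13b5d9_gt.CS.Stmts

set_option autoImplicit false

/-!
# MP_13b5d9_gt, block CS, item Cr2: two kinds of jumps
-/

namespace Pool.Agent.CSG.ICr2

/-- the jumps -/
def bb {G : Type} [Group G] (z : G) (j k : ℕ) (i : ℕ) : G :=
  if i < j then z ^ k else (z ^ j)⁻¹

/-- the products of the jumps -/
def PP {G : Type} [Group G] (z : G) (j k : ℕ) : ℕ → G
  | 0 => 1
  | i + 1 => PP z j k i * bb z j k i

theorem PP_le {G : Type} [Group G] (z : G) (j k : ℕ) : ∀ i ≤ j, PP z j k i = (z ^ k) ^ i
  | 0, _ => by simp [PP]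
  | i + 1, h => by
    have h1 : i < j := h
    rw [PP, PP_le z j k i h1.le, bb, if_pos h1, pow_succ]

theorem PP_add {G : Type} [Group G] (z : G) (j k : ℕ) :
    ∀ i, PP z j k (j + i) = (z ^ k) ^ j * ((z ^ j)⁻¹) ^ i
  | 0 => by simp [PP_le z j k j le_rfl]
  | i + 1 => by
    have h1 : ¬ (j + i < j) := by omega
    rw [← add_assoc, PP, PP_add z j k i, bb, if_neg h1, pow_succ, mul_assoc]

theorem PP_end {G : Type} [Group G] (z : G) (j k : ℕ) : PP z j k (j + k) = 1 := by
  rw [PP_add, ← pow_mul, inv_pow, ← pow_mul, mul_comm k j, mul_inv_cancel]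

theorem bb_comm {G : Type} [Group G] (z : G) (hz : ∀ a : G, a * z = z * a) (j k i : ℕ) (a : G) :
    a * bb z j k i = bb z j k i * a := by
  have hc : ∀ m : ℕ, Commute a (z ^ m) := fun m => (show Commute a z from hz a).pow_right m
  by_cases h : i < j
  · rw [bb, if_pos h]; exact hc k
  · rw [bb, if_neg h]; exact (hc j).inv_right

end Pool.Agent.CSG.ICr2

namespace Pool.Agent.CSG

open Pool.Agent.MLS Pool.Agent.STR Pool.Agent.LQR Pool.Agent.AV

theorem pr_Cr2 (hCrs : CsCrs) : CsCr2 := by
  intro n G _ _ hco g hg hinv hnc z hz j k s t s' t' hst hst' c hc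
  have h := hCrs n G hco g hg hinv hnc (j + k) (ICr2.bb z j k) (ICr2.PP z j k)
    (fun i => if i < j then s else s') (fun i => if i < j then t else t')
    (fun i a => ICr2.bb_comm z hz j k i a) rfl (fun i => rfl) (ICr2.PP_end z j k)
    (fun i => by
      by_cases hi : i < j
      · simpa [hi] using hst
      · simpa [hi] using hst') c hc
  rw [Finset.sum_range_add] at h
  have h1 : ∑ i ∈ Finset.range j, (gd g (c (if i < j then s else s'))
      (ICr2.bb z j k i • c (if i < j then t else t')) -
        ((if i < j then t else t') - (if i < j then s else s'))) =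
      j * (gd g (c s) (z ^ k • c t) - (t - s)) := by
    rw [Finset.sum_congr rfl (g := fun _ => gd g (c s) (z ^ k • c t) - (t - s))]
    · rw [Finset.sum_const, Finset.card_range, nsmul_eq_mul]
    · intro i hi
      have hi' : i < j := Finset.mem_range.1 hi
      simp only [ICr2.bb, if_pos hi']
  have h2 : ∑ i ∈ Finset.range k, (gd g (c (if j + i < j then s else s'))
      (ICr2.bb z j k (j + i) • c (if j + i < j then t else t')) -
        ((if j + i < j then t else t') - (if j + i < j then s else s'))) =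
      k * (gd g (c s') ((z ^ j)⁻¹ • c t') - (t' - s')) := by
    rw [Finset.sum_congr rfl (g := fun _ => gd g (c s') ((z ^ j)⁻¹ • c t') - (t' - s'))]
    · rw [Finset.sum_const, Finset.card_range, nsmul_eq_mul]
    · intro i hi
      have hi' : ¬ (j + i < j) := by omega
      simp only [ICr2.bb, if_neg hi']
  rw [h1, h2] at h
  exact h

end Pool.Agent.CSG
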