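import Pool.Agent.Work.MP_13b5d9_gt.CS.StmtsM

/-!
# Item DqP: the quotient pseudometric
-/

set_option autoImplicit false

open MeasureTheory Set Filter Topology
open scoped ContDiff ENNReal
open Pool.Agent.Work.MP_c9f990_an.Al (IsFlow)

namespace Pool.Agent.CSG

open Pool.Agent.MLS Pool.Agent.STR Pool.Agent.LQR Pool.Agent.PIN Pool.Agent.AV

namespace IDqP

/-- A smooth map which preserves the lengths of tangent vectors maps paths to paths of the same
length. -/
theorem pathLen_map {n : ℕ} {g : Form n} {f : E n → E n} (hf : ContDiff ℝ 1 f)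
    (hi : ∀ x v, nrm g (f x) (fderiv ℝ f x v) = nrm g x v) {x y : E n} {l : ℝ}
    (h : PathLen g x y l) : PathLen g (f x) (f y) l := by
  induction h with
  | refl x => exact PathLen.refl _
  | cons c s t y l hc hst h ih =>
    have h1 : ContDiff ℝ 1 (fun r => f (c r)) := hf.comp hc
    have h2 : (∫ r in s..t, nrm g (c r) (deriv c r)) =
        ∫ r in s..t, nrm g ((fun r => f (c r)) r) (deriv (fun r => f (c r)) r) := by
      refine intervalIntegral.integral_congr fun r _ => ?_
      show nrm g (c r) (deriv c r) = nrm g (f (c r)) (deriv (fun r => f (c r)) r)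
      have h3 : HasFDerivAt f (fderiv ℝ f (c r)) (c r) :=
        ((hf.differentiable (by simp)) (c r)).hasFDerivAt
      have h4 : HasDerivAt c (deriv c r) r := ((hc.differentiable (by simp)) r).hasDerivAt
      have h5 : HasDerivAt (fun r => f (c r)) (fderiv ℝ f (c r) (deriv c r)) r :=
        h3.comp_hasDerivAt r h4
      rw [h5.deriv, hi]
    rw [h2]
    exact PathLen.cons (fun r => f (c r)) s t (f y) l h1 hst ih

theorem iso (hTIs : Pool.Agent.LQT.TIs) {n : ℕ} {G : Type} [Group G] [MulAction G (E n)]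
    {h : Form n} (hR : Riem h) {z : G} {l : ℝ} {V : E n → E n} {τ : E n → ℝ}
    {ψ : ℝ → E n → E n} (hA : Axis n G h z l V τ ψ)
    (hV : ∀ x u, fderiv ℝ V x u + Ga h x u (V x) = 0) (t : ℝ) (x y : E n) :
    gd h (ψ t x) (ψ t y) = gd h x y := by
  have hsm : ∀ s : ℝ, ContDiff ℝ 1 (ψ s) := fun s =>
    (hA.smoothF.comp (contDiff_const.prodMk contDiff_id)).of_le (by exact_mod_cast le_top)
  have hi : ∀ s x v, nrm h (ψ s x) (fderiv ℝ (ψ s) x v) = nrm h x v := by
    intro s x v
    unfold nrm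
    rw [hTIs n G h z l V τ ψ hR hA hV s x v v]
  have hneg : ∀ w : E n, ψ (-t) (ψ t w) = w := by
    intro w
    rw [← hA.add, neg_add_cancel, hA.zero]
  unfold gd
  congr 1
  ext r
  constructor
  · intro hp
    have h1 := pathLen_map (hsm (-t)) (hi (-t)) hp
    rw [hneg, hneg] at h1
    exact h1
  · intro hp
    exact pathLen_map (hsm t) (hi t) hp

end IDqP

theorem pr_DqP (hTIs : Pool.Agent.LQT.TIs) (hTEh : Pool.Agent.LQT.TEh) (hGd : StGd)
    (hFlow : StFlow) (hLog : StLog) (hExp : NcExp) (hSpd : CsSpd) : CsDqP := by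
  intro n G _ _ hc h hR hI hNC z l V τ ψ hA hV
  have hiso : ∀ (t : ℝ) (x y : E n), gd h (ψ t x) (ψ t y) = gd h x y :=
    IDqP.iso hTIs hR hA hV
  have hpm : IsPM (gd h) := (hGd n h).2.1
  obtain ⟨φ, M, hφ⟩ := hFlow n G hc h hR hI
  obtain ⟨lg, hlg⟩ := hLog n h φ M hR hφ hNC
  refine ⟨⟨?_, ?_, ?_, ?_⟩, ?_, ?_⟩
  · intro x y
    exact hpm.nonneg _ _
  · intro x
    unfold dq
    rw [sub_self, hA.zero]
    exact hpm.self x
  · intro x y
    unfold dq
    rw [← hiso (-(τ x - τ y)) x, ← hA.add, neg_add_cancel, hA.zero, hpm.symm, neg_sub]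
  · intro x y w
    unfold dq
    have h1 : ψ (τ x - τ w) w = ψ (τ x - τ y) (ψ (τ y - τ w) w) := by
      rw [← hA.add]
      congr 1
      ring
    have h2 := hpm.tri x (ψ (τ x - τ y) y) (ψ (τ x - τ w) w)
    rw [h1, hiso] at h2
    rw [h1]
    exact h2
  · intro x y
    set y' := ψ (τ x - τ y) y with hy'
    set v := lg x y' with hv
    have hy1 : expo φ h x v = y' := hlg.exp_log x y'
    have hτy : τ y' = τ x := by
      rw [hy', hA.height]
      ring
    have hperp : h.val x (V x) v = 0 := by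
      have h1 := hTEh n G h z l V τ ψ hR hA hV φ M hφ x v
      rw [hy1, hτy] at h1
      linarith
    have hτ : ∀ u : ℝ, τ (expo φ h x (u • v)) = τ x := by
      intro u
      rw [hTEh n G h z l V τ ψ hR hA hV φ M hφ x (u • v), map_smul, hperp, smul_zero, add_zero]
    have hβ : ∀ u : ℝ, expo φ h x (u • v) = (φ u (x, op h x v)).1 := fun u =>
      ((hExp n h φ M hR hφ x).2.2.1 u v).symm
    have hβ0 : expo φ h x ((0 : ℝ) • v) = x := by
      rw [zero_smul]
      exact (hExp n h φ M hR hφ x).2.2.2.2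
    have hβ1 : expo φ h x ((1 : ℝ) • v) = y' := by
      rw [one_smul]
      exact hy1
    have hdist : dq h τ ψ x y = Real.sqrt (2 * Hm h (x, op h x v)) := by
      have h1 := hSpd n h φ M hR hφ hNC (x, op h x v) 0 1
      rw [← hβ, ← hβ, hβ0, hβ1, sub_zero, abs_one, mul_one] at h1
      exact h1
    refine ⟨fun u => expo φ h x (u • v), hβ0, ?_, ?_⟩
    · show gd h (expo φ h x ((1 : ℝ) • v)) (ψ (τ (expo φ h x ((1 : ℝ) • v)) - τ y) y) = 0
      rw [hτ, hβ1]
      exact hpm.self y'
    · intro u _ w _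
      show gd h (expo φ h x (u • v))
        (ψ (τ (expo φ h x (u • v)) - τ (expo φ h x (w • v))) (expo φ h x (w • v))) = _
      rw [hτ, hτ, sub_self, hA.zero, hβ, hβ, hSpd n h φ M hR hφ hNC, hdist, abs_sub_comm u w,
        mul_comm]
  · intro r x y
    refine ⟨?_, ?_⟩
    · unfold dq
      rw [hA.height, ← hA.add]
      congr 2
      ring
    · unfold dq
      have h1 : ψ (τ (ψ r x) - τ y) y = ψ r (ψ (τ x - τ y) y) := by
        rw [hA.height, ← hA.add]
        congr 1
        ring
      rw [h1, hiso]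

end Pool.Agent.CSG
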