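import Pool.Agent.Work.MP_13b5d9_gt.CS.Stmts

set_option autoImplicit false

/-!
# MP_13b5d9_gt, block CS, item Mu: means over several periods
-/

open MeasureTheory Set Filter Topology
open scoped ContDiff ENNReal

namespace Pool.Agent.CSG

open Pool.Agent.MLS Pool.Agent.STR Pool.Agent.LQR Pool.Agent.AV

theorem pr_Mu (hSi : StSi) : CsMu := by
  intro n G _ _ g l ψ gr gb hl hA N x p
  have hc : Continuous fun u : ℝ => iop (gr u) x :=
    (hSi n gr hA.fam).1.continuous.comp (continuous_id.prodMk continuous_const)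
  have hp : Function.Periodic (fun u : ℝ => iop (gr u) x) l := by
    intro u
    show iop (gr (u + l)) x = iop (gr u) x
    rw [hA.per]
  have h1 : (∫ u in (0 : ℝ)..(N * l), iop (gr u) x) = (N * l) • iop gb x := by
    have h2 := hp.intervalIntegral_add_zsmul_eq (N : ℤ) 0 (fun a b => hc.intervalIntegrable a b)
    rw [zero_add, zero_add] at h2
    have h3 : ((N : ℤ) • l : ℝ) = N * l := by
      rw [zsmul_eq_mul]
      norm_cast
    rw [h3] at h2
    rw [h2, hA.mean x, smul_smul, mul_assoc, mul_inv_cancel₀ hl.ne', mul_one, natCast_zsmul]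
    exact (Nat.cast_smul_eq_nsmul ℝ N _).symm
  have h4 : (∫ u in (0 : ℝ)..(N * l), iop (gr u) x p) = (N * l) • iop gb x p := by
    rw [← ContinuousLinearMap.intervalIntegral_apply (hc.intervalIntegrable _ _) p, h1]
    rfl
  refine ⟨h4, ?_⟩
  have h5 := (innerSL ℝ p).intervalIntegral_comp_comm
    (((hc.clm_apply (continuous_const (y := p))).intervalIntegrable 0 (N * l)) :
      IntervalIntegrable (fun u : ℝ => iop (gr u) x p) volume 0 (N * l))
  simp only [innerSL_apply_apply] at h5
  rw [h5, h4, inner_smul_right]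

end Pool.Agent.CSG
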