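import Pool.Agent.Work.MP_13b5d9_gt.CS.Stmts

set_option autoImplicit false

/-!
# MP_13b5d9_gt, item Rev: reversal of a calibrated geodesic
-/

open MeasureTheory Set Filter Topology
open scoped ContDiff ENNReal
open Pool.Agent.Work.MP_c9f990_an.Al (IsFlow)

namespace Pool.Agent.CSG

open Pool.Agent.MLS Pool.Agent.STR Pool.Agent.LQR Pool.Agent.AV

theorem pr_Rev (hI : StInvD) (hG : StGd) : CsRev := by
  intro n G _ _ hCo g hInv z l V c hc
  have hd : ∀ t, deriv (fun t => c (-t)) t = - deriv c (-t) := fun t => deriv_comp_neg c t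
  refine ⟨⟨⟨?_, ?_⟩, ?_⟩, ?_, ?_⟩
  · exact hc.geo.smooth.comp contDiff_neg
  · intro t w
    have h1 := hc.geo.el (-t) w
    have h2 : HasDerivAt (fun s => g.val (c (-s)) (deriv c (-s)) w)
        (1 / 2 * fderiv ℝ g.val (c (-t)) w (deriv c (-t)) (deriv c (-t)) * (-1)) t :=
      h1.comp t (hasDerivAt_neg t)
    have h3 := h2.neg
    have e1 : (fun s => g.val (c (-s)) (deriv (fun t => c (-t)) s) w) =
        fun s => -(g.val (c (-s)) (deriv c (-s)) w) := by
      funext s
      rw [hd s]
      simp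
    have e2 : 1 / 2 * fderiv ℝ g.val (c (-t)) w (deriv (fun t => c (-t)) t)
        (deriv (fun t => c (-t)) t) =
        -(1 / 2 * fderiv ℝ g.val (c (-t)) w (deriv c (-t)) (deriv c (-t)) * (-1)) := by
      rw [hd t]
      simp
    show HasDerivAt (fun s => g.val (c (-s)) (deriv (fun t => c (-t)) s) w)
      (1 / 2 * fderiv ℝ g.val (c (-t)) w (deriv (fun t => c (-t)) t)
        (deriv (fun t => c (-t)) t)) t
    rw [e1, e2]
    exact h3
  · intro t
    show g.val (c (-t)) (deriv (fun t => c (-t)) t) (deriv (fun t => c (-t)) t) = 1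
    rw [hd t]
    have := hc.unit (-t)
    simpa using this
  · intro t
    show g.val (c (-t)) (V (c (-t))) (deriv (fun t => c (-t)) t) =
      -(g.val (c (-t)) (V (c (-t))) (deriv c (-t)))
    rw [hd t]
    simp
  · intro e he k s t hst
    have h1 := he (-k) (-t) (-s) (by linarith)
    have h2 : gd g (c (-t)) (z ^ (-k) • c (-s)) = gd g (z ^ k • c (-t)) (c (-s)) := by
      rw [← (hI n G hCo g hInv).2 (z ^ k), smul_smul, ← zpow_add]
      simp
    have h3 : gd g (z ^ k • c (-t)) (c (-s)) = gd g (c (-s)) (z ^ k • c (-t)) :=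
      (hG n g).2.1.symm _ _
    show t - s + -e * (k * l) ≤ gd g (c (-s)) (z ^ k • c (-t))
    rw [← h3, ← h2]
    refine le_trans (le_of_eq ?_) h1
    push_cast
    ring

end Pool.Agent.CSG
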