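import Pool.Agent.Work.MP_13b5d9_gt.CS.Stmts

/-!
# Item Spd: the distance of two points of a geodesic of any speed
-/

set_option autoImplicit false

open MeasureTheory Set Filter Topology
open scoped ContDiff ENNReal
open Pool.Agent.Work.MP_c9f990_an.Al (IsFlow)

namespace Pool.Agent.CSG

open Pool.Agent.MLS Pool.Agent.STR Pool.Agent.LQR Pool.Agent.PIN Pool.Agent.AV

theorem pr_Spd (hGx : NcGx) (hInj : NcInj) (hDist : NcDist) (hGeo : StGeo1) (hOp : StOp) :
    CsSpd := by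
  intro n g φ M hg hφ hNC w s t
  obtain ⟨h1, h2, h3⟩ := hGeo n g hg (fun τ => φ τ w) (fun τ => hφ.ode w τ)
  have hH : Hm g (φ s w) = Hm g w := by
    rw [h3 s, hφ.zero]
  have hval : g.val (φ s w).1 (deriv (fun τ => (φ τ w).1) s) (deriv (fun τ => (φ τ w).1) s) =
      2 * Hm g w := by
    have h4 := (hOp n g hg).2.2.2.2.2.2.2.2 (φ s w)
    rw [h2 s, ← hH, h4]
    ring
  have hx := (hGx n g φ M hg hφ _ h1 s t).2
  have hd := (hDist n g φ M hg hφ (φ s w).1
    (fun v u => hInj n g φ M hg hφ hNC (φ s w).1 v u)).2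
    ((t - s) • deriv (fun τ => (φ τ w).1) s)
  have hx' : (φ t w).1 = expo φ g (φ s w).1 ((t - s) • deriv (fun τ => (φ τ w).1) s) := hx
  rw [hx', hd]
  unfold nrm
  rw [map_smul, map_smul, ContinuousLinearMap.smul_apply, smul_eq_mul, smul_eq_mul, hval,
    show (t - s) * ((t - s) * (2 * Hm g w)) = (t - s) ^ 2 * (2 * Hm g w) by ring,
    Real.sqrt_mul (sq_nonneg _), Real.sqrt_sq_eq_abs, mul_comm]

end Pool.Agent.CSG
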