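import Pool.Agent.Work.MP_13b5d9_gt.CS.All

set_option autoImplicit false

/-!
# MP_13b5d9_gt, block CS: the metric is split if and only if the first integral is convex

`F v = |v| e (v / |v|)`.  If `g` is split then `ang g V c` is constant and the curves
`u ↦ ψ (k l u / T) (c u)`, `0 ≤ u ≤ T`, have length `sqrt (T^2 + 2 a k l T + k^2 l^2)`, so the calibration
gives `e = a = g (V, c')`.  Conversely let `F` be convex on every tangent space; it is homogeneous of
degree one, so it is subadditive.  `F (v + s V) = s + g (V, v) + o(1)` for `s → ∞` because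
`1 - e ≤ Λ (1 - a)`, and `F (± s V) = ± s`, so `F v ≤ F (v + s V) + F (- s V) → g (V, v)` and
`F v ≥ F (v + s V) - F (s V) → g (V, v)`.  So `g (V, c') = e (c')` is constant along all geodesics, the
Lie derivative of `g` vanishes, and the flow of `V` is isometric.
-/

open MeasureTheory Set Filter Topology
open scoped ContDiff ENNReal
open Pool.Agent.Work.MP_c9f990_an.Al (IsFlow)

namespace Pool.Agent.CSG

open Pool.Agent.MLS Pool.Agent.STR Pool.Agent.LQR Pool.Agent.PIN Pool.Agent.AV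

namespace Lin

variable {n : ℕ} {G : Type} [Group G] [MulAction G (E n)] {g : Form n} {z : G} {l : ℝ}
  {V : E n → E n} {τ : E n → ℝ} {ψ : ℝ → E n → E n}

theorem ang_const (hA : Axis n G g z l V τ ψ) (hI : FlowIso g ψ) (c : ℝ → E n) (hc : UGeo g c)
    (t : ℝ) : ang g V c t = ang g V c 0 := by
  have h1 : ∀ x u v, Lie V g.val x u v = 0 := by
    intro x u v
    have h2 := (PIN.p_Flo n V g.val ψ hA.smoothV g.smooth hA.smoothF hA.ode).2 x u v 0
    have h3 : (fun r => g.val (ψ r x) (fderiv ℝ (ψ r) x u) (fderiv ℝ (ψ r) x v)) =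
        fun _ => g.val x u v := funext fun r => hI r x u v
    rw [h3] at h2
    have h4 := h2.unique (hasDerivAt_const (0 : ℝ) (g.val x u v))
    have h5 : ψ 0 = id := funext hA.zero
    rw [h5, fderiv_id] at h4
    exact h4
  have h6 := (PIN.p_A n g V hA.smoothV c hc.geo).1
  have h7 : ∀ t, HasDerivAt (ang g V c) 0 t := by
    intro t
    have h8 := h6 t
    rw [h1, mul_zero] at h8
    exact h8
  exact is_const_of_deriv_eq_zero (fun t => (h7 t).differentiableAt) (fun t => (h7 t).deriv) t 0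

theorem gb_eq (hR : Riem g) (hA : Axis n G g z l V τ ψ) {gr : ℝ → Form n} {gb : Form n}
    (hAv : Avg n G g l ψ gr gb) (hF : FlowIso g ψ) : gb = g := by
  have hgr : ∀ r, gr r = g := fun r => IIs.form_eq fun x u v =>
    (hAv.pull r x u v).trans (hF r x u v)
  have hiop : ∀ x, iop gb x = iop g x := by
    intro x
    rw [hAv.mean x]
    have h4 : (fun r => iop (gr r) x) = fun _ => iop g x := by
      funext r
      rw [hgr r]
    rw [h4, intervalIntegral.integral_const, sub_zero, smul_smul,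
      inv_mul_cancel₀ hA.pos.ne', one_smul]
  obtain ⟨-, hin, -, hoi, -⟩ := pr_Op n g hR
  obtain ⟨-, hinb, hiob, -, -⟩ := pr_Op n gb hAv.riemb
  refine IIs.form_eq fun x u v => ?_
  rw [← hinb x u v, ← hin x u v]
  have h5 : op gb x u = op g x u := by
    have h6 := hoi x (op gb x u)
    rw [← hiop x, hiob x u] at h6
    exact h6.symm
  rw [h5]

theorem iso_of_const (hR : Riem g) {φ : ℝ → W n → W n} {M : ℝ → W n → W n →L[ℝ] W n}
    (hφ : IsFlow (XH (Hm g)) φ M) (hA : Axis n G g z l V τ ψ)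
    (h : ∀ c, UGeo g c → ∀ t, ang g V c t = ang g V c 0) : FlowIso g ψ := by
  refine PIN.p_Iso n G g z l V τ ψ hA fun x => ?_
  have h1 : ∀ v, g.val x v v = 1 → Lie V g.val x v v = 0 := by
    intro v hv
    obtain ⟨c, hc, hc0, hc1⟩ := (p_Ini n g φ M hR hφ).1 x v hv
    have h2 := (PIN.p_A n g V hA.smoothV c hc.geo).1 0
    have h3 : (fun s => g.val (c s) (V (c s)) (deriv c s)) = fun _ => ang g V c 0 :=
      funext (h c hc)
    rw [h3] at h2
    have h4 := h2.unique (hasDerivAt_const (0 : ℝ) (ang g V c 0))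
    rw [hc0, hc1] at h4
    linarith
  have h2 : ∀ v, Lie V g.val x v v = 0 := by
    intro v
    by_cases hv : v = 0
    · rw [hv, map_zero]
    · have hp := hR x v hv
      obtain ⟨N, hN⟩ : ∃ N, N = Real.sqrt (g.val x v v) := ⟨_, rfl⟩
      have hN0 : 0 < N := by rw [hN]; exact Real.sqrt_pos.2 hp
      have hNs : N ^ 2 = g.val x v v := by rw [hN]; exact Real.sq_sqrt hp.le
      have h3 : g.val x (N⁻¹ • v) (N⁻¹ • v) = 1 := by
        simp only [map_smul, smul_apply, smul_eq_mul]
        rw [← hNs]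
        field_simp
      have h4 := h1 _ h3
      simp only [map_smul, smul_apply, smul_eq_mul] at h4
      have h5 : N⁻¹ ≠ 0 := (inv_pos.2 hN0).ne'
      rcases mul_eq_zero.1 h4 with h6 | h6
      · exact absurd h6 h5
      · rcases mul_eq_zero.1 h6 with h7 | h7
        · exact absurd h7 h5
        · exact h7
  have hs := (PIN.pr_Lie n V g.val hA.smoothV g.smooth).2.2 g.symm
  refine ContinuousLinearMap.ext fun u => ContinuousLinearMap.ext fun v => ?_
  have h3 := h2 (u + v)
  simp only [map_add, add_apply] at h3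
  rw [h2 u, h2 v, hs x v u] at h3
  show Lie V g.val x u v = 0
  linarith

theorem cal_iso (hM : Minz g) (hA : Axis n G g z l V τ ψ) (hF : FlowIso g ψ) (c : ℝ → E n)
    (hc : UGeo g c) (hab : |ang g V c 0| ≤ 1) (e : ℝ) (hCal : Cal g z l c e) :
    e = ang g V c 0 := by
  have hT := p_Twi n G g z l V τ ψ hA 1 (fun r x w => by rw [hF]; simp) c hc
  have hz := (pr_Zp n G g hM z l V τ ψ hA).1
  have hl := hA.pos
  obtain ⟨a, ha⟩ : ∃ a, a = ang g V c 0 := ⟨_, rfl⟩
  rw [← ha] at hab ⊢
  have hconst : ∀ u, ang g V c u = a := fun u => by rw [ha]; exact ang_const hA hF c hc u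
  have key : ∀ (k : ℤ) (T : ℝ), 0 < T → e * (k * l) ≤ a * (k * l) + (k * l) ^ 2 / (2 * T) := by
    intro k T hTp
    have h1 := hCal k 0 T hTp.le
    have h2 := hT (k * l / T) 0 0 T hTp.le
    have h3 : (k * l / T * T + 0 : ℝ) = k * l := by field_simp; ring
    rw [h3, mul_zero, add_zero, hA.zero, ← hz] at h2
    simp only [hconst] at h2
    rw [intervalIntegral.integral_const, smul_eq_mul, sub_zero] at h2
    have h4 : Real.sqrt ((a + k * l / T) ^ 2 + 1 ^ 2 * (1 - a ^ 2)) ≤
        1 + a * (k * l / T) + (k * l / T) ^ 2 / 2 := by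
      refine (Real.sqrt_le_left ?_).2 ?_
      · have h5 : a ^ 2 ≤ 1 := (sq_le_one_iff_abs_le_one a).2 hab
        nlinarith [sq_nonneg (a + k * l / T)]
      · nlinarith [sq_nonneg (a * (k * l / T) + (k * l / T) ^ 2 / 2)]
    have h5 := mul_le_mul_of_nonneg_left h4 hTp.le
    have h6 : T * (1 + a * (k * l / T) + (k * l / T) ^ 2 / 2) =
        T + a * (k * l) + (k * l) ^ 2 / (2 * T) := by
      field_simp
    rw [h6] at h5
    linarith
  have key2 : ∀ k : ℤ, e * (k * l) ≤ a * (k * l) := by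
    intro k
    refine le_of_forall_pos_le_add fun ε hε => ?_
    have h1 : 0 < ((k * l) ^ 2 + 1) / (2 * ε) := by positivity
    refine (key k _ h1).trans ?_
    have h2 : (k * l : ℝ) ^ 2 / (2 * (((k * l) ^ 2 + 1) / (2 * ε))) ≤ ε := by
      rw [div_le_iff₀ (by positivity)]
      have h3 : ε * (2 * (((k * l : ℝ) ^ 2 + 1) / (2 * ε))) = (k * l) ^ 2 + 1 := by
        field_simp
      rw [h3]
      linarith
    linarith
  have h1 := key2 1
  have h2 := key2 (-1)
  push_cast at h1 h2
  have h3 : e * l ≤ a * l := by linarith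
  have h4 : a * l ≤ e * l := by linarith
  exact le_antisymm (le_of_mul_le_mul_right h3 hl) (le_of_mul_le_mul_right h4 hl)

/-- a convex function of degree one which is asymptotic to `g (V, .)` is equal to it -/
theorem cvx_lin (x v₀ : E n) (hV : g.val x v₀ v₀ = 1) (e : E n → ℝ) (Λ : ℝ)
    (hΛ : 0 ≤ Λ) (hb : ∀ v, g.val x v v = 1 → e v ≤ 1 ∧ -1 ≤ e v ∧
      1 - e v ≤ Λ * (1 - g.val x v₀ v) ∧ 1 + e v ≤ Λ * (1 + g.val x v₀ v))
    (hab : ∀ v, g.val x v v = 1 → |g.val x v₀ v| ≤ 1)
    (hcx : ConvexOn ℝ univ (fun v => nrm g x v * e ((nrm g x v)⁻¹ • v))) (v : E n)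
    (hv : g.val x v v = 1) : e v = g.val x v₀ v := by
  obtain ⟨F, hF⟩ : ∃ F : E n → ℝ, F = fun v => nrm g x v * e ((nrm g x v)⁻¹ • v) := ⟨_, rfl⟩
  rw [← hF] at hcx
  have hFv : ∀ v, F v = nrm g x v * e ((nrm g x v)⁻¹ • v) := fun v => by rw [hF]
  have hunit : ∀ v, g.val x v v = 1 → F v = e v := fun v hv => by
    rw [hFv]
    unfold nrm
    rw [hv, Real.sqrt_one, inv_one, one_smul, one_mul]
  have hhom : ∀ (r : ℝ) (v : E n), 0 < r → F (r • v) = r * F v := by
    intro r v hr
    have h1 : nrm g x (r • v) = r * nrm g x v := by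
      unfold nrm
      have h2 : g.val x (r • v) (r • v) = r ^ 2 * g.val x v v := by
        simp only [map_smul, smul_apply, smul_eq_mul]
        ring
      rw [h2, Real.sqrt_mul (by positivity), Real.sqrt_sq hr.le]
    rw [hFv, hFv, h1, mul_inv, smul_smul]
    have h3 : r⁻¹ * (nrm g x v)⁻¹ * r = (nrm g x v)⁻¹ := by field_simp
    rw [h3]
    ring
  have hadd : ∀ u w : E n, F (u + w) ≤ F u + F w := by
    intro u w
    have h1 := hcx.2 (mem_univ ((2 : ℝ) • u)) (mem_univ ((2 : ℝ) • w))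
      (by norm_num : (0 : ℝ) ≤ 1 / 2) (by norm_num : (0 : ℝ) ≤ 1 / 2) (by norm_num)
    rw [smul_smul, smul_smul, hhom 2 u (by norm_num), hhom 2 w (by norm_num)] at h1
    norm_num at h1
    linarith
  have hpos : e v₀ = 1 := by
    have h1 := hb v₀ hV
    rw [hV] at h1
    linarith
  have hVn : g.val x (-v₀) (-v₀) = 1 := by simpa using hV
  have hneg : e (-v₀) = -1 := by
    have h1 := hb (-v₀) hVn
    rw [map_neg, hV] at h1
    linarith
  obtain ⟨b, hbd⟩ : ∃ b, b = g.val x v₀ v := ⟨_, rfl⟩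
  have hb1 := abs_le.1 (hab v hv)
  rw [← hbd] at hb1 ⊢
  have key : ∀ s : ℝ, 1 < s → |e v - b| ≤ (1 + Λ) / (s - 1) := by
    intro s hs
    have hs0 : 0 < s := by linarith
    have e1 : F (s • v₀) = s := by rw [hhom s v₀ hs0, hunit v₀ hV, hpos, mul_one]
    have e2 : F (s • (-v₀)) = -s := by rw [hhom s _ hs0, hunit _ hVn, hneg]; ring
    have h1 := hadd v (s • v₀)
    have h2 := hadd (v + s • v₀) (s • (-v₀))
    have h3 : v + s • v₀ + s • (-v₀) = v := by rw [smul_neg]; abel
    rw [h3, e2, hunit v hv] at h2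
    rw [e1, hunit v hv] at h1
    -- the vector v + s V
    have h4 : g.val x (v + s • v₀) (v + s • v₀) = s ^ 2 + 2 * s * b + 1 := by
      simp only [map_add, map_smul, add_apply,
        smul_apply, smul_eq_mul]
      rw [hv, hV, g.symm x v v₀, ← hbd]
      ring
    have h5 : g.val x v₀ (v + s • v₀) = b + s := by
      rw [map_add, map_smul, smul_eq_mul, hV, ← hbd]
      ring
    obtain ⟨N, hN⟩ : ∃ N, N = nrm g x (v + s • v₀) := ⟨_, rfl⟩
    have hbs : 0 < b + s := by linarith
    have hN2 : N ^ 2 = s ^ 2 + 2 * s * b + 1 := by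
      rw [hN, ← h4]
      exact Real.sq_sqrt (g.nonneg x _)
    have hN0 : 0 ≤ N := by rw [hN]; exact Real.sqrt_nonneg _
    have hNb : b + s ≤ N := by
      refine abs_le_of_sq_le_sq' ?_ hN0 |>.2
      nlinarith
    have hNpos : 0 < N := by linarith
    have hD : (N - (b + s)) * (s - 1) ≤ 1 := by
      have h6 : (N - (b + s)) * (N + (b + s)) = 1 - b ^ 2 := by nlinarith
      nlinarith [mul_nonneg (sub_nonneg.2 hNb) (by linarith : 0 ≤ N + (b + s) - (s - 1)),
        sq_nonneg b]
    have hs1 : 0 < s - 1 := by linarith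
    have hD' : N - (b + s) ≤ 1 / (s - 1) := by
      rw [le_div_iff₀ hs1]
      exact hD
    have hu : g.val x (N⁻¹ • (v + s • v₀)) (N⁻¹ • (v + s • v₀)) = 1 := by
      have : g.val x (N⁻¹ • (v + s • v₀)) (N⁻¹ • (v + s • v₀)) =
          N⁻¹ ^ 2 * g.val x (v + s • v₀) (v + s • v₀) := by
        simp only [map_smul, smul_apply, smul_eq_mul]
        ring
      rw [this, h4, ← hN2]
      field_simp
    obtain ⟨k1, k2, k3, -⟩ := hb _ hu
    have hFs : F (v + s • v₀) = N * e (N⁻¹ • (v + s • v₀)) := by rw [hFv, ← hN]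
    have h7 : g.val x v₀ (N⁻¹ • (v + s • v₀)) = N⁻¹ * (b + s) := by
      rw [map_smul, smul_eq_mul, h5]
    rw [h7] at k3
    have h8 : F (v + s • v₀) ≤ N := by
      rw [hFs]
      nlinarith
    have h9 : N - F (v + s • v₀) ≤ Λ * (N - (b + s)) := by
      rw [hFs]
      have h10 := mul_le_mul_of_nonneg_left k3 hN0
      have h11 : N * (Λ * (1 - N⁻¹ * (b + s))) = Λ * (N - (b + s)) := by
        field_simp
      rw [h11] at h10
      linarith
    have h12 : Λ * (N - (b + s)) ≤ Λ * (1 / (s - 1)) := mul_le_mul_of_nonneg_left hD' hΛ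
    have h13 : 0 ≤ Λ * (1 / (s - 1)) := by positivity
    have h14 : 0 ≤ 1 / (s - 1) := by positivity
    have h15 : (1 + Λ) / (s - 1) = 1 / (s - 1) + Λ * (1 / (s - 1)) := by ring
    rw [h15, abs_le]
    constructor
    · linarith
    · linarith
  by_contra hne
  have hpos' : 0 < |e v - b| := abs_pos.2 (sub_ne_zero.2 hne)
  have h1 := key (1 + (1 + Λ) / |e v - b| + 1) (by
    have : 0 ≤ (1 + Λ) / |e v - b| := by positivity
    linarith)
  have h2 : 0 < (1 + Λ) / |e v - b| := by positivity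
  rw [le_div_iff₀ (by linarith)] at h1
  have h3 : |e v - b| * ((1 + Λ) / |e v - b|) = 1 + Λ := by field_simp
  nlinarith

/-- the metric is split if and only if the first integral is convex -/
theorem split_iff {m : ℕ} {G : Type} [Group G] [MulAction G (E (m + 1))]
    (hG : Cocompact (m + 1) G) (g : Form (m + 1)) (hR : Riem g) (hI : Inv G g) (hN : NoConj g)
    (z : G) (l : ℝ) (V : E (m + 1) → E (m + 1)) (τ : E (m + 1) → ℝ)
    (ψ : ℝ → E (m + 1) → E (m + 1)) (hA : Axis (m + 1) G g z l V τ ψ) (gr : ℝ → Form (m + 1))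
    (gb : Form (m + 1)) (hAv : Avg (m + 1) G g l ψ gr gb) (hiff : gb = g ↔ LQT.Sp m G z g)
    (e : E (m + 1) → E (m + 1) → ℝ) (Λ : ℝ) (hΛ : 0 ≤ Λ)
    (hb : ∀ x v, g.val x v v = 1 → e x v ≤ 1 ∧ -1 ≤ e x v ∧
      1 - e x v ≤ Λ * (1 - g.val x (V x) v) ∧ 1 + e x v ≤ Λ * (1 + g.val x (V x) v))
    (hinv : ∀ c, UGeo g c → ∀ t, e (c t) (deriv c t) = e (c 0) (deriv c 0))
    (hcal : ∀ c, UGeo g c → Cal g z l c (e (c 0) (deriv c 0))) :
    LQT.Sp m G z g ↔ ∀ x, ConvexOn ℝ univ (fun v => nrm g x v * e x ((nrm g x v)⁻¹ • v)) := by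
  obtain ⟨φ, M, hφ⟩ := p_Flow (m + 1) G hG g hR hI
  have hM := p_StNC (m + 1) G hG g hR hI hN
  have hini := (p_Ini (m + 1) g φ M hR hφ).1
  obtain ⟨K, -, hK⟩ := p_Ang (m + 1) G hG g hR hI z l V τ ψ hA
  have hab : ∀ x v, g.val x v v = 1 → |g.val x (V x) v| ≤ 1 := fun x v hv => by
    obtain ⟨c, hc, hc0, hc1⟩ := hini x v hv
    have h1 := (hK c hc).2.1 0
    simp only [ang, hc0, hc1] at h1
    exact h1
  constructor
  · intro hS x
    have hgb := hiff.2 hS
    have hF : FlowIso g ψ := fun t x u v => by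
      have h1 := (p_Gv (m + 1) G g z l V τ ψ gr gb hR hA hAv).2.2 t x u v
      rwa [hgb] at h1
    have he : ∀ v, g.val x v v = 1 → e x v = g.val x (V x) v := fun v hv => by
      obtain ⟨c, hc, hc0, hc1⟩ := hini x v hv
      have h1 := cal_iso hM hA hF c hc ((hK c hc).2.1 0) _ (hcal c hc)
      simp only [ang, hc0, hc1] at h1
      exact h1
    have hlin : (fun v => nrm g x v * e x ((nrm g x v)⁻¹ • v)) = fun v => g.val x (V x) v := by
      funext v
      by_cases hv : v = 0
      · simp [hv, nrm]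
      · have hp := hR x v hv
        have hN0 : 0 < nrm g x v := Real.sqrt_pos.2 hp
        have hNs : nrm g x v ^ 2 = g.val x v v := Real.sq_sqrt hp.le
        have h3 : g.val x ((nrm g x v)⁻¹ • v) ((nrm g x v)⁻¹ • v) = 1 := by
          simp only [map_smul, smul_apply, smul_eq_mul]
          rw [← hNs]
          field_simp
        rw [he _ h3, map_smul, smul_eq_mul]
        field_simp
    rw [hlin]
    exact (g.val x (V x)).toLinearMap.convexOn convex_univ
  · intro hcx
    rw [← hiff]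
    have he : ∀ x v, g.val x v v = 1 → e x v = g.val x (V x) v := fun x v hv =>
      cvx_lin x (V x) (hA.unit x) (e x) Λ hΛ (hb x) (hab x) (hcx x) v hv
    refine gb_eq hR hA hAv (iso_of_const hR hφ hA fun c hc t => ?_)
    have h1 := hinv c hc t
    rw [he _ _ (hc.unit t), he _ _ (hc.unit 0)] at h1
    exact h1

end Lin

end Pool.Agent.CSG
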