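import Pool.Agent.Work.MP_13b5d9_gt.AV.MxAvg

set_option autoImplicit false

/-!
# MP_13b5d9_gt: the norm of a linear form

Notation and conventions of `MP_25cd3b_gt/Mx/Defs`: metrics of closed manifolds `R^n / G` are given
by their matrices on `R^n`.
-/

open MeasureTheory Set Filter Topology
open scoped ContDiff

namespace Pool.Agent.Mx

/-- Square of the norm, with respect to the metric `gb`, of the linear form `g (w, .)` at `x`: the
value of the inverse matrix of `gb` on the vector with the entries `g (w, e_i)`.  (For `gb = g` it is
`g (w, w)`.) -/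
noncomputable def dn {n : ℕ} (g gb : E n → Matrix (Fin n) (Fin n) ℝ) (x w : E n) : ℝ :=
  ∑ i, ∑ j, (gb x)⁻¹ i j *
    (qf (g x) w (EuclideanSpace.single i 1) * qf (g x) w (EuclideanSpace.single j 1))

/-- Distance of the integral curves of `V` through `x` and `y`, for a metric `h` which is invariant
under the flow `ψ` of `V`: the distance from `x` to the point of the curve through `y` with the same
value of `τ`.  (If `h = dτ^2 + k` on `R^m x R` it is the distance of `k` between the projections of `x`
and `y` to `R^m`.) -/
noncomputable def dq {n : ℕ} (h : E n → Matrix (Fin n) (Fin n) ℝ) (τ : E n → ℝ)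
    (ψ : ℝ → E n → E n) (x y : E n) : ℝ := gd h x (ψ (τ x - τ y) y)

/-- geodesics of unit speed -/
def UnitGeo {n : ℕ} (g : E n → Matrix (Fin n) (Fin n) ℝ) (c : ℝ → E n) : Prop :=
  IsGeo g c ∧ ∀ t, qf (g (c t)) (deriv c t) (deriv c t) = 1

end Pool.Agent.Mx
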