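import Pool.Agent.Work.MP_13b5d9_gt.CS.MxDual
import Pool.Agent.Work.MP_13b5d9_gt.CS.Lin
import Pool.Agent.Work.MP_13b5d9_gt.AV.MxFin

set_option autoImplicit false

/-!
# MP_13b5d9_gt, block CS: the theorem in the matrix layer
-/

open MeasureTheory Set Filter Topology
open scoped ContDiff

namespace Pool.Agent.CSG

open Pool.Agent.Mx

theorem inner_sum {n : ℕ} (p q : E n) : inner ℝ p q = ∑ i, p i * q i := by
  rw [PiLp.inner_apply]
  refine Finset.sum_congr rfl fun i _ => ?_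
  simp [mul_comm]

theorem vec_sum {n : ℕ} (p : E n) : p = ∑ j, p j • (MLS.ee j : E n) := by
  ext i
  simp only [MLS.ee, WithLp.ofLp_sum, WithLp.ofLp_smul, Finset.sum_apply, Pi.smul_apply,
    smul_eq_mul]
  rw [Finset.sum_eq_single i]
  · simp
  · intro j _ hj
    simp [Ne.symm hj]
  · simp

theorem dn_eq {n : ℕ} (hMb : AV.StMb) (hOp : MLS.StOp)
    (g : E n → Matrix (Fin n) (Fin n) ℝ) (hg : Met g) (gb : MLS.Form n) (hb : MLS.Riem gb)
    (V : E n → E n) (x v : E n) :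
    pb (frm g hg) gb V x v = dn g (MLS.gm gb) x (v - V x) := by
  have h1 : ∀ w : E n, ∀ i, (MLS.op (frm g hg) x w) i =
      qf (g x) w (EuclideanSpace.single i 1) := fun w i => by
    have h2 := (hOp n (frm g hg) (frm_riem g hg)).2.1 x w (MLS.ee i)
    rw [frm_val] at h2
    rw [inner_sum] at h2
    rw [Finset.sum_eq_single i] at h2
    · simpa [MLS.ee] using h2
    · intro j _ hj
      simp [MLS.ee, hj]
    · simp
  have h3 : ∀ p : E n, inner ℝ p (MLS.iop gb x p) =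
      ∑ i, ∑ j, (MLS.gm gb x)⁻¹ i j * (p i * p j) := fun p => by
    rw [inner_sum]
    refine Finset.sum_congr rfl fun i _ => ?_
    have h4 : (MLS.iop gb x p) i = ∑ j, p j * (MLS.gm gb x)⁻¹ i j := by
      conv_lhs => rw [vec_sum p]
      rw [map_sum]
      simp only [map_smul]
      have h5 : ∀ j, (MLS.iop gb x (MLS.ee j : E n)) i = (MLS.gm gb x)⁻¹ i j := fun j => by
        rw [(hMb n gb hb x).2.1 i j, inner_sum, Finset.sum_eq_single i]
        · simp [MLS.ee]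
        · intro k _ hk
          simp [MLS.ee, hk]
        · simp
      simp [Finset.sum_apply, h5]
    rw [h4, Finset.mul_sum]
    refine Finset.sum_congr rfl fun j _ => ?_
    ring
  unfold pb dn
  rw [h3]
  simp only [h1]

theorem ugeo_iff {n : ℕ} (g : E n → Matrix (Fin n) (Fin n) ℝ) (hg : Met g) (c : ℝ → E n) :
    UGeo (frm g hg) c ↔ UnitGeo g c := by
  constructor
  · intro h
    exact ⟨(geo_iff g hg c).1 h.geo, fun t => by rw [← frm_val g hg]; exact h.unit t⟩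
  · intro h
    exact ⟨(geo_iff g hg c).2 h.1, fun t => by rw [frm_val g hg]; exact h.2 t⟩

theorem nrm_frm {n : ℕ} (g : E n → Matrix (Fin n) (Fin n) ℝ) (hg : Met g) (x v : E n) :
    MLS.nrm (frm g hg) x v = len g x v := by
  unfold MLS.nrm len
  rw [frm_val]

theorem cs_Mx (m : ℕ) (G : Type) [Group G] [MulAction G (E (m + 1))]
    (hG : Cocompact (m + 1) G) (g : E (m + 1) → Matrix (Fin (m + 1)) (Fin (m + 1)) ℝ)
    (hg : Met g) (hi : Inv G g)
    (hN : NoConj g) (z : G) (hz : z ≠ 1) (hc : ∀ a : G, a * z = z * a) :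
    ∃ (l : ℝ) (V : E (m + 1) → E (m + 1)) (τ : E (m + 1) → ℝ) (ψ : ℝ → E (m + 1) → E (m + 1))
      (gb : E (m + 1) → Matrix (Fin (m + 1)) (Fin (m + 1)) ℝ)
      (e : E (m + 1) → E (m + 1) → ℝ) (Λ : ℝ),
      Axis (m + 1) G g z l V τ ψ ∧ HarmMean g l ψ gb ∧ SplitAlong m G z gb ∧ 1 ≤ Λ ∧
      (∀ x, e x (V x) = 1 ∧ e x (-V x) = -1) ∧
      (SplitAlong m G z g ↔
        ∀ x, ConvexOn ℝ Set.univ (fun v => len g x v * e x ((len g x v)⁻¹ • v))) ∧
      (∀ (a : G) (x v : E (m + 1)), e (a • x) (dac a x v) = e x v) ∧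
      UpperSemicontinuousOn (fun p : E (m + 1) × E (m + 1) => e p.1 p.2)
        {p | qf (g p.1) p.2 p.2 = 1} ∧
      (∀ x v : E (m + 1), qf (g x) v v = 1 →
        (1 - e x v ≤ Λ * (1 - qf (g x) (V x) v) ∧ 1 - qf (g x) (V x) v ≤ Λ * (1 - e x v)) ∧
        1 + e x v ≤ Λ * (1 + qf (g x) (V x) v) ∧ 1 + qf (g x) (V x) v ≤ Λ * (1 + e x v)) ∧
      (∀ ε : ℝ, 0 < ε → ∃ δ : ℝ, 0 < δ ∧ ∀ x v : E (m + 1), qf (g x) v v = 1 →
        1 - qf (g x) (V x) v < δ →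
        |1 - e x v - 1 / 2 * dn g gb x (v - V x)| ≤ ε * (1 - qf (g x) (V x) v)) ∧
      (∀ c : ℝ → E (m + 1), UnitGeo g c →
        (∀ t, e (c t) (deriv c t) = e (c 0) (deriv c 0)) ∧
        (∀ (k : ℤ) (s t : ℝ), s ≤ t →
          t - s + e (c 0) (deriv c 0) * (k * l) ≤ gd g (c s) (z ^ k • c t)) ∧
        ∀ s t : ℝ, s ≤ t →
          Real.sqrt (1 - e (c 0) (deriv c 0) ^ 2) * (t - s - Λ) ≤
            Λ * Mx.dq gb τ ψ (c s) (c t) ∧
          Mx.dq gb τ ψ (c s) (c t) ≤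
            Λ * (Real.sqrt (1 - e (c 0) (deriv c 0) ^ 2) * (t - s))) ∧
      ∀ δ : ℝ, Mx.Hyp4 (Mx.dq gb τ ψ) δ → ∃ D : ℝ, ∀ c : ℝ → E (m + 1), UnitGeo g c →
        ∀ s u t : ℝ, s ≤ u → u ≤ t → Mx.dq gb τ ψ (c s) (c u) + Mx.dq gb τ ψ (c u) (c t) ≤
          Mx.dq gb τ ψ (c s) (c t) + D := by
  have hTh := AV.p_Th
  have hNC := MLS.p_StNC
  have hFl := MLS.p_Flow
  have hMb := AV.pr_Mb
  have hSi := AV.p_Si
  have hOp := MLS.pr_Op
  have hGa := MLS.p_NcGa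
  have hGd := MLS.pr_Gd
  have hIni := p_Ini
  have hEfB := p_EfB
  have hEfI := p_EfI
  have hEfU := p_EfU
  have hEfC := p_EfC
  have hCmp := p_Cmp
  have hQg := p_Qg
  have hNv := p_Nv
  have hDqM := p_DqM
  have hG' := coc G hG
  have hR := frm_riem g hg
  have hI' := (inv_iff G g hg).2 hi
  have hN' := (noConj_iff hGa g hg).2 hN
  obtain ⟨l, V, τ, ψ, gr, gb, hA, hAv, hNb, -, hSb, -, hiff⟩ :=
    hTh m G hG' (frm g hg) hR hI' hN' z hz hc
  have hM := hNC (m + 1) G hG' (frm g hg) hR hI' hN'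
  obtain ⟨φ, M, hφ⟩ := hFl (m + 1) G hG' (frm g hg) hR hI'
  have hRb := hAv.riemb
  have hIb := hAv.invb
  have hm := met_gm gb hRb
  have hfg := frm_gm gb hRb
  have hdq : CSG.dq gb τ ψ = Mx.dq (MLS.gm gb) τ ψ := by
    funext x y
    simp only [CSG.dq, Mx.dq]
    rw [← gd_eq (MLS.gm gb) hm, hfg]
  obtain ⟨Λ₁, h1, hcmp⟩ := hCmp (m + 1) G hG' (frm g hg) hR hI' z l V τ ψ hA
  obtain ⟨Λ₂, h2, hqg⟩ := hQg (m + 1) G hG' (frm g hg) hR hI' hN' z l V τ ψ hA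
  obtain ⟨A, hA0, -, hgg⟩ := MLS.p_Cmp (m + 1) G hG' gb (frm g hg) hRb hIb hI'
  obtain ⟨C, hC0, hdl⟩ := p_DqL (m + 1) G hG' (frm g hg) hR hI' z l V τ ψ hA gr gb hAv
  obtain ⟨Λ, hΛd⟩ : ∃ Λ, Λ = Λ₁ + Λ₂ + Λ₂ * A + C := ⟨_, rfl⟩
  have hΛ2A : 0 ≤ Λ₂ * A := mul_nonneg (by linarith) hA0.le
  have hini := (hIni (m + 1) (frm g hg) φ M hR hφ).1
  have hB : ∀ x v : E (m + 1), qf (g x) v v = 1 → -1 ≤ ef (frm g hg) φ z l x v ∧
      ef (frm g hg) φ z l x v ≤ 1 := fun x v hv =>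
    (hEfB (m + 1) G (frm g hg) φ M hR hφ hN' hM z l V τ ψ hA x v (by rwa [frm_val])).2
  have hcal : ∀ c : ℝ → E (m + 1), UGeo (frm g hg) c →
      Cal (frm g hg) z l c (ef (frm g hg) φ z l (c 0) (deriv c 0)) := fun c hc' =>
    hEfC (m + 1) G hG' (frm g hg) φ M hR hI' hφ hN' hM z l V τ ψ hA hc c hc'
  have hΛ : ∀ a b : ℝ, 0 ≤ b → a ≤ Λ₁ * b → a ≤ Λ * b := fun a b hb h =>
    h.trans (mul_le_mul_of_nonneg_right (by linarith) hb)
  have hcomp : ∀ x v : E (m + 1), qf (g x) v v = 1 →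
      (1 - ef (frm g hg) φ z l x v ≤ Λ₁ * (1 - qf (g x) (V x) v) ∧
        1 - qf (g x) (V x) v ≤ Λ₁ * (1 - ef (frm g hg) φ z l x v)) ∧
      1 + ef (frm g hg) φ z l x v ≤ Λ₁ * (1 + qf (g x) (V x) v) ∧
        1 + qf (g x) (V x) v ≤ Λ₁ * (1 + ef (frm g hg) φ z l x v) := fun x v hv => by
    obtain ⟨c, hcu, hc0, hc1⟩ := hini x v (by rwa [frm_val])
    have h := hcmp c hcu _ (hcal c hcu) 0
    simp only [ang, hc0, hc1, frm_val] at h
    exact h
  have hunitV : ∀ x, qf (g x) (V x) (V x) = 1 := fun x => by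
    rw [← frm_val g hg]
    exact hA.unit x
  have hneg : ∀ x : E (m + 1), qf (g x) (-V x) (-V x) = 1 := fun x => by
    rw [← frm_val g hg]
    simpa using hA.unit x
  have hneg2 : ∀ x : E (m + 1), qf (g x) (V x) (-V x) = -1 := fun x => by
    rw [← frm_val g hg, map_neg]
    rw [hA.unit x]
  refine ⟨l, V, τ, ψ, MLS.gm gb, ef (frm g hg) φ z l, Λ, (axis_iff G g hg z l V τ ψ).1 hA,
    ?_, ?_, by linarith, ?_, ?_, ?_, ?_, ?_, ?_, ?_, ?_⟩
  · intro x i j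
    rw [AV.mean_entry hMb hSi l gr gb hAv.fam hRb hAv.mean x i j]
    congr 1
    refine intervalIntegral.integral_congr fun r _ => ?_
    show (MLS.gm (gr r) x)⁻¹ i j = (pull (ψ r) g x)⁻¹ i j
    rw [AV.gm_pull g hg (gr r) (ψ r) (hAv.pull r) x]
  · exact (splitAlong_iff m G z (MLS.gm gb) hm).1 (by rw [hfg]; exact hSb)
  · intro x
    constructor
    · have h3 := (hcomp x (V x) (hunitV x)).1.1
      rw [hunitV x] at h3
      have h4 := (hB x (V x) (hunitV x)).2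
      linarith
    · have h3 := (hcomp x (-V x) (hneg x)).2.1
      rw [hneg2 x] at h3
      have h4 := (hB x (-V x) (hneg x)).1
      linarith
  · have h3 := Lin.split_iff hG' (frm g hg) hR hI' hN' z l V τ ψ hA gr gb hAv hiff
      (ef (frm g hg) φ z l) Λ₁ (by linarith) (fun x v hv => by
        rw [frm_val] at hv ⊢
        have h4 := hcomp x v hv
        exact ⟨(hB x v hv).2, (hB x v hv).1, h4.1.1, h4.2.1⟩)
      (hEfI (m + 1) G hG' (frm g hg) hR hI' φ M hφ z hc l).1 hcal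
    have h4 := splitAlong_iff m G z g hg
    simp only [nrm_frm] at h3
    rw [← h4, h3]
  · exact (hEfI (m + 1) G hG' (frm g hg) hR hI' φ M hφ z hc l).2
  · have h := hEfU (m + 1) G hG' (frm g hg) φ M hR hI' hφ hN' hM z l V τ ψ hA
    have h3 : {p : E (m + 1) × E (m + 1) | (frm g hg).val p.1 p.2 p.2 = 1} =
        {p : E (m + 1) × E (m + 1) | qf (g p.1) p.2 p.2 = 1} := by
      ext p
      simp only [Set.mem_ofPred_eq, frm_val]
    rw [h3] at h
    exact h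
  · intro x v hv
    obtain ⟨⟨a1, a2⟩, a3, a4⟩ := hcomp x v hv
    have b1 := hB x v hv
    have c1 : 0 ≤ 1 - qf (g x) (V x) v := by
      have h3 : 0 ≤ Λ₁ * (1 - qf (g x) (V x) v) := le_trans (by linarith [b1.2]) a1
      exact nonneg_of_mul_nonneg_right h3 (by linarith)
    have c2 : 0 ≤ 1 + qf (g x) (V x) v := by
      have h3 : 0 ≤ Λ₁ * (1 + qf (g x) (V x) v) := le_trans (by linarith [b1.1]) a3
      exact nonneg_of_mul_nonneg_right h3 (by linarith)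
    exact ⟨⟨hΛ _ _ c1 a1, hΛ _ _ (by linarith [b1.2]) a2⟩, hΛ _ _ c2 a3,
      hΛ _ _ (by linarith [b1.1]) a4⟩
  · intro ε hε
    obtain ⟨δ, hδ, h⟩ := hNv (m + 1) G hG' (frm g hg) hR hI' hM z hc l V τ ψ hA gr gb hAv ε hε
    refine ⟨δ, hδ, fun x v hv hlt => ?_⟩
    obtain ⟨c, hcu, hc0, hc1⟩ := hini x v (by rwa [frm_val])
    have h3 := h c hcu _ (hcal c hcu)
    simp only [ang, hc0, hc1, frm_val, dn_eq hMb hOp g hg gb hRb] at h3
    exact h3 hlt
  · intro c hcu'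
    have hcu := (ugeo_iff g hg c).2 hcu'
    refine ⟨(hEfI (m + 1) G hG' (frm g hg) hR hI' φ M hφ z hc l).1 c hcu, ?_, ?_⟩
    · intro k s t hst
      have h := hcal c hcu k s t hst
      rwa [gd_eq] at h
    · intro s t hst
      have hb := hB (c 0) (deriv c 0) (hcu'.2 0)
      have h := hqg c hcu _ (abs_le.2 hb) (hcal c hcu) (τ (c s) - τ (c t)) s t hst
      have h' := hdl c hcu _ (abs_le.2 hb) (hcal c hcu) s t hst
      have h3 := hgg (c s) (ψ (τ (c s) - τ (c t)) (c t))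
      have h0 : 0 ≤ CSG.dq gb τ ψ (c s) (c t) := (hGd (m + 1) gb).2.1.nonneg _ _
      have h4 := Real.sqrt_nonneg (1 - ef (frm g hg) φ z l (c 0) (deriv c 0) ^ 2)
      rw [← hdq]
      constructor
      · calc _ ≤ Real.sqrt (1 - ef (frm g hg) φ z l (c 0) (deriv c 0) ^ 2) * (t - s - Λ₂) :=
              mul_le_mul_of_nonneg_left (by linarith) h4
          _ ≤ Λ₂ * MLS.gd (frm g hg) (c s) (ψ (τ (c s) - τ (c t)) (c t)) := h
          _ ≤ Λ₂ * (A * CSG.dq gb τ ψ (c s) (c t)) :=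
              mul_le_mul_of_nonneg_left h3 (by linarith)
          _ = (Λ₂ * A) * CSG.dq gb τ ψ (c s) (c t) := by ring
          _ ≤ Λ * CSG.dq gb τ ψ (c s) (c t) := mul_le_mul_of_nonneg_right (by linarith) h0
      · refine h'.trans (mul_le_mul_of_nonneg_right (by linarith) ?_)
        exact mul_nonneg h4 (by linarith)
  · intro δ hδ
    rw [← hdq] at hδ ⊢
    obtain ⟨D, -, hD⟩ := hDqM (m + 1) G hG' (frm g hg) hR hI' hN' z l V τ ψ hA gr gb hAv hNb δ hδ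
    refine ⟨D, fun c hcu' s u t hsu hut => ?_⟩
    have hcu := (ugeo_iff g hg c).2 hcu'
    exact hD c hcu _ (abs_le.2 (hB (c 0) (deriv c 0) (hcu'.2 0))) (hcal c hcu) s u t hsu hut

end Pool.Agent.CSG
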