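import Pool.Agent.Work.MP_13b5d9_gt.CS.Defs
import Pool.Agent.Work.MP_13b5d9_gt.AV.Stmts

set_option autoImplicit false

/-!
# MP_13b5d9_gt, block CS: statements of the items, each with its complete proof

THEOREM.  For every metric `g` without conjugate points of a closed manifold with a central element
`z ≠ 1` there is a first integral `e` of the geodesic flow, `e (±V) = ±1`, such that every unit speed
geodesic `c` of the universal covering satisfies `Cal g z l c e` (it minimises `length - e dτ` in the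
quotient by `z`), `1 ∓ e` and `1 ∓ g (V, c')` are comparable for all times, `1 - e` is asymptotic to half
the `gb`-energy of the horizontal momentum near `V`, and the projection of `c` to the space of
integral curves of `V` is a quasi-geodesic with constants independent of `c`.

Statements `StX` of MP_25cd3b_gt/M/Stmts, `NcX` of MP_25cd3b_gt/NC/Stmts, `PiX` of PI/Stmts, `StLog`,
`StAx` etc. of ST/Stmts, `StEn`, `StFr`, `StSi`, `StGv` of AV/Stmts may be used as hypotheses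
`(h : StX)` (full names: MLS.StX, MLS.NcX, PIN.PiX, STR.StX, AV.StX), or import the file with their
proof (all are proved: AV/All.lean, PI/All.lean, ST/All93.lean).  Notation: `a = ang g V c`,
`Dψ_r(x) = fderiv ℝ (ψ r) x`, `w ∈ W n` a point of phase space, `δ = 1 - ang g V c 0`.
-/

open MeasureTheory Set Filter Topology
open scoped ContDiff ENNReal
open Pool.Agent.Work.MP_c9f990_an.Al (IsFlow)

namespace Pool.Agent.CSG

open Pool.Agent.MLS Pool.Agent.STR Pool.Agent.LQR Pool.Agent.PIN Pool.Agent.AV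

/-! ### A. recurrence and the crossing lemma -/

/-- [Spd] EASY (uses NcGx, NcInj, NcDist, StGeo1, StOp).  Let `c t = (φ t w).1`, a geodesic with
`c' t = vel g (φ t w)` and `g (c', c') = 2 Hm g w` (`StGeo1`, `StOp`).  By `NcGx`
`c t = expo φ g (c s) ((t - s) • c' s)`, so `NcDist` (hypothesis from `NcInj`) gives
`gd g (c s) (c t) = nrm g (c s) ((t - s) • c' s) = |t - s| sqrt (2 Hm g w)`. -/
def CsSpd : Prop := ∀ (n : ℕ) (g : Form n) (φ : ℝ → W n → W n) (M : ℝ → W n → W n →L[ℝ] W n),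
  Riem g → IsFlow (XH (Hm g)) φ M → NoConj g → ∀ (w : W n) (s t : ℝ),
  gd g (φ s w).1 (φ t w).1 = Real.sqrt (2 * Hm g w) * |t - s|

/-- [Ini] EASY (uses StGeo1, StOp, NcGx).  Geodesics and phase space.  Existence:
`c t = (φ t (x, op g x v)).1`, `c' t = vel g (φ t ..)` (`StGeo1`), `c' 0 = iop g x (op g x v) = v`,
`g (c', c') = 2 Hm = 1` (`StOp`: `Hm g w = 1/2 g (vel, vel)`).  The second part is `NcGx` with
`s = 0`, and `Hm g (c 0, op g (c 0) (c' 0)) = 1/2 g (c' 0, c' 0)`. -/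
def CsIni : Prop := ∀ (n : ℕ) (g : Form n) (φ : ℝ → W n → W n) (M : ℝ → W n → W n →L[ℝ] W n),
  Riem g → IsFlow (XH (Hm g)) φ M →
  (∀ x v : E n, g.val x v v = 1 → ∃ c, UGeo g c ∧ c 0 = x ∧ deriv c 0 = v) ∧
  ∀ c, UGeo g c → (∀ t, φ t (c 0, op g (c 0) (deriv c 0)) = (c t, op g (c t) (deriv c t))) ∧
    ∀ t, Hm g (c t, op g (c t) (deriv c t)) = 1 / 2

/-- [Zp] EASY.  Powers of `z` and the flow.  `ψ (r + l) x = ψ r (ψ l x) = ψ r (z x) = z ψ r x` (`add`,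
`period`, `comm`), `ψ (k l) x = z ^ k • x` by `Int.induction_on` (compare ST/I_Bd.lean).
`t ↦ ψ t x` is a geodesic (`geo`) with velocity `V (ψ t x)` (`ode`) of length one (`unit`), so
`gd g (ψ 0 x) (ψ r x) = |r|` by `Minz`, and `ψ 0 x = x`. -/
def CsZp : Prop := ∀ (n : ℕ) (G : Type) [Group G] [MulAction G (E n)] (g : Form n), Minz g →
  ∀ (z : G) (l : ℝ) (V : E n → E n) (τ : E n → ℝ) (ψ : ℝ → E n → E n), Axis n G g z l V τ ψ →
  (∀ (k : ℤ) (x : E n), z ^ k • x = ψ (k * l) x) ∧ ∀ (r : ℝ) (x : E n), gd g x (ψ r x) = |r|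

/-- [Rec] MEDIUM (uses StAvg, StPU, StSub, StLftA, StEqF, StGeo1, StCnt).  Recurrence modulo the group.
Let `z0 ∈ U`, `R = Hm g z0 + 1`; we may replace `U` by its intersection with `{Hm g < R}`.  Suppose the
claim is false.  `S = {w | ∃ a : G, lft g a w ∈ U}` is open (`StLftA`: `lft g a` is continuous),
invariant under `lft` (`lft g (a * b) = lft g a ∘ lft g b`) and contained in `{Hm g < R}`.  Let `χ` be from
`StPU`, `I f = ∫⁻ z, ofReal (χ z.1) * f z`, `m = I (indicator of S)`, `m' = I (indicator of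
{Hm g < R})`.  `m' < ∞`: `χ` is bounded with compact support and `{z | z.1 ∈ supp χ, Hm g z ≤ R}` is
compact (`StSub`).  `m > 0`: by `PU.sum` there is `a` with `0 < χ (a • z0.1)`; the open set
`{z | 0 < χ z.1} ∩ S` contains `lft g a z0` (`lft g a⁻¹ (lft g a z0) = z0 ∈ U`), so it has positive volume.
Claim: for `i < j` natural numbers and every `z` not both `φ (i T₀) z` and `φ (j T₀) z` are in `S`.
Otherwise `w = lft g b (φ (i T₀) z) ∈ U` and `lft g c (φ (j T₀) z) ∈ U`; with `T = (j - i) T₀ ≥ T₀`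
`φ T w = lft g b (φ T (φ (i T₀) z)) = lft g b (φ (j T₀) z)` (`StEqF`, `IsFlow.add`), so
`lft g (c * b⁻¹) (φ T w) ∈ U`, a contradiction.  If `φ (i T₀) z ∈ S` then `Hm g z = Hm g (φ (i T₀) z) < R`
(`StGeo1`).  So for every `N` the sum over `i < N` of the indicators of `S` at `φ (i T₀) z` is at most
the indicator of `{Hm g < R}` at `z`, and `StAvg` (for `F` = the indicator of `S`) gives `N m ≤ m'` for
all `N`: a contradiction. -/
def CsRec : Prop := ∀ (n : ℕ) (G : Type) [Group G] [MulAction G (E n)], Cocompact n G →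
  ∀ g : Form n, Riem g → Inv G g → ∀ (φ : ℝ → W n → W n) (M : ℝ → W n → W n →L[ℝ] W n),
  IsFlow (XH (Hm g)) φ M → ∀ (U : Set (W n)) (T₀ : ℝ), IsOpen U → U.Nonempty → 0 < T₀ →
  ∃ w ∈ U, ∃ T : ℝ, T₀ ≤ T ∧ ∃ a : G, lft g a (φ T w) ∈ U

/-- [RecN] EASY-MEDIUM (uses CsRec, StLftA, StEqF).  Many returns.  Induction on `N` for all `U`.
`N = 0`: `w ∈ U`, `T i = i T₀`, `a i = 1` (`lft g 1 = id`, `φ 0 = id`).  Step: `CsRec` gives `u ∈ U`,
`S ≥ T₀`, `b` with `lft g b (φ S u) ∈ U`; `U₁ = {u ∈ U | lft g b (φ S u) ∈ U}` is open and nonempty.  The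
induction hypothesis for `U₁` gives `w, T, a`; keep `T i`, `a i` for `i ≤ N` and put
`T' i = T N + S + (i - N - 1) T₀`, `a' i = b * a N` for `i > N`:
`lft g (b * a N) (φ (T N + S) w) = lft g b (φ S (lft g (a N) (φ (T N) w))) ∈ U`. -/
def CsRecN : Prop := ∀ (n : ℕ) (G : Type) [Group G] [MulAction G (E n)], Cocompact n G →
  ∀ g : Form n, Riem g → Inv G g → ∀ (φ : ℝ → W n → W n) (M : ℝ → W n → W n →L[ℝ] W n),
  IsFlow (XH (Hm g)) φ M → ∀ (N : ℕ) (U : Set (W n)) (T₀ : ℝ), IsOpen U → U.Nonempty → 0 < T₀ →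
  ∃ (w : W n) (T : ℕ → ℝ) (a : ℕ → G), (∀ i, T i + T₀ ≤ T (i + 1)) ∧
    ∀ i ≤ N, lft g (a i) (φ (T i) w) ∈ U

/-- [Chn] EASY.  A chain of jumps in a pseudometric space on which `G` acts by isometries.  Induction
on `N`; step: `d (p 0) (P (N+2) q_(N+1)) ≤ d (p 0) (P (N+1) q_N) + d (P (N+1) q_N) (P (N+1) p_(N+1)) +
d (P (N+1) p_(N+1)) (P (N+1) b_(N+1) q_(N+1))` and `P (N+2) = P (N+1) b_(N+1)`. -/
def CsChn : Prop := ∀ (X G : Type) [Group G] [MulAction G X] (d : X → X → ℝ), IsPM d →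
  (∀ (a : G) (x y : X), d (a • x) (a • y) = d x y) → ∀ (b P : ℕ → G) (p q : ℕ → X), P 0 = 1 →
  (∀ i, P (i + 1) = P i * b i) → ∀ N : ℕ, d (p 0) (P (N + 1) • q N) ≤
    ∑ i ∈ Finset.range (N + 1), d (p i) (b i • q i) + ∑ i ∈ Finset.range N, d (q i) (p (i + 1))

/-- [ExC] EASY (uses StCtsD, StOp, StLftA, StEqF, StInvD).  The excess is continuous on phase space
(`IsFlow.cont`, `StCtsD`, `Hm g` is smooth by `StOp`, the action is continuous), invariant under `lft` if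
`b` is central (`φ s (lft g a w) = lft g a (φ s w)`, whose first component is `a • (φ s w).1`,
`b • a • x = a • b • x`, `StInvD`, `Hm g (lft g a w) = Hm g w`), and
`exc (φ T w)` on `[s, t]` is `exc w` on `[T + s, T + t]` (`IsFlow.add`, energy: `StGeo1`). -/
def CsExC : Prop := ∀ (n : ℕ) (G : Type) [Group G] [MulAction G (E n)], Cocompact n G →
  ∀ g : Form n, Riem g → Inv G g → ∀ (φ : ℝ → W n → W n) (M : ℝ → W n → W n →L[ℝ] W n),
  IsFlow (XH (Hm g)) φ M → ∀ b : G, (∀ a : G, a * b = b * a) → ∀ s t : ℝ,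
  Continuous (exc g φ b s t) ∧ (∀ (a : G) (w : W n), exc g φ b s t (lft g a w) = exc g φ b s t w) ∧
  ∀ (T : ℝ) (w : W n), exc g φ b s t (φ T w) = exc g φ b (T + s) (T + t) w

/-- [Crs] MEDIUM (uses CsRecN, CsChn, CsExC, CsSpd, CsIni, StInvD, StGd).  THE CROSSING LEMMA.  Let
`w₀ = (c 0, op g (c 0) (c' 0))`; the claim is `0 ≤ ∑ i ∈ range N, exc g φ (b i) (s i) (t i) w₀` (`CsIni`).
If `N = 0` it is trivial; let `N = N' + 1`.  Suppose the sum is negative, and let `ε > 0` with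
`sum + N ε < 0`.  `U = {w | ∀ i < N, exc (b i) (s i) (t i) w < exc (b i) (s i) (t i) w₀ + ε}` is open
(`CsExC`) and contains `w₀`.  Let `T₀ > 0` with `t i - s j < T₀` for all `i, j < N`.  `CsRecN` gives
`w, T, a`.  By `CsExC` `exc (b i) (T i + s i) (T i + t i) w < exc (b i) (s i) (t i) w₀ + ε` for `i < N`.
Put `p i = (φ (T i + s i) w).1`, `q i = (φ (T i + t i) w).1`, `r = sqrt (2 Hm g w)`.  `CsChn` with `N'`,
`P (N' + 1) = 1`, and `CsSpd`: `d (p 0) (q N') = r ((T N' + t N') - (T 0 + s 0))` and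
`d (q i) (p (i + 1)) = r (T (i+1) + s (i+1) - T i - t i)` (nonnegative because
`T (i+1) - T i ≥ T₀ ≥ t i - s (i+1)`).  So `0 ≤ ∑ (d (p i) (b i • q i) - r (t i - s i)) < sum + N ε < 0`
(the lengths telescope). -/
def CsCrs : Prop := ∀ (n : ℕ) (G : Type) [Group G] [MulAction G (E n)], Cocompact n G →
  ∀ g : Form n, Riem g → Inv G g → NoConj g → ∀ (N : ℕ) (b P : ℕ → G) (s t : ℕ → ℝ),
  (∀ (i : ℕ) (a : G), a * b i = b i * a) → P 0 = 1 → (∀ i, P (i + 1) = P i * b i) → P N = 1 →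
  (∀ i, s i ≤ t i) → ∀ c : ℝ → E n, UGeo g c →
  0 ≤ ∑ i ∈ Finset.range N, (gd g (c (s i)) (b i • c (t i)) - (t i - s i))

/-- [Cr2] EASY (uses CsCrs).  Two kinds of jumps: `CsCrs` with `N = j + k`, `b i = z ^ k` (`i < j`),
`b i = (z ^ j)⁻¹` (`i ≥ j`), `P i = z ^ (k * i)` for `i ≤ j` and `P i = z ^ (k * j - j * (i - j))`
(integer exponents) for `i ≥ j`. -/
def CsCr2 : Prop := ∀ (n : ℕ) (G : Type) [Group G] [MulAction G (E n)], Cocompact n G →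
  ∀ g : Form n, Riem g → Inv G g → NoConj g → ∀ z : G, (∀ a : G, a * z = z * a) →
  ∀ (j k : ℕ) (s t s' t' : ℝ), s ≤ t → s' ≤ t' → ∀ c : ℝ → E n, UGeo g c →
  0 ≤ j * (gd g (c s) (z ^ k • c t) - (t - s)) +
    k * (gd g (c s') ((z ^ j)⁻¹ • c t') - (t' - s'))

/-! ### B. the first integral -/

/-- [EfB] EASY (uses CsIni, CsZp, CsSpd, StInvD, StGd).  Bounds.  Write `c` for the geodesic of `(x, v)`
(`CsIni`), so the term with index `(k, s, h)` is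
`(gd g (c s) (z ^ (k+1) • c (s + |h|)) - |h|) / ((k+1) l)`.  `gd g (c s) (c (s + |h|)) = |h|`, and
`gd g (c (s+|h|)) (z ^ (k+1) • c (s+|h|)) = (k+1) l` (`CsZp`), so the term is in `[-1, 1]` by the triangle
inequality; so the family is bounded below by `-1` and `-1 ≤ ef ≤ 1` (`le_ciInf`, `ciInf_le`). -/
def CsEfB : Prop := ∀ (n : ℕ) (G : Type) [Group G] [MulAction G (E n)] (g : Form n)
  (φ : ℝ → W n → W n) (M : ℝ → W n → W n →L[ℝ] W n), Riem g → IsFlow (XH (Hm g)) φ M → NoConj g →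
  Minz g → ∀ (z : G) (l : ℝ) (V : E n → E n) (τ : E n → ℝ) (ψ : ℝ → E n → E n),
  Axis n G g z l V τ ψ → ∀ x v : E n, g.val x v v = 1 →
  (∀ p : ℕ × ℝ × ℝ, -1 ≤ (gd g (φ p.2.1 (x, op g x v)).1
    (z ^ (p.1 + 1) • (φ (p.2.1 + |p.2.2|) (x, op g x v)).1) - |p.2.2|) / ((p.1 + 1) * l)) ∧
  -1 ≤ ef g φ z l x v ∧ ef g φ z l x v ≤ 1

/-- [EfI] EASY-MEDIUM (uses CsIni, StEqF, StLftA, StInvD, StOp).  Invariance.  Flow: with
`w = (c 0, op g (c 0) (c' 0))` the phase point of `(c t, c' t)` is `φ t w` (`CsIni`), and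
`φ s (φ t w) = φ (s + t) w` (`IsFlow.add`); reindex the infimum by the bijection
`(k, s, h) ↦ (k, s + t, h)` (`Equiv.iInf_congr` or `Equiv.iInf_comp`).  Group:
`(a • x, op g (a • x) (dac a x v)) = lft g a (x, op g x v)` (`iop g x (op g x v) = v`, `StOp`),
`StEqF`, `z ^ (k+1) • a • y = a • z ^ (k+1) • y`, and `gd g (a • y) (a • y') = gd g y y'` (`StInvD`): all
terms agree. -/
def CsEfI : Prop := ∀ (n : ℕ) (G : Type) [Group G] [MulAction G (E n)], Cocompact n G →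
  ∀ g : Form n, Riem g → Inv G g → ∀ (φ : ℝ → W n → W n) (M : ℝ → W n → W n →L[ℝ] W n),
  IsFlow (XH (Hm g)) φ M → ∀ z : G, (∀ a : G, a * z = z * a) → ∀ l : ℝ,
  (∀ c : ℝ → E n, UGeo g c → ∀ t, ef g φ z l (c t) (deriv c t) = ef g φ z l (c 0) (deriv c 0)) ∧
  ∀ (a : G) (x v : E n), ef g φ z l (a • x) (dac a x v) = ef g φ z l x v

/-- [EfU] EASY (uses StCtsD, StOp, CsEfB).  Semicontinuity: `ef` is the infimum of continuous functions
of `(x, v)` (`(x, v) ↦ (x, op g x v)` is continuous by `StOp`, `φ s` is continuous, `StCtsD`, the action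
is continuous), bounded below on the set (`CsEfB`): `upperSemicontinuousOn_ciInf` (or directly from the
definition: if `ef < y` then some term is `< y`, also nearby). -/
def CsEfU : Prop := ∀ (n : ℕ) (G : Type) [Group G] [MulAction G (E n)], Cocompact n G →
  ∀ (g : Form n) (φ : ℝ → W n → W n) (M : ℝ → W n → W n →L[ℝ] W n), Riem g → Inv G g →
  IsFlow (XH (Hm g)) φ M → NoConj g → Minz g → ∀ (z : G) (l : ℝ) (V : E n → E n) (τ : E n → ℝ)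
  (ψ : ℝ → E n → E n), Axis n G g z l V τ ψ →
  UpperSemicontinuousOn (fun p : E n × E n => ef g φ z l p.1 p.2) {p | g.val p.1 p.2 p.2 = 1}

/-- [EfC] EASY-MEDIUM (uses CsIni, CsEfB, CsCr2).  Calibration.  Let `w, c` be as in `CsIni` and
`e = ef g φ z l (c 0) (c' 0)`.  For `k = j + 1 > 0`: the term with index `(j, s, t - s)` is
`(gd g (c s) (z ^ k • c t) - (t - s)) / (k l) ≥ e` (`ciInf_le`).  `k = 0`: `gd g (c s) (c t) = t - s`
(`Minz`).  `k = -j`, `j > 0`: let `B = gd g (c s) ((z ^ j)⁻¹ • c t) - (t - s)`; for every index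
`(i, s', h)` with `k' = i + 1`, `t' = s' + |h|`, `A = gd g (c s') (z ^ k' • c t') - |h|`, `CsCr2` (with `j`,
`k'`) gives `0 ≤ j A + k' B`, so `A / (k' l) ≥ - B / (j l)`; so `e ≥ - B / (j l)` (`le_ciInf`), that is
`B ≥ - e j l`. -/
def CsEfC : Prop := ∀ (n : ℕ) (G : Type) [Group G] [MulAction G (E n)], Cocompact n G →
  ∀ (g : Form n) (φ : ℝ → W n → W n) (M : ℝ → W n → W n →L[ℝ] W n), Riem g → Inv G g →
  IsFlow (XH (Hm g)) φ M → NoConj g → Minz g → ∀ (z : G) (l : ℝ) (V : E n → E n) (τ : E n → ℝ)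
  (ψ : ℝ → E n → E n), Axis n G g z l V τ ψ → (∀ a : G, a * z = z * a) →
  ∀ c : ℝ → E n, UGeo g c → Cal g z l c (ef g φ z l (c 0) (deriv c 0))

/-! ### C. comparison with the angle -/

/-- [Ang] EASY-MEDIUM (uses PiA, PiBd, PiLV, PiInv, PiLie).  The angle.  `bb g V x v ≥ 0` (`PiBd`) and
`bb = 1 - a^2` for unit vectors, so `|a| ≤ 1`.  `a' = 1/2 L1 (c', c')`, `L1 = Lie V g.val` (`PiA`), and
`|L1 (v, v)| ≤ C bb` (`PiBd` with `b = L1`; its hypotheses are `PiLie`, `PiInv`, `PiLV`), so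
`|a'| ≤ (C/2) (1 - a^2) ≤ C (1 - a)`.  So for `y = 1 - a ≥ 0` the function `y exp (C t)` is monotone and
`y exp (- C t)` antitone; `K = C`.  `(τ ∘ c)' = Dτ (c') = g (V, c')` (`grad`). -/
def CsAng : Prop := ∀ (n : ℕ) (G : Type) [Group G] [MulAction G (E n)], Cocompact n G →
  ∀ g : Form n, Riem g → Inv G g → ∀ (z : G) (l : ℝ) (V : E n → E n) (τ : E n → ℝ)
  (ψ : ℝ → E n → E n), Axis n G g z l V τ ψ → ∃ K : ℝ, 0 ≤ K ∧ ∀ c : ℝ → E n, UGeo g c →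
  Continuous (ang g V c) ∧ (∀ t, |ang g V c t| ≤ 1) ∧
  (∀ t, HasDerivAt (fun s => τ (c s)) (ang g V c t) t) ∧
  ∀ s t, 1 - ang g V c t ≤ Real.exp (K * |t - s|) * (1 - ang g V c s)

/-- [Dps] EASY-MEDIUM (compare STR.StBd, AV.StCg and their proofs).  The flow has bounded derivatives.
On the compact set `[0, l] x K x` (unit sphere of `E n`), `G K = R^n`, the continuous functions
`g (Dψ_r w, Dψ_r w)` and `g (w, w) > 0` are comparable; by homogeneity this holds for all `w`.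
`ψ (r + l) x = z ψ r x` and `Inv G g` give it for all `r`, `ψ r (a x) = a ψ r x` (`comm`) and `Inv G g` for
all `x`. -/
def CsDps : Prop := ∀ (n : ℕ) (G : Type) [Group G] [MulAction G (E n)], Cocompact n G →
  ∀ g : Form n, Riem g → Inv G g → ∀ (z : G) (l : ℝ) (V : E n → E n) (τ : E n → ℝ)
  (ψ : ℝ → E n → E n), Axis n G g z l V τ ψ → ∃ C : ℝ, 1 ≤ C ∧ ∀ (r : ℝ) (x w : E n),
  g.val (ψ r x) (fderiv ℝ (ψ r) x w) (fderiv ℝ (ψ r) x w) ≤ C ^ 2 * g.val x w w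

/-- [Twi] EASY-MEDIUM (uses PiVar, PiLV, StGd).  Twisted curves.  `PiVar` with `s = 1`,
`f u = σ u + κ`: the curve `u ↦ ψ (f u) (c u)` is `C^1` and its speed squared is
`σ^2 + 2 σ a + g (Dψ_f c', Dψ_f c')`.  Write `c' = a V + w`, `g (V, w) = 0`, `g (w, w) = 1 - a^2`:
`Dψ_f c' = a V (ψ_f c) + Dψ_f w` and `g (V (ψ_f c), Dψ_f w) = g (V, w) = 0` (`PiLV`), so
`g (Dψ_f c', Dψ_f c') = a^2 + g (Dψ_f w, Dψ_f w) ≤ a^2 + C^2 (1 - a^2)`.  Last part of `StGd`. -/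
def CsTwi : Prop := ∀ (n : ℕ) (G : Type) [Group G] [MulAction G (E n)] (g : Form n) (z : G) (l : ℝ)
  (V : E n → E n) (τ : E n → ℝ) (ψ : ℝ → E n → E n), Axis n G g z l V τ ψ → ∀ C : ℝ,
  (∀ (r : ℝ) (x w : E n),
    g.val (ψ r x) (fderiv ℝ (ψ r) x w) (fderiv ℝ (ψ r) x w) ≤ C ^ 2 * g.val x w w) →
  ∀ c : ℝ → E n, UGeo g c → ∀ σ κ s t : ℝ, s ≤ t →
  gd g (ψ (σ * s + κ) (c s)) (ψ (σ * t + κ) (c t)) ≤
    ∫ u in s..t, Real.sqrt ((ang g V c u + σ) ^ 2 + C ^ 2 * (1 - ang g V c u ^ 2))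

/-- [Shf] EASY.  Shifts and group elements.  `t ↦ c (t + r)` and `t ↦ a • c t` are unit speed
geodesics (`StEqG`, `Inv`), the angle is shifted, respectively invariant (`Axis.inv`), and `Cal` is
preserved (`z ^ k • a • y = a • z ^ k • y`, `StInvD`). -/
def CsShf : Prop := ∀ (n : ℕ) (G : Type) [Group G] [MulAction G (E n)], Cocompact n G →
  ∀ g : Form n, Riem g → Inv G g → ∀ z : G, (∀ a : G, a * z = z * a) → ∀ (l : ℝ) (V : E n → E n)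
  (τ : E n → ℝ) (ψ : ℝ → E n → E n), Axis n G g z l V τ ψ → ∀ c : ℝ → E n, UGeo g c →
  (∀ r : ℝ, UGeo g (fun t => c (t + r)) ∧ (∀ t, deriv (fun t => c (t + r)) t = deriv c (t + r)) ∧
    (∀ t, ang g V (fun t => c (t + r)) t = ang g V c (t + r)) ∧
    ∀ e : ℝ, Cal g z l c e → Cal g z l (fun t => c (t + r)) e) ∧
  ∀ a : G, UGeo g (fun t => a • c t) ∧ (∀ t, deriv (fun t => a • c t) t = dac a (c t) (deriv c t)) ∧
    (∀ t, ang g V (fun t => a • c t) t = ang g V c t) ∧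
    ∀ e : ℝ, Cal g z l c e → Cal g z l (fun t => a • c t) e

/-- [Rev] EASY (uses StInvD, StGd).  Reversal.  `t ↦ c (-t)` is a unit speed geodesic with velocity
`- c' (-t)` (in `IsGeo.el` both signs cancel), and
`gd g (c (-s)) (z ^ k • c (-t)) = gd g (z ^ (-k) • c (-s)) (c (-t)) = gd g (c (-t)) (z ^ (-k) • c (-s)) ≥
(-s) - (-t) + e ((-k) l)`. -/
def CsRev : Prop := ∀ (n : ℕ) (G : Type) [Group G] [MulAction G (E n)], Cocompact n G →
  ∀ g : Form n, Inv G g → ∀ (z : G) (l : ℝ) (V : E n → E n) (c : ℝ → E n), UGeo g c →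
  UGeo g (fun t => c (-t)) ∧ (∀ t, ang g V (fun t => c (-t)) t = - ang g V c (-t)) ∧
  ∀ e : ℝ, Cal g z l c e → Cal g z l (fun t => c (-t)) (-e)

/-- [UpE] EASY-MEDIUM (uses CsAng, CsDps, CsTwi, CsZp).  Upper bound of `e`.  Let `C ≥ 1` be from `CsDps`,
`K` from `CsAng`, `σ = 1 + 2 C^2`, `T = l / (2 σ)`.  For `y = 1 - a ∈ [0, 2]`:
`(a + σ)^2 + C^2 (1 - a^2) ≤ (σ + 1 - y / 2)^2` (the difference is
`(y/2) (2 σ + 2 - 3 y / 2) - C^2 y (2 - y) ≥ y (σ - 1/2) - 2 C^2 y ≥ 0`), and `σ + 1 - y/2 ≥ 0`.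
`CsTwi` on `[t - T, t + T]` with `κ = - σ (t - T)`: the end points are `c (t - T)` and `ψ l (c (t + T)) =
z • c (t + T)`, so `gd g (c (t - T)) (z • c (t + T)) ≤ 2 T (σ + 1) - 1/2 ∫ (1 - a) ≤
l + 2 T - T exp (- K T) (1 - a t)` (`1 - a u ≥ exp (- K T) (1 - a t)` by `CsAng` with `s, t` exchanged).
`Cal` with `k = 1`: `2 T + e l ≤ ..`, so `T exp (- K T) (1 - a t) ≤ l (1 - e)`. -/
def CsUpE : Prop := ∀ (n : ℕ) (G : Type) [Group G] [MulAction G (E n)], Cocompact n G →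
  ∀ g : Form n, Riem g → Inv G g → ∀ (z : G) (l : ℝ) (V : E n → E n) (τ : E n → ℝ)
  (ψ : ℝ → E n → E n), Axis n G g z l V τ ψ → ∃ c₀ : ℝ, 0 < c₀ ∧ ∀ c : ℝ → E n, UGeo g c →
  ∀ e : ℝ, Cal g z l c e → ∀ t, c₀ * (1 - ang g V c t) ≤ 1 - e

/-- [LoE] EASY-MEDIUM (uses CsAng, CsDps, CsTwi).  Lower bound of `e`.  `CsTwi` on `[t, t + 2 l]` with
`σ = -1/2`, `κ = t/2`: the end points are `c t` and `ψ (-l) (c (t + 2 l)) = z⁻¹ • c (t + 2 l)`
(`ψ l (ψ (-l) x) = x`, `period`).  With `y = 1 - a ∈ [0, 2]`: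
`(a - 1/2)^2 + C^2 (1 - a^2) = 1/4 - y + y^2 + C^2 y (2 - y) ≤ (1/2 + (2 C^2 + 2) y)^2`, so
`gd g (c t) (z⁻¹ • c (t + 2 l)) ≤ l + (2 C^2 + 2) ∫ (1 - a) ≤ l + (2 C^2 + 2) 2 l exp (2 K l) (1 - a t)`.
`Cal` with `k = -1`: `2 l - e l ≤ ..`, so `1 - e ≤ 2 (2 C^2 + 2) exp (2 K l) (1 - a t)`. -/
def CsLoE : Prop := ∀ (n : ℕ) (G : Type) [Group G] [MulAction G (E n)], Cocompact n G →
  ∀ g : Form n, Riem g → Inv G g → ∀ (z : G) (l : ℝ) (V : E n → E n) (τ : E n → ℝ)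
  (ψ : ℝ → E n → E n), Axis n G g z l V τ ψ → ∃ C₁ : ℝ, 0 < C₁ ∧ ∀ c : ℝ → E n, UGeo g c →
  ∀ e : ℝ, Cal g z l c e → ∀ t, 1 - e ≤ C₁ * (1 - ang g V c t)

/-- [Cmp] EASY (uses CsUpE, CsLoE, CsRev).  Comparison.  `CsUpE`, `CsLoE` for `c, e` and for the
reversed geodesic and `-e` (`CsRev`); `Λ = max (1 / c₀) (max C₁ 1)`. -/
def CsCmp : Prop := ∀ (n : ℕ) (G : Type) [Group G] [MulAction G (E n)], Cocompact n G →
  ∀ g : Form n, Riem g → Inv G g → ∀ (z : G) (l : ℝ) (V : E n → E n) (τ : E n → ℝ)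
  (ψ : ℝ → E n → E n), Axis n G g z l V τ ψ → ∃ Λ : ℝ, 1 ≤ Λ ∧ ∀ c : ℝ → E n, UGeo g c →
  ∀ e : ℝ, Cal g z l c e → ∀ t, (1 - e ≤ Λ * (1 - ang g V c t) ∧ 1 - ang g V c t ≤ Λ * (1 - e)) ∧
    1 + e ≤ Λ * (1 + ang g V c t) ∧ 1 + ang g V c t ≤ Λ * (1 + e)

/-! ### D. quasi-geodesics -/

/-- [Str] EASY-MEDIUM (uses PiVar, PiLV, StGd, StGeo1, NcExp, StOp).  Straightening.  Let
`v = lg x y`, `β u = expo φ g x (u • v)`, a geodesic from `x` to `y` with `g (β', β') = g (v, v) =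
gd g x y ^ 2` (`IsLog.dist`), `H = h + τ y - τ x` and `f u = H u - (τ (β u) - τ x)`, so `f 0 = 0`,
`f 1 = h`, `f' = H - b` with `b = g (V, β')` (`grad`).  By `PiVar` (`s = 1`) the curve
`u ↦ ψ (f u) (β u)`, from `x` to `ψ h y`, has speed squared `f'^2 + 2 f' b + g (Dψ_f β', Dψ_f β')`, and
with `β' = b V + w`, `g (V, w) = 0`, this is `(f' + b)^2 + g (Dψ_f w, Dψ_f w) ≤ H^2 + C^2 g (w, w) ≤
H^2 + C^2 gd g x y ^ 2` (`PiLV`, as in `CsTwi`).  Last part of `StGd` on `[0, 1]`. -/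
def CsStr : Prop := ∀ (n : ℕ) (G : Type) [Group G] [MulAction G (E n)] (g : Form n)
  (φ : ℝ → W n → W n) (M : ℝ → W n → W n →L[ℝ] W n) (lg : E n → E n → E n), Riem g →
  IsFlow (XH (Hm g)) φ M → IsLog g φ lg → ∀ (z : G) (l : ℝ) (V : E n → E n) (τ : E n → ℝ)
  (ψ : ℝ → E n → E n), Axis n G g z l V τ ψ → ∀ C : ℝ, (∀ (r : ℝ) (x w : E n),
    g.val (ψ r x) (fderiv ℝ (ψ r) x w) (fderiv ℝ (ψ r) x w) ≤ C ^ 2 * g.val x w w) →
  ∀ (x y : E n) (h : ℝ), gd g x (ψ h y) ^ 2 ≤ (h + τ y - τ x) ^ 2 + C ^ 2 * gd g x y ^ 2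

/-- [Opt] EASY-MEDIUM.  Real analysis.  Let `β = sqrt (1 - e^2) > 0`, `H₀ = e R / β`,
`G H = sqrt (H^2 + R^2) - e H`; `G H₀ = β R`.  The hypothesis says `T - e δ ≤ G (k l + δ)` for all
integers `k`.  If `e ≥ 0` choose `k` with `H₀ ≤ k l + δ ≤ H₀ + l`: `sqrt (H^2 + R^2)` is 1-Lipschitz in
`H`, so `G (k l + δ) ≤ G H₀ + (1 - e) l`.  If `e < 0` choose `H₀ - l ≤ k l + δ ≤ H₀`:
`G (k l + δ) ≤ G H₀ + (1 + e) l`.  In both cases `(1 - |e|) T ≤ T - e δ ≤ β R + (1 - |e|) l`.  Multiply by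
`1 + |e| ≤ 2`: `β^2 T ≤ 2 β R + β^2 l`; divide by `β`. -/
def CsOpt : Prop := ∀ l e T δ R : ℝ, 0 < l → |e| < 1 → |δ| ≤ T → 0 ≤ R →
  (∀ k : ℤ, T + e * (k * l) ≤ Real.sqrt ((k * l + δ) ^ 2 + R ^ 2)) →
  Real.sqrt (1 - e ^ 2) * (T - l) ≤ 2 * R

/-- [Qg] EASY-MEDIUM (uses CsStr, CsOpt, CsZp, CsAng, CsDps, StFlow, StLog, StGd).  The projection is a
quasi-geodesic.  If `|e| = 1` the left side is `0`.  Let `x = c s`, `y = ψ r (c t)`,
`δ = τ (c t) - τ (c s)`, so `|δ| ≤ t - s` (`CsAng`).  For an integer `k` put `h = k l - r`: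
`ψ h y = ψ (k l) (c t) = z ^ k • c t` (`CsZp`) and `h + τ y - τ x = k l + δ` (`height`); `Cal` and `CsStr`
give `t - s + e (k l) ≤ sqrt ((k l + δ)^2 + R^2)`, `R = C gd g x y`.  `CsOpt` with `T = t - s`:
`sqrt (1 - e^2) (t - s - l) ≤ 2 C gd g x y`.  `Λ = max (2 C) l`. -/
def CsQg : Prop := ∀ (n : ℕ) (G : Type) [Group G] [MulAction G (E n)], Cocompact n G →
  ∀ g : Form n, Riem g → Inv G g → NoConj g → ∀ (z : G) (l : ℝ) (V : E n → E n) (τ : E n → ℝ)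
  (ψ : ℝ → E n → E n), Axis n G g z l V τ ψ → ∃ Λ : ℝ, 1 ≤ Λ ∧ ∀ c : ℝ → E n, UGeo g c →
  ∀ e : ℝ, |e| ≤ 1 → Cal g z l c e → ∀ r s t : ℝ, s ≤ t →
  Real.sqrt (1 - e ^ 2) * (t - s - Λ) ≤ Λ * gd g (c s) (ψ r (c t))

/-! ### E. near `V` -/

/-- [Ra] EASY (uses StFr).  The rotating frame, exact identities.  By `StFr` (third part)
`Dψ_u(X) X' = c' - V (c)`, so `(gr u)(X', X') = g (c' - V, c' - V) = 1 - 2 a + 1`.
`τ (X u) = τ (c u) - u` (`height`) and `(τ ∘ c)' = a` (`grad`).  `X 0 = c 0` (`zero`), and for `u = 0`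
(`Dψ_0 = id`) `X' 0 = c' 0 - V (c 0)`. -/
def CsRa : Prop := ∀ (n : ℕ) (G : Type) [Group G] [MulAction G (E n)] (g : Form n) (z : G) (l : ℝ)
  (V : E n → E n) (τ : E n → ℝ) (ψ : ℝ → E n → E n) (gr : ℝ → Form n),
  Axis n G g z l V τ ψ → Fam n gr → (∀ r x u v, (gr r).val x u v =
    g.val (ψ r x) (fderiv ℝ (ψ r) x u) (fderiv ℝ (ψ r) x v)) →
  ∀ c : ℝ → E n, UGeo g c → ∀ X : ℝ → E n, (∀ t, X t = ψ (-t) (c t)) →
  X 0 = c 0 ∧ deriv X 0 = deriv c 0 - V (c 0) ∧ gr 0 = g ∧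
  (∀ u, (gr u).val (X u) (deriv X u) (deriv X u) = 2 * (1 - ang g V c u)) ∧
  ∀ u, HasDerivAt (fun s => τ (X s)) (ang g V c u - 1) u

/-- [Rb] EASY-MEDIUM (uses CsRa, CsAng, StFr, StProp, StGd, StBnd).  The rotating frame, first bounds;
`δ = 1 - ang g V c 0 ∈ [0, 2]`.  (1) `CsAng` with `C = exp (K T)`.  (2) For `u ∈ [0, T]`
`gd g (c 0) (c u) ≤ u ≤ T` (last part of `StGd`, speed one), so `c u` is in a compact `K'` (`StProp`) and
`X u` in the compact image `K''` of `[-T, 0] x K'` under `ψ`.  On `[0, T] x K'' x` (unit sphere) the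
continuous function `(gr u).val x v v` is `≥ 1/C^2 > 0`, so `‖X' u‖^2 ≤ C^2 2 (1 - a u)` (`CsRa`), and
`X u - c 0 = ∫ 0..u, X'`. -/
def CsRb : Prop := ∀ (n : ℕ) (G : Type) [Group G] [MulAction G (E n)], Cocompact n G →
  ∀ g : Form n, Riem g → Inv G g → ∀ (z : G) (l : ℝ) (V : E n → E n) (τ : E n → ℝ)
  (ψ : ℝ → E n → E n), Axis n G g z l V τ ψ → ∀ gr : ℝ → Form n, Fam n gr →
  (∀ r x u v, (gr r).val x u v =
    g.val (ψ r x) (fderiv ℝ (ψ r) x u) (fderiv ℝ (ψ r) x v)) →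
  ∀ (K : Set (E n)) (T : ℝ), IsCompact K → 0 < T → ∃ C : ℝ, 0 ≤ C ∧
  ∀ c : ℝ → E n, UGeo g c → c 0 ∈ K → ∀ X : ℝ → E n, (∀ t, X t = ψ (-t) (c t)) →
  ∀ u ∈ Icc 0 T, 1 - ang g V c u ≤ C * (1 - ang g V c 0) ∧
    ‖deriv X u‖ ≤ C * Real.sqrt (1 - ang g V c 0) ∧
    ‖X u - c 0‖ ≤ C * Real.sqrt (1 - ang g V c 0)

/-- [Rc] MEDIUM (uses CsRa, CsRb, StFr, StSi, StOp).  The rotating frame, second bounds.  Let
`p u = op (gr u) (X u) (X' u)`; `p 0 = op g (c 0) (c' 0 - V (c 0)) = p₀` (`CsRa`).  By `StFr` (fourth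
part) `d/du inner (p u) w = 1/2 D(gr u)(w)(X', X')` for fixed `w`, which is at most
`C ‖w‖ ‖X'‖^2 ≤ C' ‖w‖ δ` in absolute value (`X u` is in the closed ball of radius `2 C` around a point
of `K`: a compact set; continuity of `(r, x) ↦ fderiv (gr r).val x`, from `Fam`), so
`‖p u - p₀‖ ≤ C'' δ` (`C'' = T C' n`, coordinates).  `k (r, x) = iop (gr r) x` is smooth (`StSi`), so
Lipschitz in `x` on compact convex sets: `‖k (u, X u) - k (u, c 0)‖ ≤ C ‖X u - c 0‖ ≤ C' sqrt δ`, and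
`X' u = k (u, X u) (p u)` (`StOp`), `‖p u‖ ≤ C sqrt δ`; so
`‖X' u - k (u, c 0) p₀‖ ≤ C sqrt δ sqrt δ + C δ`.  Finally `2 (1 - a u) = (gr u)(X', X') =
inner (p u) (X' u)`, which differs from `inner p₀ (k (u, c 0) p₀)` by at most
`‖p u - p₀‖ ‖X' u‖ + ‖p₀‖ ‖X' u - k (u, c 0) p₀‖ ≤ C δ sqrt δ`. -/
def CsRc : Prop := ∀ (n : ℕ) (G : Type) [Group G] [MulAction G (E n)], Cocompact n G →
  ∀ g : Form n, Riem g → Inv G g → ∀ (z : G) (l : ℝ) (V : E n → E n) (τ : E n → ℝ)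
  (ψ : ℝ → E n → E n), Axis n G g z l V τ ψ → ∀ gr : ℝ → Form n, Fam n gr →
  (∀ r x u v, (gr r).val x u v =
    g.val (ψ r x) (fderiv ℝ (ψ r) x u) (fderiv ℝ (ψ r) x v)) →
  ∀ (K : Set (E n)) (T : ℝ), IsCompact K → 0 < T → ∃ C : ℝ, 0 ≤ C ∧
  ∀ c : ℝ → E n, UGeo g c → c 0 ∈ K → ∀ X : ℝ → E n, (∀ t, X t = ψ (-t) (c t)) →
  ‖op g (c 0) (deriv c 0 - V (c 0))‖ ≤ C * Real.sqrt (1 - ang g V c 0) ∧
  ∀ u ∈ Icc 0 T,
    ‖deriv X u - iop (gr u) (c 0) (op g (c 0) (deriv c 0 - V (c 0)))‖ ≤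
      C * (1 - ang g V c 0) ∧
    |2 * (1 - ang g V c u) - inner ℝ (op g (c 0) (deriv c 0 - V (c 0)))
      (iop (gr u) (c 0) (op g (c 0) (deriv c 0 - V (c 0))))| ≤
      C * ((1 - ang g V c 0) * Real.sqrt (1 - ang g V c 0))

/-- [Mu] EASY (uses StSi).  Means over `N` periods: for every natural `N` and all `x, p`
`∫ u in 0..(N l), iop (gr u) x p = (N l) • iop gb x p` (periodicity of `gr` and `Avg.mean`;
`intervalIntegral` over a multiple of the period, `Function.Periodic.intervalIntegral_add_eq` and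
induction on `N`), and the same for `inner p (iop (gr u) x p)`. -/
def CsMu : Prop := ∀ (n : ℕ) (G : Type) [Group G] [MulAction G (E n)] (g : Form n) (l : ℝ)
  (ψ : ℝ → E n → E n) (gr : ℝ → Form n) (gb : Form n), 0 < l → Avg n G g l ψ gr gb →
  ∀ (N : ℕ) (x p : E n),
  (∫ u in (0 : ℝ)..(N * l), iop (gr u) x p) = (N * l) • iop gb x p ∧
  (∫ u in (0 : ℝ)..(N * l), inner ℝ p (iop (gr u) x p)) = (N * l) * inner ℝ p (iop gb x p)

/-- [Cy] MEDIUM (uses CsRb, CsRc, CsMu, StSi, StOp).  The competitor.  `T = N l`, `S = N' l`,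
`κ = T / S`, `p₀ = op g (c 0) (c' 0 - V (c 0))`, `k u = iop (gr u) (c 0) p₀` (`‖k u‖ ≤ C sqrt δ`).  By
`CsRc` and `CsMu` `X T - c 0 = ∫ 0..T, X' = T • iop gb (c 0) p₀ + O(δ)`, and
`∫ 0..S, κ • k = (κ S) • iop gb (c 0) p₀ = T • iop gb (c 0) p₀`.  So with
`d = S⁻¹ • (X T - c 0 - T • iop gb (c 0) p₀)`, `‖d‖ ≤ C δ`, the curve
`Y u = c 0 + ∫ 0..u, (κ • k r + d) dr` is `C^1`, `Y 0 = c 0`, `Y S = X T`, `Y' = κ • k + d`,
`‖Y u - c 0‖ ≤ C sqrt δ` on `[0, S]`.  `(gr u)(Y)(Y', Y') ≤ (gr u)(c 0)(Y', Y') + C ‖Y - c 0‖ ‖Y'‖^2`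
(`x ↦ (gr u).val x` is Lipschitz on a compact ball, uniformly for `u ∈ [0, S]`) and
`(gr u)(c 0)(Y', Y') ≤ κ^2 (gr u)(c 0)(k, k) + C δ sqrt δ`, `(gr u)(c 0)(k u, k u) = inner p₀ (k u)`
(`StOp`).  Integrate over `[0, S]` with `CsMu`: `κ^2 S inner p₀ (iop gb (c 0) p₀) + C δ sqrt δ`, and
`κ^2 S = T^2 / S`. -/
def CsCy : Prop := ∀ (n : ℕ) (G : Type) [Group G] [MulAction G (E n)], Cocompact n G →
  ∀ g : Form n, Riem g → Inv G g → ∀ (z : G) (l : ℝ) (V : E n → E n) (τ : E n → ℝ)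
  (ψ : ℝ → E n → E n), Axis n G g z l V τ ψ → ∀ (gr : ℝ → Form n) (gb : Form n),
  Avg n G g l ψ gr gb → ∀ (K : Set (E n)) (N N' : ℕ), IsCompact K → 0 < N → 0 < N' →
  ∃ C : ℝ, 0 ≤ C ∧ ∀ c : ℝ → E n, UGeo g c → c 0 ∈ K →
  ∃ Y : ℝ → E n, ContDiff ℝ 1 Y ∧ Y 0 = c 0 ∧ Y (N' * l) = ψ (-(N * l)) (c (N * l)) ∧
    ∫ u in (0 : ℝ)..(N' * l), (gr u).val (Y u) (deriv Y u) (deriv Y u) ≤
      (N * l) ^ 2 / (N' * l) * pb g gb V (c 0) (deriv c 0) +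
        C * ((1 - ang g V c 0) * Real.sqrt (1 - ang g V c 0))

/-- [Xp] EASY-MEDIUM (uses CsCy, CsRa, CsRc, CsMu, StEn, StGd, CsZp).  The expansion of the excess.
`T = N l`, `S = N' l`, `p₀`, `P = pb g gb V (c 0) (c' 0) = inner p₀ (iop gb (c 0) p₀)`, `Y` from `CsCy`.
`β u = ψ u (Y u)` is `C^1` (`StEn`) from `c 0` to `ψ S (ψ (-T) (c T)) = ψ (S - T) (c T)`.  By `StGd`,
`nrm ≤ (1 + g (β', β')) / 2` and `StEn`: `gd g (c 0) (ψ (S - T) (c T)) ≤ 1/2 (S + S + 2 (τ (Y S) - τ (Y 0)) +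
∫ 0..S, (gr u)(Y', Y'))`.  With `X u = ψ (-u) (c u)`: `τ (Y S) - τ (Y 0) = τ (X T) - τ (X 0) =
- ∫ 0..T (1 - a)` (`CsRa`), and `∫ 0..T 2 (1 - a) = T P + O(δ sqrt δ)` (`CsRc`, `CsMu`).  So the left side
is at most `S - T P / 2 + 1/2 (T^2 / S) P + C δ sqrt δ`. -/
def CsXp : Prop := ∀ (n : ℕ) (G : Type) [Group G] [MulAction G (E n)], Cocompact n G →
  ∀ g : Form n, Riem g → Inv G g → ∀ (z : G) (l : ℝ) (V : E n → E n) (τ : E n → ℝ)
  (ψ : ℝ → E n → E n), Axis n G g z l V τ ψ → ∀ (gr : ℝ → Form n) (gb : Form n),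
  Avg n G g l ψ gr gb → ∀ (K : Set (E n)) (N N' : ℕ), IsCompact K → 0 < N → 0 < N' →
  ∃ C : ℝ, 0 ≤ C ∧ ∀ c : ℝ → E n, UGeo g c → c 0 ∈ K →
  gd g (c 0) (ψ (N' * l - N * l) (c (N * l))) ≤
    N' * l - N * l / 2 * (1 - N / N') * pb g gb V (c 0) (deriv c 0) +
      C * ((1 - ang g V c 0) * Real.sqrt (1 - ang g V c 0))

/-- [Pi] EASY-MEDIUM (uses StOp, StCmp or StBnd).  The function `pb`.  Invariance: for an invariant
metric `h` and `D = dac a x`: `op h x = Dᵀ op h (a x) D`, so `iop h (a x) = D (iop h x) Dᵀ` and with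
`q = op g x (v - V x)`: `q = Dᵀ q'`, `q' = op g (a x) (D (v - V x)) = op g (a x) (D v - V (a x))`
(`Axis.inv`), so `inner q' (iop gb (a x) q') = inner q' (D (iop gb x) Dᵀ q') = inner q (iop gb x q)`
(compare AV/I_Ig.lean).  Bound: `pb` is the square of the `gb`-norm of `iop gb x q`, and for
`u = iop gb x q`: `pb = gb (u, u) = g (v - V, u) ≤ (g (v - V, v - V) g (u, u))^(1/2) ≤
(g (v - V, v - V) C gb (u, u))^(1/2)` (`g ≤ C gb`: both are invariant metrics), so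
`pb ≤ C g (v - V, v - V) = 2 C (1 - g (V, v))` for unit `v`. -/
def CsPi : Prop := ∀ (n : ℕ) (G : Type) [Group G] [MulAction G (E n)], Cocompact n G →
  ∀ g gb : Form n, Riem g → Inv G g → Riem gb → Inv G gb → ∀ V : E n → E n, ContDiff ℝ ∞ V →
  (∀ x, g.val x (V x) (V x) = 1) → (∀ (a : G) (x : E n), V (a • x) = dac a x (V x)) →
  (∀ (a : G) (x v : E n), pb g gb V (a • x) (dac a x v) = pb g gb V x v) ∧
  (∀ x v : E n, 0 ≤ pb g gb V x v) ∧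
  ∃ C : ℝ, 0 ≤ C ∧ ∀ x v : E n, g.val x v v = 1 → pb g gb V x v ≤ C * (1 - g.val x (V x) v)

/-- [Nv] EASY-MEDIUM (uses CsXp, CsPi, CsShf, CsZp).  The asymptotics.  Let `K` be compact with
`G K = R^n`, `P = pb g gb V (c 0) (c' 0)`, `δ = 1 - a 0 ∈ [0, 2]`, `P ≤ C₃ δ` (`CsPi`).  All quantities are
invariant under `c ↦ b • c` (`CsShf`, `CsPi`), so let `c 0 ∈ K`.  Choose a natural `N ≥ 2` with
`C₃ / (N - 1) ≤ ε`.  `CsXp` with `N' = N + 1` and `N' = N - 1`, `ψ (± l) = z ^ (± 1)` (`CsZp`), and `Cal` for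
`k = ± 1` on `[0, N l]`: `e l ≤ l - (l/2) (N / (N + 1)) P + C δ sqrt δ`,
`- e l ≤ - l + (l/2) (N / (N - 1)) P + C δ sqrt δ` (check: `(N l / 2) (1 - N / (N ± 1)) =
± (l/2) N / (N ± 1)`).  So `1 - e` differs from `P/2` by at most `(P/2) / (N - 1) + (C/l) δ sqrt δ ≤
ε δ / 2 + (C/l) δ sqrt δ`, and this is `≤ ε δ` if `sqrt δ ≤ ε l / (2 C + 1)`. -/
def CsNv : Prop := ∀ (n : ℕ) (G : Type) [Group G] [MulAction G (E n)], Cocompact n G →
  ∀ g : Form n, Riem g → Inv G g → Minz g → ∀ z : G, (∀ a : G, a * z = z * a) → ∀ (l : ℝ)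
  (V : E n → E n) (τ : E n → ℝ) (ψ : ℝ → E n → E n), Axis n G g z l V τ ψ →
  ∀ (gr : ℝ → Form n) (gb : Form n), Avg n G g l ψ gr gb → ∀ ε : ℝ, 0 < ε → ∃ δ : ℝ, 0 < δ ∧
  ∀ c : ℝ → E n, UGeo g c → ∀ e : ℝ, Cal g z l c e → 1 - ang g V c 0 < δ →
  |1 - e - 1 / 2 * pb g gb V (c 0) (deriv c 0)| ≤ ε * (1 - ang g V c 0)

end Pool.Agent.CSG
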