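import Pool.Agent.Work.MP_13b5d9_gt.CS.Stmts
import Pool.Agent.Work.MP_13b5d9_gt.AV.StmtsL

set_option autoImplicit false

/-!
# MP_13b5d9_gt, block CS, part M (Morse lemma): statements of the items, each with its complete proof

THEOREM.  If the space of integral curves of `V` with the metric of the companion `gb` (the universal
covering of `M`) is Gromov hyperbolic then the projections of all geodesics of `g` are uniformly
close to geodesics.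

See CS/Stmts.lean for the notation and the library; `TEh`, `TIs` are in LQ/TStmts.lean (namespace
Pool.Agent.LQT, proved: LQ/TAll.lean).
-/

open MeasureTheory Set Filter Topology
open scoped ContDiff ENNReal
open Pool.Agent.Work.MP_c9f990_an.Al (IsFlow)

namespace Pool.Agent.CSG

open Pool.Agent.MLS Pool.Agent.STR Pool.Agent.LQR Pool.Agent.PIN Pool.Agent.AV

/-- Gromov product of `x` and `y` with respect to `w` -/
noncomputable def gp {X : Type} (d : X → X → ℝ) (w x y : X) : ℝ := (d x w + d y w - d x y) / 2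

/-- `β` is a geodesic from `x` to (a point at distance `0` from) `y`, parametrised by `[0, 1]` -/
def Seg {X : Type} (d : X → X → ℝ) (x y : X) (β : ℝ → X) : Prop :=
  β 0 = x ∧ d (β 1) y = 0 ∧
    ∀ u ∈ Icc (0 : ℝ) 1, ∀ v ∈ Icc (0 : ℝ) 1, d (β u) (β v) = |u - v| * d x y

/-- `p` is Lipschitz and the time between two points is bounded by their distance -/
def QPath {X : Type} (d : X → X → ℝ) (A B : ℝ) (p : ℝ → X) (s t : ℝ) : Prop :=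
  ∀ u ∈ Icc s t, ∀ v ∈ Icc s t, d (p u) (p v) ≤ A * |u - v| ∧ |u - v| ≤ A * d (p u) (p v) + B

/-- distance of the projections to the space of integral curves of `V` (`h` is invariant under the
flow `ψ` of `V = grad τ`) -/
noncomputable def dq {n : ℕ} (h : Form n) (τ : E n → ℝ) (ψ : ℝ → E n → E n) (x y : E n) : ℝ :=
  gd h x (ψ (τ x - τ y) y)

/-- [MChn] EASY.  `Hyp4` for `x, y, z, w` says `gp w x y ≥ min (gp w x z) (gp w z y) - δ/2`; and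
`δ ≥ 0` (four equal points).  Induction on `k`: `gp w (x 0) (x (2^(k+1))) ≥
min (gp w (x 0) (x (2^k))) (gp w (x (2^k)) (x (2^(k+1)))) - δ/2`, the second one by the induction
hypothesis for `i ↦ x (2^k + i)`. -/
def CsMChn : Prop := ∀ (X : Type) (d : X → X → ℝ), IsPM d → ∀ δ : ℝ, Hyp4 d δ →
  ∀ (w : X) (m : ℝ) (k : ℕ) (x : ℕ → X), (∀ i < 2 ^ k, m ≤ gp d w (x i) (x (i + 1))) →
  m - k * (δ / 2) ≤ gp d w (x 0) (x (2 ^ k))

/-- [MDiv] EASY (uses CsMChn).  Exponential divergence.  `x i = p (s + (t - s) (i / 2^k))`, all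
parameters in `[s, t]` for `i ≤ 2^k`; `d (x i) (x (i+1)) ≤ A (t - s) / 2^k ≤ 1`, so
`gp w (x i) (x (i+1)) ≥ (R + R - 1) / 2`. -/
def CsMDiv : Prop := ∀ (X : Type) (d : X → X → ℝ), IsPM d → ∀ δ : ℝ, Hyp4 d δ →
  ∀ (w : X) (A R : ℝ) (k : ℕ) (p : ℝ → X) (s t : ℝ), s ≤ t → 0 ≤ A →
  (∀ u ∈ Icc s t, ∀ v ∈ Icc s t, d (p u) (p v) ≤ A * |u - v|) → A * (t - s) ≤ 2 ^ k →
  (∀ u ∈ Icc s t, R ≤ d (p u) w) → R - (k * δ + 1) / 2 ≤ gp d w (p s) (p t)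

/-- [MIn] MEDIUM (uses CsMDiv).  The geodesic is near the path.  `δ ≥ 0`.  Choose `D₁ ≥ 0` such that
for `R ≥ 0`, `k = ⌈Real.logb 2 (A (6 A (R + 1) + B) + 1)⌉` (natural ceiling, or
`Nat.log 2 ⌈..⌉ + 1`), `R ≤ 1 + δ + (k δ + 1)/2` implies `R ≤ D₁` (`k` grows like `log R`);
`D₀ = D₁ + 1`.  Let `f v = ⨅ u ∈ [s, t], d (β v) (p u)` (an infimum of nonnegative numbers, at most
`d (β v) (p s) ≤ d (p s) (p t)`), `R = ⨆ v ∈ [0, 1], f v`, `v` with `f v ≥ R - 1`, `w = β v`, so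
`d (p u) w ≥ R - 1` for all `u ∈ [s, t]`.  Left side: if `v d (p s) (p t) ≤ 2 (R + 1)` let `y = β 0 = p s`,
`u₁ = s`; then `gp w y (p u₁) = d (p s) w ≥ R - 1`.  Otherwise let `y = β v'`, `v' < v`, `d y w = 2 (R + 1)`,
and `u₁` with `d y (p u₁) ≤ R + 1`; then `d (p u₁) w ≥ R + 1` and `gp w y (p u₁) ≥ R + 1`.  The same on
the right side: `y'`, `u₂` (with `y' = β 1`, `u₂ = t` in the first case).  `d (p u₁) (p u₂) ≤ 6 (R + 1)`, so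
`|u₁ - u₂| ≤ 6 A (R + 1) + B` and `CsMDiv` on the interval between `u₁` and `u₂` gives
`gp w (p u₁) (p u₂) ≥ R - 1 - (k δ + 1)/2`.  Two applications of `Hyp4`: `gp w y y' ≥ R - 1 -
(k δ + 1)/2 - δ`, and `gp w y y' = 0` because `w` is between `y` and `y'` on `β`.  So
`R ≤ 1 + δ + (k δ + 1)/2`, `R ≤ D₁`, and every `β v` has a point `p u` with `d (β v) (p u) ≤ R + 1`. -/
def CsMIn : Prop := ∀ (X : Type) (d : X → X → ℝ), IsPM d → ∀ δ : ℝ, Hyp4 d δ →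
  ∀ A B : ℝ, 0 ≤ A → 0 ≤ B → ∃ D₀ : ℝ, 0 ≤ D₀ ∧ ∀ (p : ℝ → X) (s t : ℝ), s ≤ t →
  QPath d A B p s t → ∀ β : ℝ → X, Seg d (p s) (p t) β → ∀ v ∈ Icc (0 : ℝ) 1,
  ∃ u ∈ Icc s t, d (β v) (p u) ≤ D₀

/-- [Mor] EASY-MEDIUM (uses CsMIn).  The Morse lemma.  `D₀` from `CsMIn`, `β` a geodesic from `p s` to
`p t` (hypothesis), `L = d (p s) (p t)`, `N ≥ 1` a natural number with `L ≤ N`, `v_i = i / N`.  For each
`i ≤ N` there is `u_i ∈ [s, t]` with `d (β v_i) (p u_i) ≤ D₀`, where we may take `u_0 = s` and `u_N = t`.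
Since `u_0 = s ≤ u₀ ≤ t = u_N` there is `i < N` with `u_i ≤ u₀ ≤ u_(i+1)` (the first index `i + 1` with
`u_(i+1) ≥ u₀`).  `d (β v_i) (β v_(i+1)) ≤ 1`, so `d (p u_i) (p u_(i+1)) ≤ 2 D₀ + 1`,
`u_(i+1) - u_i ≤ A (2 D₀ + 1) + B`, `d (p u₀) (p u_i) ≤ A (A (2 D₀ + 1) + B)`, so
`d (p u₀) (β v_i) ≤ D₁ = A (A (2 D₀ + 1) + B) + D₀`, and `D = 2 D₁`
(`d (p s) (β v_i) + d (β v_i) (p t) = L`, as `d (β 1) (p t) = 0`). -/
def CsMor : Prop := ∀ (X : Type) (d : X → X → ℝ), IsPM d → ∀ δ : ℝ, Hyp4 d δ →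
  (∀ x y : X, ∃ β : ℝ → X, Seg d x y β) → ∀ A B : ℝ, 0 ≤ A → 0 ≤ B → ∃ D : ℝ, 0 ≤ D ∧
  ∀ (p : ℝ → X) (s t : ℝ), s ≤ t → QPath d A B p s t → ∀ u ∈ Icc s t,
  d (p s) (p u) + d (p u) (p t) ≤ d (p s) (p t) + D

/-- [DqP] EASY-MEDIUM (uses TIs, TEh, StGd, StFlow, StLog, StGeo1, NcExp, NcGx, CsSpd).  The quotient
pseudometric.  `ψ t` preserves `h` (`TIs`), so it maps paths to paths of the same length (as in `StInvD`;
use `ψ (-t)` for the converse) and `gd h (ψ t x) (ψ t y) = gd h x y`.  With `height` and `add`: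
`dq x (ψ r y) = dq x y`, `dq (ψ r x) y = dq x y`, symmetry (`gd h x (ψ r y) = gd h (ψ (-r) x) y`), triangle
inequality (`gd h x (ψ (τ x - τ z) z) ≤ gd h x (ψ (τ x - τ y) y) + gd h (ψ (τ x - τ y) y)
(ψ (τ x - τ y) (ψ (τ y - τ z) z))`).  Geodesics: `y' = ψ (τ x - τ y) y`, `v = lg x y'`,
`β u = expo φ h x (u • v)`: by `TEh` `τ (β u) = τ x + u h (V, v)`, and `τ y' = τ x` gives `h (V, v) = 0`; so
`τ (β u) = τ x`, `dq (β u) (β v) = gd h (β u) (β v) = |u - v| gd h x y'` (`CsSpd`, `NcExp`), and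
`dq (β 1) y = gd h y' y' = 0`. -/
def CsDqP : Prop := ∀ (n : ℕ) (G : Type) [Group G] [MulAction G (E n)], Cocompact n G →
  ∀ h : Form n, Riem h → Inv G h → NoConj h → ∀ (z : G) (l : ℝ) (V : E n → E n) (τ : E n → ℝ)
  (ψ : ℝ → E n → E n), Axis n G h z l V τ ψ → (∀ x u, fderiv ℝ V x u + Ga h x u (V x) = 0) →
  IsPM (dq h τ ψ) ∧ (∀ x y : E n, ∃ β : ℝ → E n, Seg (dq h τ ψ) x y β) ∧
  ∀ (r : ℝ) (x y : E n), dq h τ ψ x (ψ r y) = dq h τ ψ x y ∧ dq h τ ψ (ψ r x) y = dq h τ ψ x y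

/-- [DqL] EASY-MEDIUM (uses CsCmp, CsAng, StGv, PiVar, PiLV, StGd, StCmp).  Lipschitz bound.  Let
`s ≤ t` (the other case by symmetry is not needed).  The curve `γ u = ψ (f u) (c u)`,
`f u = τ (c s) - τ (c u)`, goes from `c s` to `ψ (τ (c s) - τ (c t)) (c t)`; it is `C^1` with
`γ' = Dψ_f c' + f' V(γ) = Dψ_f (c' - a V)` (`f' = - a`, `Dψ_f V = V ∘ ψ_f`).  By `StGv` (third part)
`gb (γ', γ') = gb (w, w)`, `w = c' - a V`, `gb (w, w) ≤ A^2 g (w, w) = A^2 (1 - a^2) ≤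
A^2 Λ^2 (1 - e) (1 + e)` (`StCmp`, `CsCmp`; `1 - a, 1 + a ≥ 0`).  Last part of `StGd` for `gb`. -/
def CsDqL : Prop := ∀ (n : ℕ) (G : Type) [Group G] [MulAction G (E n)], Cocompact n G →
  ∀ g : Form n, Riem g → Inv G g → ∀ (z : G) (l : ℝ) (V : E n → E n) (τ : E n → ℝ)
  (ψ : ℝ → E n → E n), Axis n G g z l V τ ψ → ∀ (gr : ℝ → Form n) (gb : Form n),
  Avg n G g l ψ gr gb → ∃ C : ℝ, 0 ≤ C ∧ ∀ c : ℝ → E n, UGeo g c → ∀ e : ℝ, |e| ≤ 1 →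
  Cal g z l c e → ∀ s t : ℝ, s ≤ t →
  dq gb τ ψ (c s) (c t) ≤ C * (Real.sqrt (1 - e ^ 2) * (t - s))

/-- [DqM] EASY-MEDIUM (uses CsMor, CsDqP, CsDqL, CsQg, StPa, StCmp).  Horizontal shadowing.  Let
`b = sqrt (1 - e^2)`.  If `b = 0` then `dq (c s) (c u) = 0` etc. by `CsDqL`.  Otherwise
`p σ = c (σ / b)` on `[b s, b t]`: `dq (p σ) (p σ') ≤ C |σ - σ'|` (`CsDqL`, symmetry), and for `σ ≤ σ'`
`CsQg` with `r = τ (c s) - τ (c t)` and `gd g ≤ A gd gb` (`StCmp`) give `σ' - σ ≤ Λ A dq (p σ) (p σ') +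
Λ b ≤ Λ A dq (p σ) (p σ') + Λ`.  So `QPath (dq gb τ ψ) A' Λ p (b s) (b t)` with
`A' = max C (Λ A)`; apply `CsMor` (`CsDqP` for `gb`, hypotheses from `StPa`). -/
def CsDqM : Prop := ∀ (n : ℕ) (G : Type) [Group G] [MulAction G (E n)], Cocompact n G →
  ∀ g : Form n, Riem g → Inv G g → NoConj g → ∀ (z : G) (l : ℝ) (V : E n → E n) (τ : E n → ℝ)
  (ψ : ℝ → E n → E n), Axis n G g z l V τ ψ → ∀ (gr : ℝ → Form n) (gb : Form n),
  Avg n G g l ψ gr gb → NoConj gb → ∀ δ : ℝ, Hyp4 (dq gb τ ψ) δ → ∃ D : ℝ, 0 ≤ D ∧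
  ∀ c : ℝ → E n, UGeo g c → ∀ e : ℝ, |e| ≤ 1 → Cal g z l c e → ∀ s u t : ℝ, s ≤ u → u ≤ t →
  dq gb τ ψ (c s) (c u) + dq gb τ ψ (c u) (c t) ≤ dq gb τ ψ (c s) (c t) + D

end Pool.Agent.CSG
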